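import Mathlib

/-!
# [H75 BT AU] Automorphisms of the free group on `a_0, a_1, …`

Type `B~_n`, free group part. `T : a_0 ↦ a_0, a_(j+1) ↦ a_(j+1) a_0⁻¹`; `V i : a_i ↦ a_(i+1), a_(i+1) ↦ a_(i+1) a_i⁻¹ a_(i+1)`, the other letters are fixed.
-/

set_option autoImplicit false

namespace Pool.Agent.H75.BT

open FreeGroup

/-- the free group -/
abbrev W := FreeGroup ℕ

theorem aut_ext {f g : MulAut W} (h : ∀ j, f (of j) = g (of j)) : f = g := by
  have h1 : f.toMonoidHom = g.toMonoidHom := FreeGroup.ext_hom _ _ fun j => h j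
  exact MulEquiv.ext fun x => DFunLike.congr_fun h1 x

/-- from letters and inverse letters -/
private theorem exists_aut (f g : ℕ → W) (h1 : ∀ j, FreeGroup.lift f (g j) = of j) (h2 : ∀ j, FreeGroup.lift g (f j) = of j) :
    ∃ T : MulAut W, ∀ j, T (of j) = f j := by
  have e1 : (FreeGroup.lift f).comp (FreeGroup.lift g) = MonoidHom.id W := by
    refine FreeGroup.ext_hom _ _ fun j => ?_
    show FreeGroup.lift f (FreeGroup.lift g (of j)) = of j
    rw [lift_apply_of, h1]
  have e2 : (FreeGroup.lift g).comp (FreeGroup.lift f) = MonoidHom.id W := by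
    refine FreeGroup.ext_hom _ _ fun j => ?_
    show FreeGroup.lift g (FreeGroup.lift f (of j)) = of j
    rw [lift_apply_of, h2]
  refine ⟨MulEquiv.mk ⟨FreeGroup.lift f, FreeGroup.lift g, fun x => DFunLike.congr_fun e2 x, fun x => DFunLike.congr_fun e1 x⟩
    (fun x y => map_mul _ x y), fun j => ?_⟩
  show FreeGroup.lift f (of j) = f j
  rw [lift_apply_of]

theorem exists_t : ∃ T : MulAut W, T (of 0) = of 0 ∧ ∀ j, T (of (j + 1)) = of (j + 1) * (of 0)⁻¹ := by
  obtain ⟨T, hT⟩ := exists_aut (fun j => if j = 0 then of 0 else of j * (of 0)⁻¹) (fun j => if j = 0 then of 0 else of j * of 0)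
    (by
      intro j
      by_cases hj : j = 0
      · subst hj
        simp
      · simp [hj])
    (by
      intro j
      by_cases hj : j = 0
      · subst hj
        simp
      · simp [hj])
  exact ⟨T, by rw [hT]; rfl, fun j => by rw [hT, if_neg (by omega)]⟩

theorem exists_v (i : ℕ) : ∃ V : MulAut W, V (of i) = of (i + 1) ∧ V (of (i + 1)) = of (i + 1) * (of i)⁻¹ * of (i + 1) ∧
    ∀ j, j ≠ i → j ≠ i + 1 → V (of j) = of j := by
  have hi : i + 1 ≠ i := by omega
  obtain ⟨V, hV⟩ := exists_aut
    (fun j => if j = i then of (i + 1) else if j = i + 1 then of (i + 1) * (of i)⁻¹ * of (i + 1) else of j)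
    (fun j => if j = i then of i * (of (i + 1))⁻¹ * of i else if j = i + 1 then of i else of j)
    (by
      intro j
      by_cases h1 : j = i
      · subst h1
        simp
      · by_cases h2 : j = i + 1
        · subst h2
          simp
        · simp [h1, h2])
    (by
      intro j
      by_cases h1 : j = i
      · subst h1
        simp
      · by_cases h2 : j = i + 1
        · subst h2
          simp
        · simp [h1, h2])
  exact ⟨V, by rw [hV, if_pos rfl], by rw [hV, if_neg hi, if_pos rfl], fun j h1 h2 => by rw [hV, if_neg h1, if_neg h2]⟩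

/-- `T` -/
noncomputable def tT : MulAut W := exists_t.choose

/-- `V i` -/
noncomputable def vV (i : ℕ) : MulAut W := (exists_v i).choose

theorem tT_zero : tT (of 0) = of 0 := exists_t.choose_spec.1

theorem tT_succ (j : ℕ) : tT (of (j + 1)) = of (j + 1) * (of 0)⁻¹ := exists_t.choose_spec.2 j

theorem vV_self (i : ℕ) : vV i (of i) = of (i + 1) := (exists_v i).choose_spec.1

theorem vV_succ (i : ℕ) : vV i (of (i + 1)) = of (i + 1) * (of i)⁻¹ * of (i + 1) := (exists_v i).choose_spec.2.1

theorem vV_ne {i j : ℕ} (h : j ≠ i) (h' : j ≠ i + 1) : vV i (of j) = of j := (exists_v i).choose_spec.2.2 j h h'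

theorem tv : tT * vV 0 * tT = vV 0 * tT * vV 0 := by
  refine aut_ext fun j => ?_
  have a0 := vV_self 0
  have a1 := vV_succ 0
  rw [zero_add] at a0 a1
  rcases j with _ | _ | j
  · have h3 := tT_succ 0
    rw [zero_add] at h3
    simp only [MulAut.mul_apply, tT_zero, a0, a1, h3, _root_.map_mul, _root_.map_inv]
    group
  · have := tT_succ 0
    rw [zero_add] at this
    simp only [MulAut.mul_apply, zero_add, this, tT_zero, a0, a1, _root_.map_mul, _root_.map_inv]
    group
  · have h1 := tT_succ (j + 1)
    have h2 : vV 0 (of (j + 1 + 1)) = of (j + 1 + 1) := vV_ne (by omega) (by omega)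
    have h3 := tT_succ 0
    rw [zero_add] at h3
    simp only [MulAut.mul_apply, h1, h2, h3, a0, _root_.map_mul, _root_.map_inv]
    group

theorem tv' (i : ℕ) : tT * vV (i + 1) = vV (i + 1) * tT := by
  refine aut_ext fun j => ?_
  have h0 : vV (i + 1) (of 0) = of 0 := vV_ne (by omega) (by omega)
  rcases j with _ | j
  · simp only [MulAut.mul_apply, h0, tT_zero]
  · by_cases h1 : j = i
    · subst h1
      simp only [MulAut.mul_apply, vV_self, tT_succ, h0, _root_.map_mul, _root_.map_inv]
    · by_cases h2 : j = i + 1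
      · subst h2
        simp only [MulAut.mul_apply, vV_succ, tT_succ, h0, _root_.map_mul, _root_.map_inv]
        group
      · have h3 : vV (i + 1) (of (j + 1)) = of (j + 1) := vV_ne (by omega) (by omega)
        simp only [MulAut.mul_apply, h3, tT_succ, h0, _root_.map_mul, _root_.map_inv]

theorem vv (i : ℕ) : vV i * vV (i + 1) * vV i = vV (i + 1) * vV i * vV (i + 1) := by
  refine aut_ext fun j => ?_
  have s1 : vV (i + 1) (of i) = of i := vV_ne (by omega) (by omega)
  have s2 : vV i (of (i + 1 + 1)) = of (i + 1 + 1) := vV_ne (by omega) (by omega)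
  by_cases h1 : j = i
  · subst h1
    simp only [MulAut.mul_apply, vV_self, s1, s2]
  · by_cases h2 : j = i + 1
    · subst h2
      simp only [MulAut.mul_apply, vV_self, vV_succ, s1, s2, _root_.map_mul, _root_.map_inv]
    · by_cases h3 : j = i + 1 + 1
      · subst h3
        simp only [MulAut.mul_apply, vV_self, vV_succ, s1, s2, _root_.map_mul, _root_.map_inv]
        group
      · simp only [MulAut.mul_apply, vV_ne h1 h2, vV_ne h2 h3]

theorem vv' {i j : ℕ} (h : i + 1 < j) : vV i * vV j = vV j * vV i := by
  refine aut_ext fun k => ?_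
  have s1 : vV i (of j) = of j := vV_ne (by omega) (by omega)
  have s2 : vV i (of (j + 1)) = of (j + 1) := vV_ne (by omega) (by omega)
  have s3 : vV j (of i) = of i := vV_ne (by omega) (by omega)
  have s4 : vV j (of (i + 1)) = of (i + 1) := vV_ne (by omega) (by omega)
  by_cases h1 : k = i
  · subst h1
    simp only [MulAut.mul_apply, vV_self, s3, s4]
  · by_cases h2 : k = i + 1
    · subst h2
      simp only [MulAut.mul_apply, vV_succ, s3, s4, _root_.map_mul, _root_.map_inv]
    · by_cases h3 : k = j
      · subst h3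
        simp only [MulAut.mul_apply, vV_self, s1, s2]
      · by_cases h4 : k = j + 1
        · subst h4
          simp only [MulAut.mul_apply, vV_succ, s1, s2, _root_.map_mul, _root_.map_inv]
        · simp only [MulAut.mul_apply, vV_ne h1 h2, vV_ne h3 h4]

end Pool.Agent.H75.BT
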