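import Mathlib

/-!
# [H75 BT CJ] Conjugation formulas in Artin groups of type `D` (60 min)

`p`, `q` the two leaves, `c 0, …, c (N - 1)` the tail, `el 0 = p q⁻¹`, `el (j + 1) = c j * el j * (c j)⁻¹`.
`conj_p_zero`: `p`, `q` commute. `conj_p_succ` for `j = 0`: `p (c p q⁻¹ c⁻¹) p⁻¹ = (c p q⁻¹ c⁻¹) (p q⁻¹)⁻¹` (`r2` in `H88/DT/Ker.lean`, private, copy it; only the two braid relations and `p q = q p`); for `j + 1`: `p` commutes with `c (j + 1)`, and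
`c (j + 1)` commutes with `el 0`. `conj_lt` (`j < i`): `c i` commutes with `p`, `q` (`0 < i`) and with `c 0, …, c (j - 1)`. `conj_gt` (`i + 1 < j`): `j = i + 2`: `c i c_(i+1) c i = c_(i+1) c i c_(i+1)` and `c (i + 1)` commutes with `el i`
(`conj_lt`); then induction over `j` (`c i` commutes with `c j`). `conj_succ`: `c i * el (i + 1) * (c i)⁻¹ = el (i + 1) * (el i)⁻¹ * el (i + 1)`: `i = 0`: `r4` in `H88/DT/Ker.lean`; `i = i' + 1`: `r7` there: with `m = c i'`, `r = c i`,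
`a = el i'`, `b = el i`, `c = el (i + 1)`: `(m r) a (m r)⁻¹ = b`, `(m r) b (m r)⁻¹ = c` (`m` commutes with `c`: `conj_gt`), `(m r) m (m r)⁻¹ = r`, so `r c r⁻¹ = (m r) (m b m⁻¹) (m r)⁻¹ = (m r) (b a⁻¹ b) (m r)⁻¹ = c b⁻¹ c`.
-/

set_option autoImplicit false

namespace Pool.Agent.H75.BT

/-- the relations of type `D` -/
structure DS {G : Type*} [Group G] (p q : G) (c : ℕ → G) (N : ℕ) : Prop where
  pq : p * q = q * p
  pc : 0 < N → p * c 0 * p = c 0 * p * c 0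
  qc : 0 < N → q * c 0 * q = c 0 * q * c 0
  pc' : ∀ i, i + 1 < N → p * c (i + 1) = c (i + 1) * p
  qc' : ∀ i, i + 1 < N → q * c (i + 1) = c (i + 1) * q
  cc : ∀ i, i + 1 < N → c i * c (i + 1) * c i = c (i + 1) * c i * c (i + 1)
  cc' : ∀ i j, i + 1 < j → j < N → c i * c j = c j * c i

/-- the letters -/
def el {G : Type*} [Group G] (p q : G) (c : ℕ → G) : ℕ → G
  | 0 => p * q⁻¹
  | j + 1 => c j * el p q c j * (c j)⁻¹

variable {G : Type*} [Group G] {p q : G} {c : ℕ → G} {N : ℕ}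

theorem el_zero : el p q c 0 = p * q⁻¹ := rfl

theorem el_succ (j : ℕ) : el p q c (j + 1) = c j * el p q c j * (c j)⁻¹ := rfl

theorem DS.mono (h : DS p q c N) {N' : ℕ} (hN : N' ≤ N) : DS p q c N' where
  pq := h.pq
  pc := fun h0 => h.pc (by omega)
  qc := fun h0 => h.qc (by omega)
  pc' := fun i hi => h.pc' i (by omega)
  qc' := fun i hi => h.qc' i (by omega)
  cc := fun i hi => h.cc i (by omega)
  cc' := fun i j hij hj => h.cc' i j hij (by omega)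

private theorem rq {m q : G} (hq : m * q * m = q * m * q) : m * q⁻¹ * m⁻¹ = q⁻¹ * m⁻¹ * q := by
  calc m * q⁻¹ * m⁻¹ = q⁻¹ * m⁻¹ * (m * q * m) * q⁻¹ * m⁻¹ := by group
    _ = q⁻¹ * m⁻¹ * (q * m * q) * q⁻¹ * m⁻¹ := by rw [hq]
    _ = q⁻¹ * m⁻¹ * q := by group

private theorem r2 {m p q : G} (hp : m * p * m = p * m * p) (hq : m * q * m = q * m * q) :
    p * (m * (p * q⁻¹) * m⁻¹) * p⁻¹ = (m * (p * q⁻¹) * m⁻¹) * (p * q⁻¹)⁻¹ := by
  calc p * (m * (p * q⁻¹) * m⁻¹) * p⁻¹ = (p * m * p) * q⁻¹ * m⁻¹ * p⁻¹ := by group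
    _ = (m * p * m) * q⁻¹ * m⁻¹ * p⁻¹ := by rw [hp]
    _ = m * p * (m * q⁻¹ * m⁻¹) * p⁻¹ := by group
    _ = m * p * (q⁻¹ * m⁻¹ * q) * p⁻¹ := by rw [rq hq]
    _ = (m * (p * q⁻¹) * m⁻¹) * (p * q⁻¹)⁻¹ := by group

private theorem rc {m q : G} (hq : m * q * m = q * m * q) : m⁻¹ * q * m = q * m * q⁻¹ := by
  calc m⁻¹ * q * m = m⁻¹ * (q * m * q) * q⁻¹ := by group
    _ = m⁻¹ * (m * q * m) * q⁻¹ := by rw [hq]
    _ = q * m * q⁻¹ := by group

private theorem r4 {m p q : G} (hp : m * p * m = p * m * p) (hq : m * q * m = q * m * q) (pq : p * q = q * p) :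
    m * (m * (p * q⁻¹) * m⁻¹) * m⁻¹ = (m * (p * q⁻¹) * m⁻¹) * (p * q⁻¹)⁻¹ * (m * (p * q⁻¹) * m⁻¹) := by
  symm
  calc (m * (p * q⁻¹) * m⁻¹) * (p * q⁻¹)⁻¹ * (m * (p * q⁻¹) * m⁻¹)
      = m * p * q⁻¹ * (m⁻¹ * q * m) * (m⁻¹ * p * m)⁻¹ * p * q⁻¹ * m⁻¹ := by group
    _ = m * p * q⁻¹ * (q * m * q⁻¹) * (p * m * p⁻¹)⁻¹ * p * q⁻¹ * m⁻¹ := by rw [rc hq, rc hp]
    _ = m * p * m * (q⁻¹ * p) * (m * q * m)⁻¹ := by group
    _ = m * p * m * (q⁻¹ * p) * (q * m * q)⁻¹ := by rw [hq]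
    _ = m * p * m * (q⁻¹ * (p * q) * q⁻¹) * (q * m * q)⁻¹ := by group
    _ = m * p * m * (q⁻¹ * (q * p) * q⁻¹) * (q * m * q)⁻¹ := by rw [pq]
    _ = m * (p * m * p) * q⁻¹ * q⁻¹ * m⁻¹ * q⁻¹ := by group
    _ = m * (m * p * m) * q⁻¹ * q⁻¹ * m⁻¹ * q⁻¹ := by rw [hp]
    _ = m * m * p * (m * q⁻¹ * m⁻¹) * (m * q⁻¹ * m⁻¹) * q⁻¹ := by group
    _ = m * m * p * (q⁻¹ * m⁻¹ * q) * (q⁻¹ * m⁻¹ * q) * q⁻¹ := by rw [rq hq]
    _ = m * (m * (p * q⁻¹) * m⁻¹) * m⁻¹ := by group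

/-- commuting elements: conjugation -/
private theorem cj_comm {a b x : G} (h : a * b = b * a) : a * (b * x * b⁻¹) * a⁻¹ = b * (a * x * a⁻¹) * b⁻¹ := by
  calc a * (b * x * b⁻¹) * a⁻¹ = (a * b) * x * (a * b)⁻¹ := by group
    _ = (b * a) * x * (b * a)⁻¹ := by rw [h]
    _ = b * (a * x * a⁻¹) * b⁻¹ := by group

private theorem cj_zero {p q r : G} (hp : p * r = r * p) (hq : q * r = r * q) : r * (p * q⁻¹) * r⁻¹ = p * q⁻¹ := by
  calc r * (p * q⁻¹) * r⁻¹ = (r * p) * q⁻¹ * r⁻¹ := by group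
    _ = p * r * q⁻¹ * r⁻¹ := by rw [← hp]
    _ = p * (q⁻¹ * (q * r) * q⁻¹) * r⁻¹ := by group
    _ = p * (q⁻¹ * (r * q) * q⁻¹) * r⁻¹ := by rw [hq]
    _ = p * q⁻¹ := by group

theorem conj_p_zero (h : DS p q c N) : p * el p q c 0 * p⁻¹ = el p q c 0 := by
  have pq := h.pq
  rw [el_zero]
  calc p * (p * q⁻¹) * p⁻¹ = p * (q⁻¹ * (q * p)) * q⁻¹ * p⁻¹ := by group
    _ = p * (q⁻¹ * (p * q)) * q⁻¹ * p⁻¹ := by rw [pq]
    _ = p * q⁻¹ := by group

theorem conj_p_succ (h : DS p q c N) {j : ℕ} (hj : j < N) :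
    p * el p q c (j + 1) * p⁻¹ = el p q c (j + 1) * (el p q c 0)⁻¹ := by
  induction j with
  | zero =>
    rw [el_succ, el_zero]
    exact r2 (h.pc hj).symm (h.qc hj).symm
  | succ j ih =>
    have ih' := ih (by omega)
    have h1 : p * c (j + 1) = c (j + 1) * p := h.pc' j hj
    have h2 : q * c (j + 1) = c (j + 1) * q := h.qc' j hj
    have h3 : c (j + 1) * el p q c 0 * (c (j + 1))⁻¹ = el p q c 0 := by
      rw [el_zero]
      exact cj_zero h1 h2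
    rw [el_succ (j + 1), cj_comm h1, ih']
    calc c (j + 1) * (el p q c (j + 1) * (el p q c 0)⁻¹) * (c (j + 1))⁻¹
        = c (j + 1) * el p q c (j + 1) * (c (j + 1))⁻¹ * (c (j + 1) * el p q c 0 * (c (j + 1))⁻¹)⁻¹ := by group
      _ = c (j + 1) * el p q c (j + 1) * (c (j + 1))⁻¹ * (el p q c 0)⁻¹ := by rw [h3]

private theorem conj_lt (h : DS p q c N) {i j : ℕ} (hi : i < N) (hj : j < i) :
    c i * el p q c j * (c i)⁻¹ = el p q c j := by
  induction j with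
  | zero =>
    obtain ⟨i, rfl⟩ : ∃ k, i = k + 1 := ⟨i - 1, by omega⟩
    rw [el_zero]
    exact cj_zero (h.pc' i hi) (h.qc' i hi)
  | succ j ih =>
    rw [el_succ, cj_comm (h.cc' j i hj hi).symm, ih (by omega)]

private theorem conj_gt (h : DS p q c N) {i j : ℕ} (hj : j ≤ N) (hij : i + 1 < j) :
    c i * el p q c j * (c i)⁻¹ = el p q c j := by
  induction j with
  | zero => omega
  | succ j ih =>
    rcases Nat.lt_or_ge (i + 1) j with h1 | h1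
    · rw [el_succ, cj_comm (h.cc' i j h1 (by omega)), ih (by omega) h1]
    · obtain rfl : j = i + 1 := by omega
      have h2 := h.cc i (by omega)
      have h3 := conj_lt h (i := i + 1) (j := i) (by omega) (by omega)
      rw [el_succ, el_succ]
      calc c i * (c (i + 1) * (c i * el p q c i * (c i)⁻¹) * (c (i + 1))⁻¹) * (c i)⁻¹
          = (c i * c (i + 1) * c i) * el p q c i * (c i * c (i + 1) * c i)⁻¹ := by group
        _ = (c (i + 1) * c i * c (i + 1)) * el p q c i * (c (i + 1) * c i * c (i + 1))⁻¹ := by rw [h2]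
        _ = c (i + 1) * (c i * (c (i + 1) * el p q c i * (c (i + 1))⁻¹) * (c i)⁻¹) * (c (i + 1))⁻¹ := by group
        _ = c (i + 1) * (c i * el p q c i * (c i)⁻¹) * (c (i + 1))⁻¹ := by rw [h3]

theorem conj_ne (h : DS p q c N) {i j : ℕ} (hi : i < N) (hj : j ≤ N) (h1 : j ≠ i) (h2 : j ≠ i + 1) :
    c i * el p q c j * (c i)⁻¹ = el p q c j := by
  rcases Nat.lt_or_ge j i with h3 | h3
  · exact conj_lt h hi h3
  · exact conj_gt h hj (by omega)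

theorem conj_succ (h : DS p q c N) {i : ℕ} (hi : i < N) :
    c i * el p q c (i + 1) * (c i)⁻¹ = el p q c (i + 1) * (el p q c i)⁻¹ * el p q c (i + 1) := by
  induction i with
  | zero =>
    rw [el_succ, el_zero]
    exact r4 (h.pc hi).symm (h.qc hi).symm h.pq
  | succ i ih =>
    have e4 := ih (by omega)
    have hcc := h.cc i hi
    have ha := conj_lt h (i := i + 1) (j := i) hi (by omega)
    have hc := conj_gt h (i := i) (j := i + 2) (by omega) (by omega)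
    have hb : c i * el p q c i * (c i)⁻¹ = el p q c (i + 1) := rfl
    have hcd : c (i + 1) * el p q c (i + 1) * (c (i + 1))⁻¹ = el p q c (i + 2) := rfl
    obtain ⟨m, hm⟩ : ∃ m, m = c i := ⟨_, rfl⟩
    obtain ⟨r, hr⟩ : ∃ r, r = c (i + 1) := ⟨_, rfl⟩
    obtain ⟨x, hx⟩ : ∃ x, x = el p q c i := ⟨_, rfl⟩
    obtain ⟨y, hy⟩ : ∃ y, y = el p q c (i + 1) := ⟨_, rfl⟩
    obtain ⟨z, hz⟩ : ∃ z, z = el p q c (i + 2) := ⟨_, rfl⟩
    rw [← hm, ← hx] at hb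
    rw [← hy] at hb
    rw [← hr, ← hy, ← hz] at hcd
    rw [← hm, ← hx, ← hy] at e4
    rw [← hm, ← hr] at hcc
    rw [← hr, ← hx] at ha
    rw [← hm, ← hz] at hc
    show c (i + 1) * el p q c (i + 2) * (c (i + 1))⁻¹ = el p q c (i + 2) * (el p q c (i + 1))⁻¹ * el p q c (i + 2)
    rw [← hr, ← hy, ← hz]
    have e1 : (m * r) * x * (m * r)⁻¹ = y := by
      calc (m * r) * x * (m * r)⁻¹ = m * (r * x * r⁻¹) * m⁻¹ := by group
        _ = y := by rw [ha, hb]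
    have e2 : (m * r) * y * (m * r)⁻¹ = z := by
      calc (m * r) * y * (m * r)⁻¹ = m * (r * y * r⁻¹) * m⁻¹ := by group
        _ = z := by rw [hcd, hc]
    have e3 : (m * r) * m * (m * r)⁻¹ = r := by
      calc (m * r) * m * (m * r)⁻¹ = (m * r * m) * r⁻¹ * m⁻¹ := by group
        _ = (r * m * r) * r⁻¹ * m⁻¹ := by rw [hcc]
        _ = r := by group
    calc r * z * r⁻¹ = ((m * r) * m * (m * r)⁻¹) * ((m * r) * y * (m * r)⁻¹) * ((m * r) * m * (m * r)⁻¹)⁻¹ := by rw [e2, e3]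
      _ = (m * r) * (m * y * m⁻¹) * (m * r)⁻¹ := by group
      _ = (m * r) * (y * x⁻¹ * y) * (m * r)⁻¹ := by rw [e4]
      _ = ((m * r) * y * (m * r)⁻¹) * ((m * r) * x * (m * r)⁻¹)⁻¹ * ((m * r) * y * (m * r)⁻¹) := by group
      _ = z * y⁻¹ * z := by rw [e1, e2]

end Pool.Agent.H75.BT
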