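import Pool.Agent.H75.BT.Wd
import Pool.Agent.H75.BT.Cj

/-!
# [H75 BT CO] The kernel of the identification of the two leaves (90 min)

`X = W ⋊ Aut W`. `Rp`: `Θ : G →* X` with `Θ p = (1, T)`, `Θ q = (a_0⁻¹, T)`, `Θ (c i) = (1, V i)`, and `κ : G →* G` with `p, q ↦ p`, `c i ↦ c i`. `Hh N` is generated by `p`, `q`, `c i` (`i < N`), `Hl N l` by `p`, `q`, `c i` (`i < N`, `i ≠ l`).
`fn = FreeGroup.lift el : W →* G`.
`eqv`: for `x ∈ Hh N`: `P x := Pr (N + 1) (Θ x).right ∧ (Θ x).left ∈ Wl (N + 1) ∧ ∀ u ∈ Wl (N + 1), fn ((Θ x).right u) = κ x * fn u * (κ x)⁻¹`, `Subgroup.closure_induction` (one, generators, mul, inv): generators: `p`, `q` (`κ = p`, right component `T`: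
`tT_zero`, `tT_succ`, `conj_p_zero`, `conj_p_succ`), `c i` (`vV_self`, `vV_succ`, `vV_ne`, `el_succ`, `conj_succ`, `conj_ne`): for the third part both sides are homomorphisms in `u`: `wl_ext` with `f = fn.comp (Θ x).right.toMonoidHom`,
`g = (MulAut.conj (κ x)).toMonoidHom.comp fn`. Products: `SemidirectProduct.mul_left`, `mul_right`; inverses: `inv_left`, `inv_right`, apply the third part to `(Θ x).right⁻¹ u`, which is in `Wl (N + 1)` (`Pr.inv`).
`back`: `x = fn (Θ x).left * κ x` for `x ∈ Hh N`: `Subgroup.closure_induction_right` or `closure_induction` with the predicate `P x ∧ x = fn (Θ x).left * κ x`: product: `fn (left x * right x (left y)) * κ x * κ y = fn (left x) * κ x * fn (left y) * (κ x)⁻¹ * κ x * κ y = x * y`;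
inverse: `left x⁻¹ = right x⁻¹ (left x)⁻¹` (`SemidirectProduct.inv_left`), so `fn (left x⁻¹) = (κ x)⁻¹ * (fn (left x))⁻¹ * κ x` and `fn (left x⁻¹) * (κ x)⁻¹ = (κ x)⁻¹ (fn (left x))⁻¹ = x⁻¹`.
`left_fn`: `Θ (fn u) = inl u` for `u ∈ Wl (N + 1)`: `wl_ext` and `Θ (el j) = inl (of j)` for `j ≤ N`: `inr T * (inl a_0⁻¹ * inr T)⁻¹ = inl a_0`; `inr V * inl a * (inr V)⁻¹ = inl (V a)` (`SemidirectProduct.inl_aut`), `vV_self`.
`low`: `x ∈ Hl N l` (`l ≤ N`): closure induction with `Pr (l + 1) (Θ x).right ∧ (Θ x).left ∈ Wl (l + 1)` (`pr_t`, `pr_v`: `i < l` or `l < i`).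
`c1`: `x ∈ Hh N`, `κ x = 1`, `(Θ x).left ∈ Wl (l + 1)`, `l ≤ N`: `x = fn (Θ x).left` (`back`), and `el j ∈ Hh l` for `j ≤ l` (`wl_le`). If `(Θ x).left ∈ Wl 0` then `x = 1` (`wl_zero`).
`right_one`: the right component of `Θ` only depends on `κ`: `(Θ x).right = (Θ (κ x)).right` for `x ∈ Hh N` (generators), so it is `1` if `κ x = 1`.
`swap`: `ι p = q`, `ι q = p`, `ι (c i) = c i`: for `x ∈ Hh N`, `κ x = 1`: `x = fn w`, `w ∈ Wl (N + 1)`, `ι (fn w) = fn (jj w)` (`wl_ext`: `ι (el j) = (el j)⁻¹` by induction, `j ≤ N`), so `Θ (ι x) = Θ (fn (jj w)) = inl (jj w)` (`left_fn`, `jj_mem`).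
`dsw`: `h = κ y`; `f = y h⁻¹ ∈ Hh N`, `κ f = 1` (`κ (κ y) = κ y` on `Hh N`: generators), `u = (Θ f).left`, `Θ f = inl u` (`right_one`), `(ι f)⁻¹ f = ι h * h⁻¹ ∈ Hl N l` (`ι` maps `Hl N l` into itself), `Θ ((ι f)⁻¹ f) = inl ((jj u)⁻¹ * u)`, `low`, `pal`:
`u ∈ Wl (l + 1)`, `c1`: `f ∈ Hh l ≤ Hl N l` (`l ≤ N`), `y = f h ∈ Hl N l`.
`dsw'`: `κ y = 1`, `ι y = y`: `u = (Θ y).left = jj u`, `pal` with `l = 0`, `wl_zero`, `back`: `y = 1`.
-/

set_option autoImplicit false

namespace Pool.Agent.H75.BT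

open FreeGroup

/-- the semidirect product -/
abbrev X := W ⋊[MonoidHom.id (MulAut W)] MulAut W

variable {G : Type*} [Group G] {p q : G} {c : ℕ → G} {N : ℕ}

/-- the representation and the identification of the leaves -/
structure Rp (p q : G) (c : ℕ → G) (N : ℕ) (Θ : G →* X) (κ : G →* G) : Prop where
  tp : Θ p = SemidirectProduct.inr tT
  tq : Θ q = SemidirectProduct.inl (of 0)⁻¹ * SemidirectProduct.inr tT
  tc : ∀ i < N, Θ (c i) = SemidirectProduct.inr (vV i)
  kp : κ p = p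
  kq : κ q = p
  kc : ∀ i < N, κ (c i) = c i

/-- the subgroup generated by `p`, `q`, `c i` for `i < N` -/
def Hh (p q : G) (c : ℕ → G) (N : ℕ) : Subgroup G := Subgroup.closure ({p, q} ∪ c '' {i | i < N})

/-- the subgroup generated by `p`, `q`, `c i` for `i < N`, `i ≠ l` -/
def Hl (p q : G) (c : ℕ → G) (N l : ℕ) : Subgroup G := Subgroup.closure ({p, q} ∪ c '' {i | i < N ∧ i ≠ l})

variable {Θ : G →* X} {κ : G →* G}

theorem Rp.mono (h : Rp p q c N Θ κ) {N' : ℕ} (hN : N' ≤ N) : Rp p q c N' Θ κ where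
  tp := h.tp
  tq := h.tq
  tc := fun i hi => h.tc i (by omega)
  kp := h.kp
  kq := h.kq
  kc := fun i hi => h.kc i (by omega)

private theorem left_q (h : Rp p q c N Θ κ) : (Θ q).left = (of 0)⁻¹ ∧ (Θ q).right = tT := by
  rw [h.tq]
  constructor
  · rw [SemidirectProduct.mul_left, SemidirectProduct.left_inl, SemidirectProduct.left_inr, _root_.map_one, mul_one]
  · rw [SemidirectProduct.mul_right, SemidirectProduct.right_inl, SemidirectProduct.right_inr, one_mul]

private theorem third_p (hD : DS p q c N) {u : W} (hu : u ∈ Wl (N + 1)) :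
    FreeGroup.lift (el p q c) (tT u) = p * FreeGroup.lift (el p q c) u * p⁻¹ := by
  refine wl_ext (f := (FreeGroup.lift (el p q c)).comp tT.toMonoidHom)
    (g := (MulAut.conj p).toMonoidHom.comp (FreeGroup.lift (el p q c))) ?_ hu
  intro j hj
  show FreeGroup.lift (el p q c) (tT (of j)) = p * FreeGroup.lift (el p q c) (of j) * p⁻¹
  rcases j with _ | j
  · rw [tT_zero, lift_apply_of, conj_p_zero hD]
  · rw [tT_succ, _root_.map_mul, _root_.map_inv, lift_apply_of, lift_apply_of, conj_p_succ hD (by omega)]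

private theorem third_c (hD : DS p q c N) {i : ℕ} (hi : i < N) {u : W} (hu : u ∈ Wl (N + 1)) :
    FreeGroup.lift (el p q c) (vV i u) = c i * FreeGroup.lift (el p q c) u * (c i)⁻¹ := by
  refine wl_ext (f := (FreeGroup.lift (el p q c)).comp (vV i).toMonoidHom)
    (g := (MulAut.conj (c i)).toMonoidHom.comp (FreeGroup.lift (el p q c))) ?_ hu
  intro j hj
  show FreeGroup.lift (el p q c) (vV i (of j)) = c i * FreeGroup.lift (el p q c) (of j) * (c i)⁻¹
  by_cases h1 : j = i
  · subst h1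
    rw [vV_self, lift_apply_of, lift_apply_of, el_succ]
  by_cases h2 : j = i + 1
  · subst h2
    rw [vV_succ, _root_.map_mul, _root_.map_mul, _root_.map_inv, lift_apply_of, lift_apply_of, conj_succ hD hi]
  rw [vV_ne h1 h2, lift_apply_of, conj_ne hD hi (by omega) h1 h2]

private theorem main (hD : DS p q c N) (h : Rp p q c N Θ κ) {x : G} (hx : x ∈ Hh p q c N) :
    Pr (N + 1) (Θ x).right ∧ (Θ x).left ∈ Wl (N + 1) ∧
      (∀ u ∈ Wl (N + 1), FreeGroup.lift (el p q c) ((Θ x).right u) = κ x * FreeGroup.lift (el p q c) u * (κ x)⁻¹) ∧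
      x = FreeGroup.lift (el p q c) (Θ x).left * κ x := by
  unfold Hh at hx
  induction hx using Subgroup.closure_induction with
  | mem x hx =>
    rcases hx with (rfl | hx) | ⟨i, hi, rfl⟩
    · rw [h.tp, h.kp, SemidirectProduct.left_inr, SemidirectProduct.right_inr]
      refine ⟨pr_t _, one_mem _, fun u hu => third_p hD hu, ?_⟩
      rw [_root_.map_one, one_mul]
    · obtain rfl : x = q := hx
      rw [(left_q h).1, (left_q h).2, h.kq]
      refine ⟨pr_t _, inv_mem (of_mem (by omega)), fun u hu => third_p hD hu, ?_⟩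
      rw [_root_.map_inv, lift_apply_of, el_zero]
      group
    · have hi' : i < N := hi
      rw [h.tc i hi', h.kc i hi', SemidirectProduct.left_inr, SemidirectProduct.right_inr]
      refine ⟨pr_v (Or.inl (by omega)), one_mem _, fun u hu => third_c hD hi' hu, ?_⟩
      rw [_root_.map_one, one_mul]
  | one =>
    rw [_root_.map_one, _root_.map_one, SemidirectProduct.one_left, SemidirectProduct.one_right]
    refine ⟨pr_one _, one_mem _, fun u _ => ?_, ?_⟩
    · rw [MulAut.one_apply]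
      group
    · rw [_root_.map_one, one_mul]
  | mul x y _ _ ihx ihy =>
    obtain ⟨a1, a2, a3, a4⟩ := ihx
    obtain ⟨b1, b2, b3, b4⟩ := ihy
    rw [_root_.map_mul, _root_.map_mul, SemidirectProduct.mul_left, SemidirectProduct.mul_right]
    refine ⟨a1.mul b1, mul_mem a2 ((a1 _).2 b2), fun u hu => ?_, ?_⟩
    · rw [MulAut.mul_apply, a3 _ ((b1 u).2 hu), b3 u hu]
      group
    · have h1 : FreeGroup.lift (el p q c) ((MonoidHom.id (MulAut W)) (Θ x).right (Θ y).left) =
          κ x * FreeGroup.lift (el p q c) (Θ y).left * (κ x)⁻¹ := a3 _ b2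
      rw [_root_.map_mul, h1]
      calc x * y = (FreeGroup.lift (el p q c) (Θ x).left * κ x) * (FreeGroup.lift (el p q c) (Θ y).left * κ y) := by
            rw [← a4, ← b4]
        _ = _ := by group
  | inv x _ ih =>
    obtain ⟨a1, a2, a3, a4⟩ := ih
    rw [_root_.map_inv, _root_.map_inv, SemidirectProduct.inv_left, SemidirectProduct.inv_right]
    have h3 : ∀ u ∈ Wl (N + 1), FreeGroup.lift (el p q c) ((Θ x).right⁻¹ u) =
        (κ x)⁻¹ * FreeGroup.lift (el p q c) u * κ x := by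
      intro u hu
      have h1 := a3 ((Θ x).right⁻¹ u) ((a1.inv u).2 hu)
      rw [MulAut.apply_inv_self] at h1
      rw [h1]
      group
    refine ⟨a1.inv, (a1.inv _).2 (inv_mem a2), fun u hu => ?_, ?_⟩
    · rw [h3 u hu, inv_inv]
    · have h1 : FreeGroup.lift (el p q c) ((MonoidHom.id (MulAut W)) (Θ x).right⁻¹ (Θ x).left⁻¹) =
          (κ x)⁻¹ * FreeGroup.lift (el p q c) (Θ x).left⁻¹ * κ x := h3 _ (inv_mem a2)
      rw [h1, _root_.map_inv]
      conv_lhs => rw [a4]
      group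

theorem back (hD : DS p q c N) (h : Rp p q c N Θ κ) {x : G} (hx : x ∈ Hh p q c N) :
    (Θ x).left ∈ Wl (N + 1) ∧ x = FreeGroup.lift (el p q c) (Θ x).left * κ x :=
  ⟨(main hD h hx).2.1, (main hD h hx).2.2.2⟩

private theorem hh_ext {H : Type*} [Group H] {f g : G →* H} (hp : f p = g p) (hq : f q = g q) (hc : ∀ i < N, f (c i) = g (c i))
    {x : G} (hx : x ∈ Hh p q c N) : f x = g x := by
  have h1 : Hh p q c N ≤ f.eqLocus g := by
    unfold Hh
    rw [Subgroup.closure_le]
    rintro x ((rfl | hx) | ⟨i, hi, rfl⟩)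
    · exact hp
    · obtain rfl : x = q := hx
      exact hq
    · exact hc i hi
  exact h1 hx

theorem right_one (h : Rp p q c N Θ κ) {x : G} (hx : x ∈ Hh p q c N) (hk : κ x = 1) :
    Θ x = SemidirectProduct.inl (Θ x).left := by
  have h1 : (Θ x).right = (Θ (κ x)).right := by
    refine hh_ext (f := SemidirectProduct.rightHom.comp Θ) (g := (SemidirectProduct.rightHom.comp Θ).comp κ) ?_ ?_ ?_ hx
    · show (Θ p).right = (Θ (κ p)).right
      rw [h.kp]
    · show (Θ q).right = (Θ (κ q)).right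
      rw [h.kq, (left_q h).2, h.tp, SemidirectProduct.right_inr]
    · intro i hi
      show (Θ (c i)).right = (Θ (κ (c i))).right
      rw [h.kc i hi]
  rw [hk, _root_.map_one, SemidirectProduct.one_right] at h1
  refine SemidirectProduct.ext ?_ ?_
  · rw [SemidirectProduct.left_inl]
  · rw [SemidirectProduct.right_inl, h1]

theorem low (h : Rp p q c N Θ κ) {l : ℕ} (hl : l ≤ N) {x : G} (hx : x ∈ Hl p q c N l) : (Θ x).left ∈ Wl (l + 1) := by
  have key : Pr (l + 1) (Θ x).right ∧ (Θ x).left ∈ Wl (l + 1) := by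
    unfold Hl at hx
    induction hx using Subgroup.closure_induction with
    | mem x hx =>
      rcases hx with (rfl | hx) | ⟨i, hi, rfl⟩
      · rw [h.tp, SemidirectProduct.left_inr, SemidirectProduct.right_inr]
        exact ⟨pr_t _, one_mem _⟩
      · obtain rfl : x = q := hx
        rw [(left_q h).1, (left_q h).2]
        exact ⟨pr_t _, inv_mem (of_mem (by omega))⟩
      · obtain ⟨hi1, hi2⟩ : i < N ∧ i ≠ l := hi
        rw [h.tc i hi1, SemidirectProduct.left_inr, SemidirectProduct.right_inr]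
        exact ⟨pr_v (by omega), one_mem _⟩
    | one =>
      rw [_root_.map_one, SemidirectProduct.one_left, SemidirectProduct.one_right]
      exact ⟨pr_one _, one_mem _⟩
    | mul x y _ _ ihx ihy =>
      rw [_root_.map_mul, SemidirectProduct.mul_left, SemidirectProduct.mul_right]
      exact ⟨ihx.1.mul ihy.1, mul_mem ihx.2 ((ihx.1 _).2 ihy.2)⟩
    | inv x _ ih =>
      rw [_root_.map_inv, SemidirectProduct.inv_left, SemidirectProduct.inv_right]
      exact ⟨ih.1.inv, (ih.1.inv _).2 (inv_mem ih.2)⟩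
  exact key.2

private theorem el_mem {l j : ℕ} (hj : j ≤ l) : el p q c j ∈ Hh p q c l := by
  induction j with
  | zero =>
    rw [el_zero]
    exact mul_mem (Subgroup.subset_closure (Or.inl (Or.inl rfl)))
      (inv_mem (Subgroup.subset_closure (Or.inl (Or.inr rfl))))
  | succ j ih =>
    have h1 : c j ∈ Hh p q c l := Subgroup.subset_closure (Or.inr ⟨j, by show j < l; omega, rfl⟩)
    rw [el_succ]
    exact mul_mem (mul_mem h1 (ih (by omega))) (inv_mem h1)

theorem c1 (hD : DS p q c N) (h : Rp p q c N Θ κ) {x : G} (hx : x ∈ Hh p q c N) (hk : κ x = 1) {l : ℕ} (hl : l ≤ N)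
    (hw : (Θ x).left ∈ Wl (l + 1)) : x ∈ Hh p q c l := by
  obtain ⟨-, h2⟩ := back hD h hx
  rw [hk, mul_one] at h2
  rw [h2]
  refine wl_le (FreeGroup.lift (el p q c)) (fun j hj => ?_) hw
  rw [lift_apply_of]
  exact el_mem (by omega)

private theorem left_fn (h : Rp p q c N Θ κ) {u : W} (hu : u ∈ Wl (N + 1)) :
    Θ (FreeGroup.lift (el p q c) u) = SemidirectProduct.inl u := by
  refine wl_ext (f := Θ.comp (FreeGroup.lift (el p q c))) (g := SemidirectProduct.inl) ?_ hu
  intro j hj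
  show Θ (FreeGroup.lift (el p q c) (of j)) = SemidirectProduct.inl (of j)
  rw [lift_apply_of]
  induction j with
  | zero =>
    rw [el_zero, _root_.map_mul, _root_.map_inv, h.tp, h.tq, _root_.map_inv]
    group
  | succ j ih =>
    rw [el_succ, _root_.map_mul, _root_.map_mul, _root_.map_inv, ih (by omega), h.tc j (by omega), ← _root_.map_inv,
      ← SemidirectProduct.inl_aut]
    congr 1
    exact vV_self j

theorem swap (hD : DS p q c N) (h : Rp p q c N Θ κ) {ι : G →* G} (ip : ι p = q) (iq : ι q = p) (ic : ∀ i < N, ι (c i) = c i) {x : G}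
    (hx : x ∈ Hh p q c N) (hk : κ x = 1) : Θ (ι x) = SemidirectProduct.inl (jj (Θ x).left) := by
  obtain ⟨h1, h2⟩ := back hD h hx
  rw [hk, mul_one] at h2
  have h3 : ι x = FreeGroup.lift (el p q c) (jj (Θ x).left) := by
    conv_lhs => rw [h2]
    refine wl_ext (f := ι.comp (FreeGroup.lift (el p q c))) (g := (FreeGroup.lift (el p q c)).comp jj) ?_ h1
    intro j hj
    show ι (FreeGroup.lift (el p q c) (of j)) = FreeGroup.lift (el p q c) (jj (of j))
    rw [jj_of, _root_.map_inv, lift_apply_of]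
    induction j with
    | zero =>
      rw [el_zero, _root_.map_mul, _root_.map_inv, ip, iq]
      group
    | succ j ih =>
      rw [el_succ, _root_.map_mul, _root_.map_mul, _root_.map_inv, ic j (by omega), ih (by omega)]
      group
  rw [h3, left_fn h (jj_mem h1)]

private theorem hl_le {l : ℕ} : Hl p q c N l ≤ Hh p q c N :=
  Subgroup.closure_mono (Set.union_subset_union_right _ (Set.image_mono fun _ hi => hi.1))

private theorem hh_le {l : ℕ} (hl : l ≤ N) : Hh p q c l ≤ Hl p q c N l :=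
  Subgroup.closure_mono (Set.union_subset_union_right _ (Set.image_mono fun i hi => by
    have h1 : i < l := hi
    exact ⟨by omega, by omega⟩))

private theorem iota_mem {ι : G →* G} (ip : ι p = q) (iq : ι q = p) (ic : ∀ i < N, ι (c i) = c i) {l : ℕ} {x : G}
    (hx : x ∈ Hl p q c N l) : ι x ∈ Hl p q c N l := by
  have h1 : Hl p q c N l ≤ (Hl p q c N l).comap ι := by
    conv_lhs => unfold Hl
    rw [Subgroup.closure_le]
    rintro x ((rfl | hx) | ⟨i, hi, rfl⟩)
    · show ι x ∈ Hl x q c N l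
      rw [ip]
      exact Subgroup.subset_closure (Or.inl (Or.inr rfl))
    · obtain rfl : x = q := hx
      show ι x ∈ Hl p x c N l
      rw [iq]
      exact Subgroup.subset_closure (Or.inl (Or.inl rfl))
    · show ι (c i) ∈ Hl p q c N l
      rw [ic i hi.1]
      exact Subgroup.subset_closure (Or.inr ⟨i, hi, rfl⟩)
  exact h1 hx

/-- descent -/
theorem dsw (hD : DS p q c N) (h : Rp p q c N Θ κ) {ι : G →* G} (ip : ι p = q) (iq : ι q = p) (ic : ∀ i < N, ι (c i) = c i) {y : G}
    (hy : y ∈ Hh p q c N) (hi : ι y = y) {l : ℕ} (hl : l < N) (hk : κ y ∈ Hl p q c N l) : y ∈ Hl p q c N l := by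
  have hkk : κ (κ y) = κ y := by
    refine hh_ext (f := κ.comp κ) (g := κ) ?_ ?_ ?_ hy
    · show κ (κ p) = κ p
      rw [h.kp, h.kp]
    · show κ (κ q) = κ q
      rw [h.kq, h.kp]
    · intro i hi
      show κ (κ (c i)) = κ (c i)
      rw [h.kc i hi, h.kc i hi]
  obtain ⟨f, hf⟩ : ∃ f, f = y * (κ y)⁻¹ := ⟨_, rfl⟩
  have hfH : f ∈ Hh p q c N := by
    rw [hf]
    exact mul_mem hy (inv_mem (hl_le hk))
  have hkf : κ f = 1 := by
    rw [hf, _root_.map_mul, _root_.map_inv, hkk, mul_inv_cancel]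
  have h1 := right_one h hfH hkf
  have h2 := swap hD h ip iq ic hfH hkf
  have h3 : (ι f)⁻¹ * f = ι (κ y) * (κ y)⁻¹ := by
    rw [hf, _root_.map_mul, _root_.map_inv, hi]
    group
  have h4 : (ι f)⁻¹ * f ∈ Hl p q c N l := by
    rw [h3]
    exact mul_mem (iota_mem ip iq ic hk) (inv_mem hk)
  have h5 : Θ ((ι f)⁻¹ * f) = SemidirectProduct.inl ((jj (Θ f).left)⁻¹ * (Θ f).left) := by
    rw [_root_.map_mul, _root_.map_inv, h2, _root_.map_mul, _root_.map_inv, ← h1]
  have h6 := low h hl.le h4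
  rw [h5, SemidirectProduct.left_inl] at h6
  have h7 := c1 hD h hfH hkf hl.le (pal h6)
  have h8 : y = f * κ y := by
    rw [hf]
    group
  rw [h8]
  exact mul_mem (hh_le hl.le h7) hk

/-- descent, the end -/
theorem dsw' (hD : DS p q c N) (h : Rp p q c N Θ κ) {ι : G →* G} (ip : ι p = q) (iq : ι q = p) (ic : ∀ i < N, ι (c i) = c i) {y : G}
    (hy : y ∈ Hh p q c N) (hi : ι y = y) (hk : κ y = 1) : y = 1 := by
  have h1 := right_one h hy hk
  have h2 := swap hD h ip iq ic hy hk
  rw [hi, h1, SemidirectProduct.left_inl] at h2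
  have h3 := SemidirectProduct.inl_injective h2
  have h4 : (Θ y).left ∈ Wl 0 := by
    refine pal ?_
    rw [← h3, inv_mul_cancel]
    exact one_mem _
  obtain ⟨-, h5⟩ := back hD h hy
  rw [wl_zero h4, _root_.map_one, hk, one_mul] at h5
  exact h5

end Pool.Agent.H75.BT
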