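import Pool.Agent.H54.CT.Ds
import Pool.Agent.H54.CT.Fm
import Pool.Agent.H75.BT.Cj

/-!
# [H75 BT DI] The diagrams `B~_n` and `D~_(n+1)` (90 min)

`Bd M n v`: nodes `v 0, …, v n` (`n ≥ 3`), edges `0 - 2`, `1 - 2`, `2 - 3`, …, `(n-1) - n`, label `3`, only `(n-1, n)` has label `4`. `Dm n`: nodes `0, …, n + 1`, the same edges with label `3`, and `(n - 1) - (n + 1)`. `wD n i` is the node `i`.
`Bd.sw`: `v 0` and `v 1` exchanged. `dm_lab`: `Ed n j i` is false for `i < j` (`omega`). `hom_of`: as `Star.hom` (`H88/DT/Act.lean`): choose for every `b` an index `e b ≤ n` with `v (e b) = b` (`surj`), `lift (fun b => f (e b))`; for `i = j` both sides are the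
same, for `j < i` use `M.symmetric` and the symmetric statement. `ivB`: `pi s = v (min s.1 n)`, `sg` exchanges `n` and `n + 1`: write all labels with `dm_val` and `h.val` (symmetric forms) and `split_ifs`/`omega` (as `H54/CT/Ip.lean`): both `s`, `t` fixed (`≤ n - 1`):
equal labels; `s ≤ n - 1` fixed, `t ∈ {n, n + 1}` not fixed: label `4` below and `3` above if `s = n - 1`, otherwise `2` and `2`; both not fixed: `pi s = pi t`. `own`: label of `(n, n + 1)` is `2`.
`ds_b`: `p = gen (v 1)`, `q = gen (v 0)`, `c i = gen (v (i + 2))`, `N = n - 2`; `ds_d`: `p = gen (wD n n)`, `q = gen (wD n (n + 1))`, `c i = gen (wD n (n - 1 - i))`, `N = n - 1`. The relations from `gen_rel` (`alt2`, `alt3` in `H88/DT/Act.lean`).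
-/

set_option autoImplicit false

namespace Pool.Agent.H75.BT

open Pool.H8.CDW Pool.Agent.H52.PAG Pool.Agent.H75.INF Pool.Agent.H54.TF Pool.Agent.H54.CT Pool.Agent.H2.UF

/-- the diagram `B~_n` -/
structure Bd {B : Type} (M : CoxeterMatrix B) (n : ℕ) (v : ℕ → B) : Prop where
  three : 3 ≤ n
  inj : ∀ i ≤ n, ∀ j ≤ n, v i = v j → i = j
  surj : ∀ b, ∃ i ≤ n, v i = b
  lab : ∀ i j, i < j → j ≤ n → M (v i) (v j) = if (j = i + 1 ∧ 1 ≤ i) ∨ (i = 0 ∧ j = 2) then (if j = n then 4 else 3) else 2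

/-- the edges of the diagram `D~_(n+1)` -/
def Ed (n i j : ℕ) : Prop := (i + 1 = j ∧ 1 ≤ i ∧ j ≤ n) ∨ (i = 0 ∧ j = 2) ∨ (i + 1 = n ∧ j = n + 1)

instance (n i j : ℕ) : Decidable (Ed n i j) := by
  unfold Ed
  infer_instance

/-- the diagram `D~_(n+1)` -/
def Dm (n : ℕ) : CoxeterMatrix (Fin (n + 2)) where
  M := Matrix.of fun s t => if s = t then 1 else if Ed n s.1 t.1 ∨ Ed n t.1 s.1 then 3 else 2
  isSymm := by
    unfold Matrix.IsSymm
    ext z w
    simp only [Matrix.transpose_apply, Matrix.of_apply, eq_comm (a := w) (b := z), or_comm (a := Ed n w.1 z.1)]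
  diagonal := fun z => by simp only [Matrix.of_apply, if_pos]
  off_diagonal := fun z w h => by
    simp only [Matrix.of_apply, if_neg h]
    split_ifs <;> decide

theorem dm_val {n : ℕ} {s t : Fin (n + 2)} (h : s ≠ t) : Dm n s t = if Ed n s.1 t.1 ∨ Ed n t.1 s.1 then 3 else 2 := if_neg h

/-- the nodes of the diagram `D~_(n+1)` -/
def wD (n i : ℕ) : Fin (n + 2) := ⟨min i (n + 1), by omega⟩

theorem wD_val {n i : ℕ} (h : i ≤ n + 1) : (wD n i).1 = i := by
  show min i (n + 1) = i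
  omega

theorem wD_eq {n : ℕ} (s : Fin (n + 2)) : wD n s.1 = s := Fin.ext (wD_val (by have := s.2; omega))

theorem wD_ne {n i j : ℕ} (hi : i ≤ n + 1) (hj : j ≤ n + 1) (h : i ≠ j) : wD n i ≠ wD n j := by
  intro e
  have h1 := congrArg Fin.val e
  rw [wD_val hi, wD_val hj] at h1
  exact h h1

theorem dm_ne (n : ℕ) (s t : Fin (n + 2)) : Dm n s t ≠ 0 := by
  by_cases h : s = t
  · rw [h, (Dm n).diagonal]
    exact one_ne_zero
  · rw [dm_val h]
    split_ifs <;> norm_num

theorem dm_lab {n i j : ℕ} (h : i < j) (hj : j ≤ n + 1) : Dm n (wD n i) (wD n j) = if Ed n i j then 3 else 2 := by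
  have h2 : ¬ Ed n j i := by
    unfold Ed
    omega
  rw [dm_val (wD_ne (by omega) hj (by omega)), wD_val (by omega), wD_val hj]
  simp only [h2, or_false]

variable {B : Type} {M : CoxeterMatrix B} {n : ℕ} {v : ℕ → B}

theorem Bd.ne (h : Bd M n v) {i j : ℕ} (hi : i ≤ n) (hj : j ≤ n) (hij : i ≠ j) : v i ≠ v j := fun e => hij (h.inj i hi j hj e)

/-- the labels, symmetric form -/
private theorem mvB (h : Bd M n v) (i j : ℕ) (hi : i ≤ n) (hj : j ≤ n) (hij : i ≠ j) :
    M (v i) (v j) = if (j = i + 1 ∧ 1 ≤ i) ∨ (i = 0 ∧ j = 2) ∨ (i = j + 1 ∧ 1 ≤ j) ∨ (j = 0 ∧ i = 2) then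
      (if i = n ∨ j = n then 4 else 3) else 2 := by
  have h3 := h.three
  rcases Nat.lt_or_gt_of_ne hij with h1 | h1
  · rw [h.lab i j h1 hj]
    have e1 : ((j = i + 1 ∧ 1 ≤ i) ∨ (i = 0 ∧ j = 2)) ↔
        ((j = i + 1 ∧ 1 ≤ i) ∨ (i = 0 ∧ j = 2) ∨ (i = j + 1 ∧ 1 ≤ j) ∨ (j = 0 ∧ i = 2)) := by omega
    have e2 : j = n ↔ (i = n ∨ j = n) := by omega
    rw [if_congr e1 (if_congr e2 rfl rfl) rfl]
  · rw [M.symmetric, h.lab j i h1 hi]
    have e1 : ((i = j + 1 ∧ 1 ≤ j) ∨ (j = 0 ∧ i = 2)) ↔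
        ((j = i + 1 ∧ 1 ≤ i) ∨ (i = 0 ∧ j = 2) ∨ (i = j + 1 ∧ 1 ≤ j) ∨ (j = 0 ∧ i = 2)) := by omega
    have e2 : i = n ↔ (i = n ∨ j = n) := by omega
    rw [if_congr e1 (if_congr e2 rfl rfl) rfl]

/-- exchange of the two leaves -/
theorem Bd.sw (h : Bd M n v) : Bd M n fun i => if i = 0 then v 1 else if i = 1 then v 0 else v i := by
  have h3 := h.three
  obtain ⟨σ, hσ⟩ : ∃ σ : ℕ → ℕ, σ = fun i => if i = 0 then 1 else if i = 1 then 0 else i := ⟨_, rfl⟩
  have hv : (fun i => if i = 0 then v 1 else if i = 1 then v 0 else v i) = fun i => v (σ i) := by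
    funext i
    rw [hσ]
    simp only
    split_ifs <;> rfl
  have h0 : σ 0 = 1 := by rw [hσ]; rfl
  have h1 : σ 1 = 0 := by rw [hσ]; rfl
  have h2 : ∀ i, 2 ≤ i → σ i = i := by
    intro i hi
    rw [hσ]
    simp only
    rw [if_neg (by omega), if_neg (by omega)]
  have hle : ∀ i ≤ n, σ i ≤ n := by
    intro i hi
    rcases Nat.lt_or_ge i 2 with h4 | h4
    · interval_cases i
      · rw [h0]; omega
      · rw [h1]; omega
    · rw [h2 i h4]
      exact hi
  have hσσ : ∀ i, σ (σ i) = i := by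
    intro i
    rcases Nat.lt_or_ge i 2 with h4 | h4
    · interval_cases i
      · rw [h0, h1]
      · rw [h1, h0]
    · rw [h2 i h4, h2 i h4]
  rw [hv]
  refine ⟨h3, ?_, ?_, ?_⟩
  · intro i hi j hj e
    have h4 := h.inj _ (hle i hi) _ (hle j hj) e
    rw [← hσσ i, h4, hσσ]
  · intro b
    obtain ⟨i, hi, rfl⟩ := h.surj b
    refine ⟨σ i, hle i hi, ?_⟩
    show v (σ (σ i)) = v i
    rw [hσσ]
  · intro i j hij hj
    show M (v (σ i)) (v (σ j)) = _
    rcases Nat.lt_or_ge i 2 with h4 | h4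
    · rcases Nat.lt_or_ge j 2 with h5 | h5
      · have hi0 : i = 0 := by omega
        have hj1 : j = 1 := by omega
        subst hi0
        subst hj1
        rw [h0, h1, mvB h 1 0 (by omega) (by omega) (by omega), if_neg (by omega), if_neg (by omega)]
      · rw [h2 j h5]
        interval_cases i
        · rw [h0, h.lab 1 j (by omega) hj]
          have e1 : ((j = 1 + 1 ∧ 1 ≤ 1) ∨ (1 = 0 ∧ j = 2)) ↔ ((j = 0 + 1 ∧ 1 ≤ 0) ∨ (0 = 0 ∧ j = 2)) := by omega
          rw [if_congr e1 rfl rfl]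
        · rw [h1, h.lab 0 j (by omega) hj]
          have e1 : ((j = 0 + 1 ∧ 1 ≤ 0) ∨ (0 = 0 ∧ j = 2)) ↔ ((j = 1 + 1 ∧ 1 ≤ 1) ∨ (1 = 0 ∧ j = 2)) := by omega
          rw [if_congr e1 rfl rfl]
    · rw [h2 i h4, h2 j (by omega)]
      exact h.lab i j hij hj

theorem Bd.ne_zero (h : Bd M n v) (i j : B) : M i j ≠ 0 ∧ M i j ≤ 4 := by
  obtain ⟨i, hi, rfl⟩ := h.surj i
  obtain ⟨j, hj, rfl⟩ := h.surj j
  by_cases hij : i = j
  · rw [hij, M.diagonal]
    omega
  · rw [mvB h i j hi hj hij]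
    split_ifs <;> omega

/-- homomorphisms -/
theorem hom_of (inj : ∀ i ≤ n, ∀ j ≤ n, v i = v j → i = j) (surj : ∀ b, ∃ i ≤ n, v i = b) {G : Type*} [Group G] (f : ℕ → G)
    (hf : ∀ i j, i < j → j ≤ n → alt (f i) (f j) (M (v i) (v j)) = alt (f j) (f i) (M (v i) (v j))) :
    ∃ φ : Art M →* G, ∀ i ≤ n, φ (gen M (v i)) = f i := by
  choose e he1 he2 using surj
  have hev : ∀ i ≤ n, e (v i) = i := fun i hi => inj _ (he1 _) _ hi (he2 (v i))
  refine ⟨lift (fun b => f (e b)) ?_, fun i hi => ?_⟩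
  · intro c c' _
    show alt (f (e c)) (f (e c')) _ = alt (f (e c')) (f (e c)) _
    rcases Nat.lt_trichotomy (e c) (e c') with h1 | h1 | h1
    · have h2 := hf (e c) (e c') h1 (he1 c')
      rwa [he2, he2] at h2
    · rw [h1]
    · have h2 := hf (e c') (e c) h1 (he1 c)
      rw [he2, he2] at h2
      rw [M.symmetric c c']
      exact h2.symm
  · rw [lift_gen, hev i hi]

theorem ivB (h : Bd M n v) : ∃ I : Iv M (Dm n), (∀ s, I.pi s = v (min s.1 n)) ∧
    ∀ s, (I.sg s).1 = if s.1 = n then n + 1 else if s.1 = n + 1 then n else s.1 := by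
  have h3 := h.three
  obtain ⟨sg, hsg⟩ : ∃ sg : Fin (n + 2) → Fin (n + 2),
      ∀ s, (sg s).1 = if s.1 = n then n + 1 else if s.1 = n + 1 then n else s.1 :=
    ⟨fun s => ⟨if s.1 = n then n + 1 else if s.1 = n + 1 then n else s.1, by
      have := s.2
      split_ifs <;> omega⟩, fun s => rfl⟩
  have hs1 : ∀ s : Fin (n + 2), s.1 = n → (sg s).1 = n + 1 := fun s hs => by rw [hsg, if_pos hs]
  have hs2 : ∀ s : Fin (n + 2), s.1 = n + 1 → (sg s).1 = n := fun s hs => by
    rw [hsg, if_neg (by omega), if_pos hs]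
  have hs3 : ∀ s : Fin (n + 2), s.1 < n → (sg s).1 = s.1 := fun s hs => by
    rw [hsg, if_neg (by omega), if_neg (by omega)]
  have hfix : ∀ s : Fin (n + 2), sg s = s ↔ s.1 < n := by
    intro s
    have h4 := s.2
    rw [Fin.ext_iff]
    constructor
    · intro h5
      by_contra h6
      rcases (by omega : s.1 = n ∨ s.1 = n + 1) with h7 | h7
      · rw [hs1 s h7] at h5
        omega
      · rw [hs2 s h7] at h5
        omega
    · exact hs3 s
  have hfib : ∀ s t : Fin (n + 2), v (min s.1 n) = v (min t.1 n) ↔ t = s ∨ t = sg s := by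
    intro s t
    have h4 := s.2
    have h5 := t.2
    have h6 : v (min s.1 n) = v (min t.1 n) ↔ min s.1 n = min t.1 n :=
      ⟨fun e => h.inj _ (by omega) _ (by omega) e, fun e => by rw [e]⟩
    rw [h6, Fin.ext_iff, Fin.ext_iff]
    rcases (by omega : s.1 < n ∨ s.1 = n ∨ s.1 = n + 1) with h7 | h7 | h7
    · rw [hs3 s h7]
      omega
    · rw [hs1 s h7]
      omega
    · rw [hs2 s h7]
      omega
  have hDp : ∀ s t : Fin (n + 2), s ≠ t → (Ed n s.1 t.1 ∨ Ed n t.1 s.1) → Dm n s t = 3 := fun s t hst he => by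
    rw [dm_val hst, if_pos he]
  have hDn : ∀ s t : Fin (n + 2), s ≠ t → ¬ (Ed n s.1 t.1 ∨ Ed n t.1 s.1) → Dm n s t = 2 := fun s t hst he => by
    rw [dm_val hst, if_neg he]
  have hinv : ∀ s, sg (sg s) = s := by
    intro s
    have h4 := s.2
    apply Fin.ext
    rcases (by omega : s.1 < n ∨ s.1 = n ∨ s.1 = n + 1) with h7 | h7 | h7
    · rw [hs3 _ (by rw [hs3 s h7]; exact h7), hs3 s h7]
    · rw [hs2 _ (hs1 s h7), h7]
    · rw [hs1 _ (hs2 s h7), h7]
  have hEd : ∀ s t : Fin (n + 2), s ≠ t →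
      ((Ed n (sg s).1 (sg t).1 ∨ Ed n (sg t).1 (sg s).1) ↔ (Ed n s.1 t.1 ∨ Ed n t.1 s.1)) := by
    intro s t hst
    have h4 := s.2
    have h5 := t.2
    have h6 : s.1 ≠ t.1 := fun e => hst (Fin.ext e)
    unfold Ed
    rcases (by omega : s.1 < n ∨ s.1 = n ∨ s.1 = n + 1) with h7 | h7 | h7 <;>
      rcases (by omega : t.1 < n ∨ t.1 = n ∨ t.1 = n + 1) with h8 | h8 | h8
    · rw [hs3 s h7, hs3 t h8]
    · rw [hs3 s h7, hs1 t h8]
      omega
    · rw [hs3 s h7, hs2 t h8]
      omega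
    · rw [hs1 s h7, hs3 t h8]
      omega
    · omega
    · rw [hs1 s h7, hs2 t h8]
      omega
    · rw [hs2 s h7, hs3 t h8]
      omega
    · rw [hs2 s h7, hs1 t h8]
      omega
    · omega
  refine ⟨⟨fun s => v (min s.1 n), sg, ?_, hinv, hfib, ?_, ?_, ?_⟩, fun s => rfl, hsg⟩
  · intro b
    obtain ⟨i, hi, rfl⟩ := h.surj b
    refine ⟨⟨i, by omega⟩, ?_⟩
    show v (min i n) = v i
    rw [min_eq_left hi]
  · intro s t
    by_cases hst : s = t
    · rw [hst, (Dm n).diagonal, (Dm n).diagonal]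
    · have hst' : sg s ≠ sg t := fun e => hst (by rw [← hinv s, e, hinv])
      by_cases he : Ed n s.1 t.1 ∨ Ed n t.1 s.1
      · rw [hDp s t hst he, hDp _ _ hst' ((hEd s t hst).2 he)]
      · rw [hDn s t hst he, hDn _ _ hst' fun e => he ((hEd s t hst).1 e)]
  · intro s hs
    refine hDn _ _ (fun e => hs e.symm) ?_
    have h4 := s.2
    rw [Ne, hfix] at hs
    unfold Ed
    rcases (by omega : s.1 = n ∨ s.1 = n + 1) with h7 | h7
    · rw [hs1 s h7]
      omega
    · rw [hs2 s h7]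
      omega
  · intro s t hst
    have h4 := s.2
    have h5 := t.2
    have hmin : min s.1 n ≠ min t.1 n := fun e => hst (congrArg v e)
    have hne : s ≠ t := fun e => hmin (by rw [e])
    have hM := mvB h (min s.1 n) (min t.1 n) (by omega) (by omega) hmin
    by_cases he : Ed n s.1 t.1 ∨ Ed n t.1 s.1
    · have hD := hDp s t hne he
      unfold Ed at he
      rw [if_pos (by omega)] at hM
      rcases (by omega : s.1 < n ∨ n ≤ s.1) with h6 | h6 <;> rcases (by omega : t.1 < n ∨ n ≤ t.1) with h7 | h7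
      · rw [if_neg (by omega)] at hM
        exact Or.inr (Or.inr (Or.inl ⟨(hfix s).2 h6, (hfix t).2 h7, hM.trans hD.symm⟩))
      · rw [if_pos (by omega)] at hM
        refine Or.inr (Or.inr (Or.inr ⟨hM, hD, Or.inl ⟨(hfix s).2 h6, ?_⟩⟩))
        rw [Ne, hfix]
        omega
      · rw [if_pos (by omega)] at hM
        refine Or.inr (Or.inr (Or.inr ⟨hM, hD, Or.inr ⟨?_, (hfix t).2 h7⟩⟩))
        rw [Ne, hfix]
        omega
      · exfalso
        omega
    · have hD := hDn s t hne he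
      unfold Ed at he
      rw [if_neg (by omega)] at hM
      exact Or.inl ⟨hM, hD⟩

private theorem rel2 {B : Type} {M : CoxeterMatrix B} {i j : B} (h : M i j = 2) :
    gen M i * gen M j = gen M j * gen M i := by
  have h1 := gen_rel (M := M) (i := i) (j := j) (by rw [h]; omega)
  rw [h] at h1
  simpa [alt] using h1

private theorem rel3 {B : Type} {M : CoxeterMatrix B} {i j : B} (h : M i j = 3) :
    gen M i * gen M j * gen M i = gen M j * gen M i * gen M j := by
  have h1 := gen_rel (M := M) (i := i) (j := j) (by rw [h]; omega)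
  rw [h] at h1
  simpa [alt, mul_assoc] using h1

theorem ds_b (h : Bd M n v) : DS (gen M (v 1)) (gen M (v 0)) (fun i => gen M (v (i + 2))) (n - 2) := by
  have h3 := h.three
  refine ⟨?_, ?_, ?_, ?_, ?_, ?_, ?_⟩
  · refine (rel2 ?_).symm
    rw [h.lab 0 1 (by omega) (by omega), if_neg (by omega)]
  · intro _
    refine rel3 ?_
    rw [h.lab 1 (0 + 2) (by omega) (by omega), if_pos (by omega), if_neg (by omega)]
  · intro _
    refine rel3 ?_
    rw [h.lab 0 (0 + 2) (by omega) (by omega), if_pos (by omega), if_neg (by omega)]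
  · intro i hi
    refine rel2 ?_
    rw [h.lab 1 (i + 1 + 2) (by omega) (by omega), if_neg (by omega)]
  · intro i hi
    refine rel2 ?_
    rw [h.lab 0 (i + 1 + 2) (by omega) (by omega), if_neg (by omega)]
  · intro i hi
    refine rel3 ?_
    rw [h.lab (i + 2) (i + 1 + 2) (by omega) (by omega), if_pos (by omega), if_neg (by omega)]
  · intro i j hij hj
    refine rel2 ?_
    rw [h.lab (i + 2) (j + 2) (by omega) (by omega), if_neg (by omega)]

theorem ds_d (hn : 3 ≤ n) : DS (gen (Dm n) (wD n n)) (gen (Dm n) (wD n (n + 1))) (fun i => gen (Dm n) (wD n (n - 1 - i))) (n - 1) := by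
  have hp : ∀ i j, i < j → j ≤ n + 1 → Ed n i j → Dm n (wD n i) (wD n j) = 3 := fun i j h1 h2 h3 => by
    rw [dm_lab h1 h2, if_pos h3]
  have hq : ∀ i j, i < j → j ≤ n + 1 → ¬ Ed n i j → Dm n (wD n i) (wD n j) = 2 := fun i j h1 h2 h3 => by
    rw [dm_lab h1 h2, if_neg h3]
  refine ⟨?_, ?_, ?_, ?_, ?_, ?_, ?_⟩
  · refine rel2 (hq _ _ (by omega) (by omega) ?_)
    unfold Ed
    omega
  · intro _
    refine (rel3 (hp _ _ (by omega) (by omega) ?_)).symm
    unfold Ed
    omega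
  · intro _
    refine (rel3 (hp _ _ (by omega) (by omega) ?_)).symm
    unfold Ed
    omega
  · intro i hi
    refine (rel2 (hq _ _ (by omega) (by omega) ?_)).symm
    unfold Ed
    omega
  · intro i hi
    refine (rel2 (hq _ _ (by omega) (by omega) ?_)).symm
    unfold Ed
    omega
  · intro i hi
    refine (rel3 (hp _ _ (by omega) (by omega) ?_)).symm
    unfold Ed
    omega
  · intro i j hij hj
    refine (rel2 (hq _ _ (by omega) (by omega) ?_)).symm
    unfold Ed
    omega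

end Pool.Agent.H75.BT
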