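import Pool.Agent.H75.BT.Di

/-!
# [H75 BT FD] The Coxeter groups of type `D` are finite (90 min)

`fin_d`: nodes `p 0, …, p (k - 1)`, edges `0 - 2`, `1 - 2`, `2 - 3`, …. Same method as `fin_path` (`H54/CT/FinA.lean`; the abstract lemma `fin_abs` there): `s i = simple (p i)`, `G k = closure (s '' {i | i < k})`, `G (k + 1)` is the union of the finitely many
cosets `x G k` with `x` in: `1`; `D j = s j s (j+1) .. s k` (`2 ≤ j ≤ k`); `s 1 D 2`, `s 0 D 2`, `s 0 s 1 D 2`; `U j = s j .. s 3 s 2 s 0 s 1 D 2` (`2 ≤ j ≤ k`) for `k ≥ 2` (`k = 0, 1`: `x ∈ {1, s k}`). Closed under left multiplication by `s i`, `i ≤ k`: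
`s i` with `i + 1 < j` commutes with `D j`; `s (j - 1) D j = D (j - 1)` (`j ≥ 3`); `s j D j = D (j + 1)`; `s i D j = D j s (i - 1)` for `i > j ≥ 2` (braid relation, `i - 1 ≥ 2`); `s 0`, `s 1` on `D 2`, `s 1 D 2`, `s 0 D 2`, `s 0 s 1 D 2`: clear;
`s 2 (s 1 D 2) = s 2 s 1 s 2 D 3 = s 1 s 2 s 1 D 3 = (s 1 D 2) s 1` (`s 1` commutes with `D 3`); the same with `s 0`; `s 2 s 0 s 1 D 2 = U 2`; `s i (s 1 D 2) = s 1 D 2 s (i - 1)` for `i ≥ 3`; `U j`: `s (j + 1) U j = U (j + 1)`; `s j U j = U (j - 1)` (`U 1 = s 0 s 1 D 2`);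
`s i U j` for `i > j + 1`: `s i` commutes with `s j .. s 2 s 0 s 1` and `s i D 2 = D 2 s (i - 1)`; `i < j`, `i ≥ 3`: `s i (s j .. s 2) = (s j .. s 2) s (i + 1)`, commutes with `s 0 s 1`, `s (i + 1) D 2 = D 2 s i`; `i = 2 < j`: `s 2 (s j .. s 3 s 2) = (s j .. s 2) s 3`, the same;
`s 1 U j` (`j ≥ 2`): `s 1 s 2 s 1 s 0 s 2 D 3 = s 2 s 1 s 2 s 0 s 2 D 3 = s 2 s 1 s 0 s 2 s 0 D 3 = (s 2 s 0 s 1 D 2) s 0`: so `s 1 U j = U j s 0` (`s 1` commutes with `s 3, …, s j`), `s 0 U j = U j s 1`. The helper `fin_coset` in `H88/DT/Fin.lean` (private, copy it) does the rest.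
Another way, if you prefer: `G (k + 1)` by `Subgroup.closure_induction_left` and `X k` = the set of all `x g`.
`fd_up`: nodes `{s | i < s.1}`, `p k = n + 1 - k` (`k < n + 1 - i`); `fd_lo`: nodes `{s | s.1 ≤ i}`, `i ≤ n`, `p k = k`; `bfin`: `iv_finite` (`H54/CT/Fm`), `ivB`: the preimage of `{v 0}ᶜ` is `{s | 0 < s.1}`.
-/

set_option autoImplicit false

namespace Pool.Agent.H75.BT

open Pool.H8.CDW Pool.Agent.H52.PAG Pool.Agent.H75.INF Pool.Agent.H54.TF Pool.Agent.H54.CT Pool.Agent.H2.UF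

private theorem fin_coset {G : Type*} [Group G] (H : Subgroup G) (hH : (H : Set G).Finite) (S : Set G) (hinv : ∀ s ∈ S, s * s = 1)
    (X : Set G) (hX : X.Finite) (h1 : 1 ∈ X) (hstep : ∀ s ∈ S, ∀ x ∈ X, ∃ y ∈ X, ∃ h ∈ H, s * x = y * h) :
    (Subgroup.closure S : Set G).Finite := by
  have hfin : (Set.image2 (fun x h : G => x * h) X (H : Set G)).Finite := hX.image2 _ hH
  have hs : ∀ s ∈ S, ∀ z ∈ Set.image2 (fun x h : G => x * h) X (H : Set G),
      s * z ∈ Set.image2 (fun x h : G => x * h) X (H : Set G) := by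
    rintro s hs _ ⟨x, hx, h, hh, rfl⟩
    obtain ⟨y, hy, h', hh', e⟩ := hstep s hs x hx
    refine ⟨y, hy, h' * h, H.mul_mem hh' hh, ?_⟩
    show y * (h' * h) = s * (x * h)
    rw [← mul_assoc, ← mul_assoc, e]
  refine hfin.subset ?_
  intro z hz
  have hz' : z ∈ Subgroup.closure S := hz
  clear hz
  induction hz' using Subgroup.closure_induction_left with
  | one => exact ⟨1, h1, 1, H.one_mem, mul_one 1⟩
  | mul_left s hs' y hy ih => exact hs s hs' y ih
  | inv_mul_cancel s hs' y hy ih =>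
    rw [inv_eq_of_mul_eq_one_right (hinv s hs')]
    exact hs s hs' y ih

/-- `s (k + 1 - n) * .. * s k` -/
private def uu {G : Type} [Group G] (s : ℕ → G) (k : ℕ) : ℕ → G
  | 0 => 1
  | n + 1 => s (k - n) * uu s k n

private theorem uu_zero {G : Type} [Group G] (s : ℕ → G) (k : ℕ) : uu s k 0 = 1 := rfl

private theorem uu_succ {G : Type} [Group G] (s : ℕ → G) (k n : ℕ) :
    uu s k (n + 1) = s (k - n) * uu s k n := rfl

private theorem uu_comm {G : Type} [Group G] (s : ℕ → G) (k : ℕ) (x : G) :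
    ∀ n, (∀ j, k < j + n → j ≤ k → x * s j = s j * x) → x * uu s k n = uu s k n * x := by
  intro n
  induction n with
  | zero =>
    intro _
    rw [uu_zero, mul_one, one_mul]
  | succ n ih =>
    intro h
    rcases Nat.lt_or_ge k n with h1 | h1
    · -- `k - n = 0`
      have e : k - n = 0 := by omega
      rw [uu_succ, e, ← mul_assoc, h 0 (by omega) (by omega), mul_assoc, ih (fun j hj hj' => h j (by omega) hj'), mul_assoc]
    · rw [uu_succ, ← mul_assoc, h (k - n) (by omega) (by omega), mul_assoc, ih (fun j hj hj' => h j (by omega) hj'), mul_assoc]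

private theorem uu_b {G : Type} [Group G] (s : ℕ → G) (k : ℕ)
    (hb : ∀ i, i + 1 ≤ k → s i * s (i + 1) * s i = s (i + 1) * s i * s (i + 1))
    (hc : ∀ i j, i + 1 < j → j ≤ k → s i * s j = s j * s i) (j : ℕ) (hj : j ≤ k) :
    ∀ n, n ≤ k + 1 → k + 1 < j + n → s j * uu s k n = uu s k n * s (j - 1) := by
  intro n
  induction n with
  | zero =>
    intro _ h
    omega
  | succ n ih =>
    intro hn h
    rcases Nat.lt_or_ge (k + 1) (j + n) with h1 | h1
    · rw [uu_succ, ← mul_assoc, ← hc (k - n) j (by omega) hj, mul_assoc, ih (by omega) h1, mul_assoc]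
    · obtain ⟨n', rfl⟩ : ∃ n', n = n' + 1 := ⟨n - 1, by omega⟩
      have e1 : k - (n' + 1) = j - 1 := by omega
      have e2 : k - n' = j := by omega
      have h3 := hb (j - 1) (by omega)
      have e3 : j - 1 + 1 = j := by omega
      rw [e3] at h3
      have h4 := uu_comm s k (s (j - 1)) n' (fun l hl hl' => hc (j - 1) l (by omega) hl')
      rw [uu_succ, uu_succ, e1, e2]
      calc s j * (s (j - 1) * (s j * uu s k n')) = (s j * s (j - 1) * s j) * uu s k n' := by
            simp only [mul_assoc]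
        _ = (s (j - 1) * s j * s (j - 1)) * uu s k n' := by rw [h3]
        _ = s (j - 1) * s j * (s (j - 1) * uu s k n') := by simp only [mul_assoc]
        _ = s (j - 1) * s j * (uu s k n' * s (j - 1)) := by rw [h4]
        _ = s (j - 1) * (s j * uu s k n') * s (j - 1) := by simp only [mul_assoc]

/-- the second half of the representatives -/
private def vv {G : Type} [Group G] (s : ℕ → G) (F : G) : ℕ → G
  | 0 => F
  | n + 1 => s (n + 2) * vv s F n

private theorem vv_succ {G : Type} [Group G] (s : ℕ → G) (F : G) (n : ℕ) : vv s F (n + 1) = s (n + 2) * vv s F n := rfl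

/-- one step -/
private theorem fd_step {G : Type} [Group G] (s : ℕ → G) (k : ℕ) (hk : 2 ≤ k) (hq : ∀ i, s i * s i = 1)
    (hb : ∀ i, 1 ≤ i → i + 1 ≤ k → s i * s (i + 1) * s i = s (i + 1) * s i * s (i + 1))
    (hb0 : s 0 * s 2 * s 0 = s 2 * s 0 * s 2)
    (hc : ∀ i j, 1 ≤ i → i + 1 < j → j ≤ k → s i * s j = s j * s i)
    (hc0 : ∀ j, j ≠ 0 → j ≠ 2 → j ≤ k → s 0 * s j = s j * s 0)
    (hfin : (Subgroup.closure (s '' {i | i < k}) : Set G).Finite) :
    (Subgroup.closure (s '' {i | i < k + 1}) : Set G).Finite := by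
  obtain ⟨H, hH⟩ : ∃ H : Subgroup G, H = Subgroup.closure (s '' {i | i < k}) := ⟨_, rfl⟩
  rw [← hH] at hfin
  have hsH : ∀ j < k, s j ∈ H := by
    intro j hj
    rw [hH]
    exact Subgroup.subset_closure ⟨j, hj, rfl⟩
  -- the path `1, 2, .., k`
  obtain ⟨t, ht⟩ : ∃ t : ℕ → G, ∀ i, t i = s (i + 1) := ⟨fun i => s (i + 1), fun _ => rfl⟩
  have hbt : ∀ i, i + 1 ≤ k - 1 → t i * t (i + 1) * t i = t (i + 1) * t i * t (i + 1) := fun i hi => by
    rw [ht, ht]
    exact hb (i + 1) (by omega) (by omega)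
  have hct : ∀ i j, i + 1 < j → j ≤ k - 1 → t i * t j = t j * t i := fun i j hij hj => by
    rw [ht, ht]
    exact hc (i + 1) (j + 1) (by omega) (by omega) (by omega)
  -- `D n = s (k + 1 - n) .. s k`
  obtain ⟨D, hD⟩ : ∃ D : ℕ → G, D = uu t (k - 1) := ⟨_, rfl⟩
  have D0 : D 0 = 1 := by rw [hD]; rfl
  have DS : ∀ n, n < k → D (n + 1) = s (k - n) * D n := fun n hn => by
    rw [hD, uu_succ, ht]
    congr 2
    omega
  have Dcomm : ∀ i n, 1 ≤ i → i + n < k → s i * D n = D n * s i := fun i n hi hin => by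
    rw [hD]
    refine uu_comm t (k - 1) (s i) n fun j hj hj' => ?_
    rw [ht]
    exact hc i (j + 1) hi (by omega) (by omega)
  have Dcomm0 : ∀ n, n + 2 ≤ k → s 0 * D n = D n * s 0 := fun n hn => by
    rw [hD]
    refine uu_comm t (k - 1) (s 0) n fun j hj hj' => ?_
    rw [ht]
    exact hc0 (j + 1) (by omega) (by omega) (by omega)
  have Db : ∀ i n, i ≤ k → n ≤ k → k + 1 < i + n → s i * D n = D n * s (i - 1) := fun i n hi hn hin => by
    have h1 := uu_b t (k - 1) hbt hct (i - 1) (by omega) n (by omega) (by omega)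
    rw [ht, ht, ← hD] at h1
    have e1 : i - 1 + 1 = i := by omega
    have e2 : i - 1 - 1 + 1 = i - 1 := by omega
    rw [e1, e2] at h1
    exact h1
  have q' : ∀ i x, s i * (s i * x) = x := fun i x => by rw [← mul_assoc, hq, one_mul]
  have h01 : s 0 * s 1 = s 1 * s 0 := hc0 1 (by omega) (by omega) (by omega)
  -- the main elements
  obtain ⟨D3, hD3⟩ : ∃ D3, D3 = D (k - 2) := ⟨_, rfl⟩
  obtain ⟨D2, hD2⟩ : ∃ D2, D2 = D (k - 1) := ⟨_, rfl⟩
  obtain ⟨E1, hE1⟩ : ∃ E1, E1 = s 1 * D2 := ⟨_, rfl⟩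
  obtain ⟨E0, hE0⟩ : ∃ E0, E0 = s 0 * D2 := ⟨_, rfl⟩
  obtain ⟨F, hF⟩ : ∃ F, F = s 0 * E1 := ⟨_, rfl⟩
  have e23 : D2 = s 2 * D3 := by
    have h1 := DS (k - 2) (by omega)
    have e1 : k - 2 + 1 = k - 1 := by omega
    have e2 : k - (k - 2) = 2 := by omega
    rw [e1, e2] at h1
    rw [hD2, h1, ← hD3]
  have eE1 : E1 = D k := by
    have h1 := DS (k - 1) (by omega)
    have e1 : k - 1 + 1 = k := by omega
    have e2 : k - (k - 1) = 1 := by omega
    rw [e1, e2] at h1
    rw [hE1, h1, ← hD2]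
  have c13 : s 1 * D3 = D3 * s 1 := by
    rw [hD3]
    exact Dcomm 1 (k - 2) le_rfl (by omega)
  have c03 : s 0 * D3 = D3 * s 0 := by
    rw [hD3]
    exact Dcomm0 (k - 2) (by omega)
  have hb1 : s 1 * s 2 * s 1 = s 2 * s 1 * s 2 := hb 1 le_rfl (by omega)
  -- left multiplications
  have E1b : ∀ i, 2 ≤ i → i ≤ k → s i * E1 = E1 * s (i - 1) := fun i hi hik => by
    rw [eE1]
    exact Db i k hik le_rfl (by omega)
  have D2b : ∀ i, 3 ≤ i → i ≤ k → s i * D2 = D2 * s (i - 1) := fun i hi hik => by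
    rw [hD2]
    exact Db i (k - 1) hik (by omega) (by omega)
  have s2E0 : s 2 * E0 = E0 * s 0 := by
    rw [hE0, e23]
    calc s 2 * (s 0 * (s 2 * D3)) = (s 2 * s 0 * s 2) * D3 := by simp only [mul_assoc]
      _ = s 0 * s 2 * (s 0 * D3) := by rw [← hb0]; simp only [mul_assoc]
      _ = s 0 * (s 2 * D3) * s 0 := by rw [c03]; simp only [mul_assoc]
  have E0b : ∀ i, 3 ≤ i → i ≤ k → s i * E0 = E0 * s (i - 1) := fun i hi hik => by
    rw [hE0, ← mul_assoc, ← hc0 i (by omega) (by omega) hik, mul_assoc, D2b i hi hik, mul_assoc]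
  have Fb : ∀ i, 3 ≤ i → i ≤ k → s i * F = F * s (i - 1) := fun i hi hik => by
    rw [hF, ← mul_assoc, ← hc0 i (by omega) (by omega) hik, mul_assoc, E1b i (by omega) hik, mul_assoc]
  have s1E0 : s 1 * E0 = F := by
    rw [hF, hE0, hE1, ← mul_assoc, ← mul_assoc, h01]
  have s1F : s 1 * F = E0 := by rw [← s1E0, q']
  have s0F : s 0 * F = E1 := by rw [hF, q']
  -- the second half
  obtain ⟨W, hW⟩ : ∃ W : ℕ → G, W = vv s F := ⟨_, rfl⟩
  have W0 : W 0 = F := by rw [hW]; rfl
  have WS : ∀ n, W (n + 1) = s (n + 2) * W n := fun n => by rw [hW, vv_succ]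
  have Whi : ∀ n i, n + 3 ≤ i → i ≤ k → s i * W n = W n * s (i - 1) := by
    intro n
    induction n with
    | zero =>
      intro i hi hik
      rw [W0]
      exact Fb i hi hik
    | succ n ih =>
      intro i hi hik
      rw [WS, ← mul_assoc, ← hc (n + 2) i (by omega) (by omega) hik, mul_assoc, ih i (by omega) hik, mul_assoc]
  have Wlo : ∀ n, n + 1 ≤ k → ∀ i, 2 ≤ i → i ≤ n → s i * W n = W n * s i := by
    intro n
    induction n with
    | zero =>
      intro _ i hi hik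
      omega
    | succ n ih =>
      intro hn i hi hin
      rcases Nat.lt_or_ge i (n + 1) with h1 | h1
      · rw [WS, ← mul_assoc, hc i (n + 2) (by omega) (by omega) (by omega), mul_assoc, ih (by omega) i hi (by omega), mul_assoc]
      · obtain rfl : i = n + 1 := by omega
        obtain ⟨n', rfl⟩ : ∃ n', n = n' + 1 := ⟨n - 1, by omega⟩
        have h2 := hb (n' + 2) (by omega) (by omega)
        have h3 := Whi n' (n' + 3) le_rfl (by omega)
        have e3 : n' + 3 - 1 = n' + 2 := by omega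
        rw [e3] at h3
        rw [WS, WS]
        show s (n' + 2) * (s (n' + 3) * (s (n' + 2) * W n')) = s (n' + 3) * (s (n' + 2) * W n') * s (n' + 2)
        calc s (n' + 2) * (s (n' + 3) * (s (n' + 2) * W n')) = (s (n' + 2) * s (n' + 3) * s (n' + 2)) * W n' := by
              simp only [mul_assoc]
          _ = (s (n' + 3) * s (n' + 2) * s (n' + 3)) * W n' := by rw [h2]
          _ = s (n' + 3) * s (n' + 2) * (s (n' + 3) * W n') := by simp only [mul_assoc]
          _ = s (n' + 3) * s (n' + 2) * (W n' * s (n' + 2)) := by rw [h3]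
          _ = s (n' + 3) * (s (n' + 2) * W n') * s (n' + 2) := by simp only [mul_assoc]
  have W1s1 : s 1 * W 1 = W 1 * s 0 := by
    rw [WS, W0]
    show s 1 * (s 2 * F) = s 2 * F * s 0
    have hF' : F = s 0 * (s 1 * (s 2 * D3)) := by rw [hF, hE1, e23]
    calc s 1 * (s 2 * F) = s 1 * s 2 * (s 0 * s 1) * s 2 * D3 := by rw [hF']; simp only [mul_assoc]
      _ = (s 1 * s 2 * s 1) * s 0 * s 2 * D3 := by rw [h01]; simp only [mul_assoc]
      _ = s 2 * s 1 * (s 2 * s 0 * s 2) * D3 := by rw [hb1]; simp only [mul_assoc]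
      _ = s 2 * (s 1 * s 0) * s 2 * (s 0 * D3) := by rw [← hb0]; simp only [mul_assoc]
      _ = s 2 * (s 0 * s 1) * s 2 * (D3 * s 0) := by rw [c03, h01]
      _ = s 2 * F * s 0 := by rw [hF']; simp only [mul_assoc]
  have W1s0 : s 0 * W 1 = W 1 * s 1 := by
    rw [WS, W0]
    show s 0 * (s 2 * F) = s 2 * F * s 1
    have hF' : F = s 0 * (s 1 * (s 2 * D3)) := by rw [hF, hE1, e23]
    calc s 0 * (s 2 * F) = (s 0 * s 2 * s 0) * s 1 * s 2 * D3 := by rw [hF']; simp only [mul_assoc]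
      _ = s 2 * s 0 * (s 2 * s 1 * s 2) * D3 := by rw [hb0]; simp only [mul_assoc]
      _ = s 2 * s 0 * s 1 * s 2 * (s 1 * D3) := by rw [← hb1]; simp only [mul_assoc]
      _ = s 2 * s 0 * s 1 * s 2 * (D3 * s 1) := by rw [c13]
      _ = s 2 * F * s 1 := by rw [hF']; simp only [mul_assoc]
  have Ws1 : ∀ n, n + 2 ≤ k → s 1 * W (n + 1) = W (n + 1) * s 0 := by
    intro n
    induction n with
    | zero => intro _; exact W1s1
    | succ n ih =>
      intro hn
      rw [WS, ← mul_assoc, hc 1 (n + 1 + 2) le_rfl (by omega) (by omega), mul_assoc, ih (by omega), mul_assoc]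
  have Ws0 : ∀ n, n + 2 ≤ k → s 0 * W (n + 1) = W (n + 1) * s 1 := by
    intro n
    induction n with
    | zero => intro _; exact W1s0
    | succ n ih =>
      intro hn
      rw [WS, ← mul_assoc, hc0 (n + 1 + 2) (by omega) (by omega) (by omega), mul_assoc, ih (by omega), mul_assoc]
  -- the set
  refine fin_coset H hfin _ ?_ ((D '' {n | n ≤ k}) ∪ {E0} ∪ (W '' {n | n + 1 ≤ k})) ?_ ?_ ?_
  · rintro _ ⟨i, hi, rfl⟩
    exact hq i
  · refine (Set.Finite.union ((Set.finite_le_nat k).image D) (Set.finite_singleton _)).union ?_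
    exact ((Set.finite_le_nat k).subset fun n (hn : n + 1 ≤ k) => (by
      show n ≤ k
      omega)).image W
  · exact Or.inl (Or.inl ⟨0, Nat.zero_le _, D0⟩)
  · have mD : ∀ n, n ≤ k → D n ∈ (D '' {n | n ≤ k}) ∪ {E0} ∪ (W '' {n | n + 1 ≤ k}) := fun n hn =>
      Or.inl (Or.inl ⟨n, hn, rfl⟩)
    have mE : E0 ∈ (D '' {n | n ≤ k}) ∪ {E0} ∪ (W '' {n | n + 1 ≤ k}) := Or.inl (Or.inr rfl)
    have mW : ∀ n, n + 1 ≤ k → W n ∈ (D '' {n | n ≤ k}) ∪ {E0} ∪ (W '' {n | n + 1 ≤ k}) := fun n hn =>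
      Or.inr ⟨n, hn, rfl⟩
    rintro _ ⟨i, hi, rfl⟩ x hx
    have hik : i ≤ k := Nat.lt_succ_iff.1 hi
    rcases hx with (⟨n, hn, rfl⟩ | hx) | ⟨n, hn, rfl⟩
    · have hn' : n ≤ k := hn
      rcases Nat.eq_zero_or_pos i with hi0 | hi0
      · -- `s 0`
        rw [hi0]
        rcases Nat.lt_or_ge (n + 1) k with h1 | h1
        · exact ⟨D n, mD n hn', s 0, hsH 0 (by omega), Dcomm0 n (by omega)⟩
        · rcases Nat.lt_or_ge n k with h2 | h2
          · obtain rfl : n = k - 1 := by omega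
            exact ⟨E0, mE, 1, H.one_mem, by rw [mul_one, hE0, hD2]⟩
          · obtain rfl : n = k := by omega
            refine ⟨W 0, mW 0 (by omega), 1, H.one_mem, ?_⟩
            rw [mul_one, W0, hF, eE1]
      · rcases Nat.lt_trichotomy (i + n) k with h | h | h
        · exact ⟨D n, mD n hn', s i, hsH i (by omega), Dcomm i n hi0 h⟩
        · refine ⟨D (n + 1), mD (n + 1) (by omega), 1, H.one_mem, ?_⟩
          rw [mul_one, DS n (by omega)]
          congr 2
          omega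
        · rcases Nat.lt_or_ge (k + 1) (i + n) with h' | h'
          · exact ⟨D n, mD n hn', s (i - 1), hsH (i - 1) (by omega), Db i n hik hn' h'⟩
          · obtain ⟨n', rfl⟩ : ∃ n', n = n' + 1 := ⟨n - 1, by omega⟩
            refine ⟨D n', mD n' (by omega), 1, H.one_mem, ?_⟩
            have e : k - n' = i := by omega
            rw [mul_one, DS n' (by omega), e, q']
    · rw [Set.mem_singleton_iff] at hx
      rw [hx]
      rcases Nat.lt_or_ge i 3 with h | h
      · interval_cases i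
        · refine ⟨D (k - 1), mD _ (by omega), 1, H.one_mem, ?_⟩
          rw [mul_one, hE0, q', hD2]
        · refine ⟨W 0, mW 0 (by omega), 1, H.one_mem, ?_⟩
          rw [mul_one, W0, s1E0]
        · exact ⟨E0, mE, s 0, hsH 0 (by omega), s2E0⟩
      · exact ⟨E0, mE, s (i - 1), hsH (i - 1) (by omega), E0b i h hik⟩
    · have hn' : n + 1 ≤ k := hn
      rcases Nat.eq_zero_or_pos n with hn0 | hn0
      · subst hn0
        rw [W0]
        rcases Nat.lt_or_ge i 3 with h | h
        · interval_cases i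
          · refine ⟨D k, mD k le_rfl, 1, H.one_mem, ?_⟩
            rw [mul_one, s0F, eE1]
          · exact ⟨E0, mE, 1, H.one_mem, by rw [mul_one, s1F]⟩
          · exact ⟨W 1, mW 1 (by omega), 1, H.one_mem, by rw [mul_one, WS, W0]⟩
        · refine ⟨W 0, mW 0 (by omega), s (i - 1), hsH (i - 1) (by omega), ?_⟩
          rw [W0]
          exact Fb i h hik
      · obtain ⟨n, rfl⟩ : ∃ n', n = n' + 1 := ⟨n - 1, by omega⟩
        rcases Nat.lt_or_ge i 2 with h | h
        · interval_cases i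
          · exact ⟨W (n + 1), mW _ hn', s 1, hsH 1 (by omega), Ws0 n (by omega)⟩
          · exact ⟨W (n + 1), mW _ hn', s 0, hsH 0 (by omega), Ws1 n (by omega)⟩
        · rcases Nat.lt_or_ge i (n + 2) with h1 | h1
          · exact ⟨W (n + 1), mW _ hn', s i, hsH i (by omega), Wlo (n + 1) hn' i h (by omega)⟩
          · rcases Nat.lt_or_ge (n + 3) i with h2 | h2
            · exact ⟨W (n + 1), mW _ hn', s (i - 1), hsH (i - 1) (by omega), Whi (n + 1) i (by omega) hik⟩
            · rcases Nat.lt_or_ge i (n + 3) with h3 | h3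
              · obtain rfl : i = n + 2 := by omega
                exact ⟨W n, mW n (by omega), 1, H.one_mem, by rw [mul_one, WS, q']⟩
              · obtain rfl : i = n + 3 := by omega
                exact ⟨W (n + 2), mW (n + 2) (by omega), 1, H.one_mem, by rw [mul_one, WS (n + 1)]⟩

private theorem fin_dabs {G : Type} [Group G] (s : ℕ → G) (m : ℕ) (hq : ∀ i, s i * s i = 1)
    (hb : ∀ i, 1 ≤ i → i + 1 < m → s i * s (i + 1) * s i = s (i + 1) * s i * s (i + 1))
    (hb0 : 2 < m → s 0 * s 2 * s 0 = s 2 * s 0 * s 2)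
    (hc : ∀ i j, 1 ≤ i → i + 1 < j → j < m → s i * s j = s j * s i)
    (hc0 : ∀ j, j ≠ 0 → j ≠ 2 → j < m → s 0 * s j = s j * s 0) :
    ∀ k ≤ m, (Subgroup.closure (s '' {i | i < k}) : Set G).Finite := by
  intro k
  induction k with
  | zero =>
    intro _
    have h1 : s '' {i | i < 0} = ∅ := by
      rw [Set.image_eq_empty]
      ext i
      simp
    rw [h1, Subgroup.closure_empty, Subgroup.coe_bot]
    exact Set.finite_singleton _
  | succ k ih =>
    intro hk
    have hfin := ih (by omega)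
    rcases Nat.lt_or_ge k 2 with h2 | h2
    · refine fin_coset _ hfin _ ?_ {1, s k} (Set.toFinite _) (by simp) ?_
      · rintro _ ⟨i, hi, rfl⟩
        exact hq i
      · rintro _ ⟨i, hi, rfl⟩ x hx
        have hik : i ≤ k := Nat.lt_succ_iff.1 hi
        simp only [Set.mem_insert_iff, Set.mem_singleton_iff] at hx
        rcases Nat.lt_or_ge i k with h3 | h3
        · have hmem : s i ∈ Subgroup.closure (s '' {i | i < k}) := Subgroup.subset_closure ⟨i, h3, rfl⟩
          rcases hx with rfl | rfl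
          · exact ⟨1, by simp, s i, hmem, by rw [mul_one, one_mul]⟩
          · refine ⟨s k, by simp, s i, hmem, ?_⟩
            obtain rfl : i = 0 := by omega
            exact hc0 k (by omega) (by omega) (by omega)
        · obtain rfl : i = k := by omega
          rcases hx with rfl | rfl
          · exact ⟨s i, by simp, 1, Subgroup.one_mem _, rfl⟩
          · exact ⟨1, by simp, 1, Subgroup.one_mem _, by rw [hq, mul_one]⟩
    · exact fd_step s k h2 hq (fun i hi hi' => hb i hi (by omega)) (hb0 (by omega)) (fun i j hi hij hj => hc i j hi hij (by omega))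
        (fun j hj hj' hjk => hc0 j hj hj' (by omega)) hfin

theorem fin_d {B : Type} (M : CoxeterMatrix B) (k : ℕ) (p : ℕ → B) (hB : ∀ b, ∃ i < k, p i = b)
    (h : ∀ i j, i < j → j < k → M (p i) (p j) = if (j = i + 1 ∧ 1 ≤ i) ∨ (i = 0 ∧ j = 2) then 3 else 2) : Finite M.Group := by
  obtain ⟨cs, hcs⟩ : ∃ cs : CoxeterSystem M M.Group, cs = M.toCoxeterSystem := ⟨_, rfl⟩
  obtain ⟨s, hsdef⟩ : ∃ s : ℕ → M.Group, s = fun i => cs.simple (p i) := ⟨_, rfl⟩
  have hq : ∀ i, s i * s i = 1 := by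
    intro i
    rw [hsdef]
    exact cs.simple_mul_simple_self (p i)
  have hinv : ∀ i, (s i)⁻¹ = s i := fun i => inv_eq_of_mul_eq_one_right (hq i)
  have hb3 : ∀ i j, M (p i) (p j) = 3 → s i * s j * s i = s j * s i * s j := by
    intro i j hij
    have h3 : (s i * s j) ^ 3 = 1 := by
      have h4 := cs.simple_mul_simple_pow (p i) (p j)
      rw [hij] at h4
      rw [hsdef]
      exact h4
    have h5 : (s i * s j * s i) * (s j * s i * s j) = 1 := by
      rw [← h3, pow_succ, pow_succ, pow_succ, pow_zero, one_mul]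
      simp only [mul_assoc]
    have h6 := eq_inv_of_mul_eq_one_left h5
    rw [h6, mul_inv_rev, mul_inv_rev, hinv, hinv]
    simp only [mul_assoc]
  have hc2 : ∀ i j, M (p i) (p j) = 2 → s i * s j = s j * s i := by
    intro i j hij
    have h3 : (s i * s j) ^ 2 = 1 := by
      have h4 := cs.simple_mul_simple_pow (p i) (p j)
      rw [hij] at h4
      rw [hsdef]
      exact h4
    have h5 : (s i * s j) * (s i * s j) = 1 := by
      rw [← pow_two]
      exact h3
    have h6 := eq_inv_of_mul_eq_one_left h5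
    rw [mul_inv_rev, hinv, hinv] at h6
    exact h6
  have h0 := fin_dabs s k hq
    (fun i h1 h2 => hb3 i (i + 1) (by rw [h i (i + 1) (by omega) h2, if_pos (Or.inl ⟨rfl, h1⟩)]))
    (fun h2 => hb3 0 2 (by rw [h 0 2 (by omega) h2, if_pos (Or.inr ⟨rfl, rfl⟩)]))
    (fun i j h1 h2 h3 => hc2 i j (by rw [h i j (by omega) h3, if_neg (by omega)]))
    (fun j h1 h2 h3 => hc2 0 j (by rw [h 0 j (by omega) h3, if_neg (by omega)])) k le_rfl
  have htop : Subgroup.closure (s '' {i | i < k}) = ⊤ := by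
    rw [eq_top_iff, ← cs.subgroup_closure_range_simple]
    refine Subgroup.closure_mono ?_
    rintro _ ⟨b, rfl⟩
    obtain ⟨i, hi, rfl⟩ := hB b
    exact ⟨i, hi, by rw [hsdef]⟩
  rw [htop, Subgroup.coe_top] at h0
  exact Set.finite_univ_iff.1 h0

private theorem fd_gen {n : ℕ} (S : Set (Fin (n + 2))) (m : ℕ) (q : ℕ → ℕ) (hq : ∀ k < m, q k ≤ n + 1)
    (hS : ∀ (z : Fin (n + 2)), z ∈ S ↔ ∃ k < m, q k = z.1) (hm : 0 < m)
    (hl : ∀ k l, k < l → l < m → q k ≠ q l ∧ ((Ed n (q k) (q l) ∨ Ed n (q l) (q k)) ↔ (l = k + 1 ∧ 1 ≤ k) ∨ (k = 0 ∧ l = 2))) :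
    Finite (resM (Dm n) S).Group := by
  have hc : ∀ k, min k (m - 1) < m := fun k => by omega
  have hc' : ∀ k, k < m → min k (m - 1) = k := fun k hk => by omega
  obtain ⟨p, hp⟩ : ∃ p : ℕ → S, ∀ k < m, (p k).1.1 = q k := by
    refine ⟨fun k => ⟨⟨q (min k (m - 1)), Nat.lt_succ_of_le (hq _ (hc k))⟩, (hS _).2 ⟨min k (m - 1), hc k, rfl⟩⟩, fun k hk => ?_⟩
    show q (min k (m - 1)) = q k
    rw [hc' k hk]
  refine fin_d (resM (Dm n) S) m p ?_ ?_
  · intro b
    obtain ⟨k, hk, hkb⟩ := (hS b.1).1 b.2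
    refine ⟨k, hk, ?_⟩
    apply Subtype.ext
    apply Fin.ext
    rw [hp k hk, hkb]
  · intro k l hkl hlm
    rw [resM_apply]
    have h3 := hp k (by omega)
    have h4 := hp l hlm
    have h5 := hl k l hkl hlm
    rw [← h3, ← h4] at h5
    rw [dm_val (fun e => h5.1 (congrArg Fin.val e))]
    exact if_congr h5.2 rfl rfl

theorem fd_up (n i : ℕ) (hn : 3 ≤ n) (hi : i ≤ n) : Finite (resM (Dm n) {s : Fin (n + 2) | i < s.1}).Group := by
  refine fd_gen _ (n + 1 - i) (fun k => n + 1 - k) (fun k hk => by omega) (fun z => ?_) (by omega) (fun k l hkl hl => ?_)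
  · rw [Set.mem_ofPred_eq]
    have hz := z.2
    constructor
    · intro h
      exact ⟨n + 1 - z.1, by omega, by omega⟩
    · rintro ⟨k, hk, h⟩
      omega
  · refine ⟨by omega, ?_⟩
    unfold Ed
    omega

theorem fd_lo (n i : ℕ) (hn : 3 ≤ n) (hi : i ≤ n) : Finite (resM (Dm n) {s : Fin (n + 2) | s.1 ≤ i}).Group := by
  refine fd_gen _ (i + 1) (fun k => k) (fun k hk => by omega) (fun z => ?_) (by omega) (fun k l hkl hl => ?_)
  · rw [Set.mem_ofPred_eq]
    have hz := z.2
    constructor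
    · intro h
      exact ⟨z.1, by omega, rfl⟩
    · rintro ⟨k, hk, h⟩
      omega
  · refine ⟨by omega, ?_⟩
    unfold Ed
    omega

variable {B : Type} {M : CoxeterMatrix B} {n : ℕ} {v : ℕ → B}

theorem bfin (h : Bd M n v) : Finite (resM M ({v 0}ᶜ : Set B)).Group := by
  obtain ⟨I, hI, _⟩ := ivB h
  refine iv_finite I _ ?_
  have h3 := h.three
  have he : I.pi ⁻¹' ({v 0}ᶜ : Set B) = {s : Fin (n + 2) | 0 < s.1} := by
    ext s
    rw [Set.mem_preimage, hI, Set.mem_compl_iff, Set.mem_singleton_iff, Set.mem_ofPred_eq]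
    constructor
    · intro h1
      rcases Nat.eq_zero_or_pos s.1 with h2 | h2
      · exact absurd (by rw [h2, Nat.zero_min]) h1
      · exact h2
    · intro h1 h2
      have h4 := h.inj (min s.1 n) (by omega) 0 (by omega) h2
      omega
  rw [he]
  exact fd_up n 0 h3 (Nat.zero_le _)

end Pool.Agent.H75.BT
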