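import Pool.Agent.H75.BT.Hm
import Pool.Agent.H75.BT.Fd

/-!
# [H75 BT DQ] Girth of the edges of `B~_n` from the finite type `D_(n+1)`

`I : Iv M (Dm n)` with `I.pi s = v (min s.1 n)`, `F : Fold M (Dm n)`, `FaV I F`, `Θ κ ι` from `exists_rd`. `φ = κ ∘ F.fa`.
-/

set_option autoImplicit false

namespace Pool.Agent.H75.BT

open FreeGroup Pool.H8.CDW Pool.Agent.H52.PAG Pool.Agent.H75.INF Pool.Agent.H54.TF Pool.Agent.H54.CT Pool.Agent.H2.UF

/-- homomorphisms and the generated subgroups -/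
theorem map_mem' {B : Type} {M : CoxeterMatrix B} {G : Type*} [Group G] {K : Set B} {P : Subgroup G} (φ : Art M →* G)
    (h : ∀ b ∈ K, φ (gen M b) ∈ P) {x : Art M} (hx : x ∈ ap M K) : φ x ∈ P := by
  refine ap_induction (P := fun x => φ x ∈ P) ?_ ?_ ?_ hx
  · rw [_root_.map_one]
    exact one_mem _
  · intro x _ b hb h1
    rw [_root_.map_mul]
    exact mul_mem h1 (h b hb)
  · intro x _ b hb h1
    rw [_root_.map_mul, _root_.map_inv]
    exact mul_mem h1 (inv_mem (h b hb))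

/-- homomorphisms which agree on the generators -/
theorem map_congr' {B : Type} {M : CoxeterMatrix B} {G : Type*} [Group G] {K : Set B} (φ ψ : Art M →* G)
    (h : ∀ b ∈ K, φ (gen M b) = ψ (gen M b)) {x : Art M} (hx : x ∈ ap M K) : φ x = ψ x := by
  refine ap_induction (P := fun x => φ x = ψ x) ?_ ?_ ?_ hx
  · rw [_root_.map_one, _root_.map_one]
  · intro x _ b hb h1
    rw [_root_.map_mul, _root_.map_mul, h1, h b hb]
  · intro x _ b hb h1
    rw [_root_.map_mul, _root_.map_mul, _root_.map_inv, _root_.map_inv, h1, h b hb]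

theorem ap_le {B : Type} {M : CoxeterMatrix B} {K : Set B} {P : Subgroup (Art M)} (h : ∀ b ∈ K, gen M b ∈ P) : ap M K ≤ P :=
  fun _ hx => map_mem' (MonoidHom.id (Art M)) h hx

theorem eqw {n j : ℕ} {s : Fin (n + 2)} (h : s.1 = j) : s = wD n j := by
  rw [← h, wD_eq]

variable {B : Type} {M : CoxeterMatrix B} {n : ℕ} {v : ℕ → B}

/-- the data -/
structure Dt (M : CoxeterMatrix B) (n : ℕ) (v : ℕ → B) (I : Iv M (Dm n)) (F : Fold M (Dm n)) (Θ : Art (Dm n) →* X)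
    (κ ι : Art (Dm n) →* Art (Dm n)) : Prop where
  bd : Bd M n v
  ipi : ∀ s, I.pi s = v (min s.1 n)
  isg : ∀ s, (I.sg s).1 = if s.1 = n then n + 1 else if s.1 = n + 1 then n else s.1
  fav : FaV I F
  rp : Rp (gen (Dm n) (wD n n)) (gen (Dm n) (wD n (n + 1))) (fun i => gen (Dm n) (wD n (n - 1 - i))) (n - 1) Θ κ
  k0 : κ (gen (Dm n) (wD n 0)) = gen (Dm n) (wD n 0)
  i1 : ι (gen (Dm n) (wD n n)) = gen (Dm n) (wD n (n + 1))
  i2 : ι (gen (Dm n) (wD n (n + 1))) = gen (Dm n) (wD n n)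
  i3 : ∀ i < n, ι (gen (Dm n) (wD n i)) = gen (Dm n) (wD n i)

theorem exists_dt (h : Bd M n v) : ∃ I F Θ κ ι, Dt M n v I F Θ κ ι := by
  obtain ⟨I, hI, hs⟩ := ivB h
  obtain ⟨F, hF⟩ := exists_fold I
  obtain ⟨Θ, κ, ι, h1, h2, h3, h4, h5⟩ := exists_rd h.three
  exact ⟨I, F, Θ, κ, ι, h, hI, hs, hF, h1, h2, h3, h4, h5⟩

variable {I : Iv M (Dm n)} {F : Fold M (Dm n)} {Θ : Art (Dm n) →* X} {κ ι : Art (Dm n) →* Art (Dm n)}

theorem Dt.kg (d : Dt M n v I F Θ κ ι) {j : ℕ} (hj : j ≤ n) : κ (gen (Dm n) (wD n j)) = gen (Dm n) (wD n j) := by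
  rcases Nat.eq_or_lt_of_le hj with e | h1
  · rw [e]
    exact d.rp.kp
  · rcases Nat.eq_zero_or_pos j with e | h2
    · rw [e]
      exact d.k0
    · have h3 := d.rp.kc (n - 1 - j) (by omega)
      have e : n - 1 - (n - 1 - j) = j := by omega
      simp only [e] at h3
      exact h3

theorem Dt.fi (d : Dt M n v I F Θ κ ι) (x : Art M) : ι (F.fa x) = F.fa x := by
  have hn := d.bd.three
  have h1 : ι.comp F.fa = F.fa := by
    refine art_ext fun b => ?_
    obtain ⟨s, rfl⟩ := I.surj b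
    show ι (F.fa (gen M (I.pi s))) = F.fa (gen M (I.pi s))
    rw [d.fav.2 s]
    have h2 := d.isg s
    have hs := s.2
    by_cases h3 : s.1 = n
    · rw [if_pos h3] at h2
      have e1 : s = wD n n := Fin.ext (by rw [wD_val (by omega), h3])
      have e2 : I.sg s = wD n (n + 1) := Fin.ext (by rw [wD_val (by omega), h2])
      rw [if_neg (fun e => by rw [e] at h2; omega), e2, e1, _root_.map_mul, d.i1, d.i2]
      exact (ds_d hn).pq.symm
    · by_cases h4 : s.1 = n + 1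
      · rw [if_neg h3, if_pos h4] at h2
        have e1 : s = wD n (n + 1) := Fin.ext (by rw [wD_val (by omega), h4])
        have e2 : I.sg s = wD n n := Fin.ext (by rw [wD_val (by omega), h2])
        rw [if_neg (fun e => by rw [e] at h2; omega), e2, e1, _root_.map_mul, d.i1, d.i2]
        exact (ds_d hn).pq
      · rw [if_neg h3, if_neg h4] at h2
        rw [if_pos (Fin.ext h2)]
        have h5 := d.i3 s.1 (by omega)
        rwa [wD_eq] at h5
  exact DFunLike.congr_fun h1 x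

theorem Dt.km (d : Dt M n v I F Θ κ ι) {S : Set B} {y : Art (Dm n)} (hy : y ∈ ap (Dm n) (I.pi ⁻¹' S)) :
    κ y ∈ ap (Dm n) {s : Fin (n + 2) | s.1 ≤ n ∧ I.pi s ∈ S} := by
  refine map_mem' κ ?_ hy
  intro s hs
  have hs2 := s.2
  by_cases h1 : s.1 ≤ n
  · have h2 := d.kg h1
    rw [wD_eq] at h2
    rw [h2]
    exact gen_mem_ap ⟨h1, hs⟩
  · have e1 : s = wD n (n + 1) := Fin.ext (by rw [wD_val (by omega)]; omega)
    have h2 : κ (gen (Dm n) s) = gen (Dm n) (wD n n) := by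
      rw [e1]
      exact d.rp.kq
    rw [h2]
    refine gen_mem_ap ⟨by rw [wD_val (by omega)], ?_⟩
    have h3 : I.pi (wD n n) = I.pi s := by
      rw [d.ipi, d.ipi, wD_val (by omega)]
      congr 1
      omega
    rw [h3]
    exact hs

theorem Dt.up (d : Dt M n v I F Θ κ ι) {S : Set B} {g : Art M} (hg : g ∈ ap M S) :
    κ (F.fa g) ∈ ap (Dm n) {s : Fin (n + 2) | s.1 ≤ n ∧ I.pi s ∈ S} := by
  refine d.km ?_
  refine ap_mono ?_ (F.mem_ap hg)
  intro s hs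
  rw [Set.mem_preimage, d.fav.1] at hs
  exact hs

/-- descent -/
theorem Dt.dq (d : Dt M n v I F Θ κ ι) {r : B} {J : Set B} (hJ : ∀ i ∈ J, ∀ j, j ∉ J → j ≠ r → M i j = 2) (hr : r ∉ J)
    (hf : Finite (resM (Dm n) (I.pi ⁻¹' J)).Group) {x : Art M} (hx : x ∈ ap M ({r}ᶜ : Set B)) {t : Fin (n + 2)} (ht : I.pi t ∈ J)
    (hk : ∀ y ∈ ap (Dm n) (I.pi ⁻¹' J), ι y = y → κ y ∈ ap (Dm n) ({t}ᶜ : Set (Fin (n + 2))) → y ∈ ap (Dm n) ({t}ᶜ : Set (Fin (n + 2))))
    (h : κ (F.fa x) ∈ ap (Dm n) ({t}ᶜ : Set (Fin (n + 2)))) : x ∈ ap M ({I.pi t}ᶜ : Set B) := by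
  have e : ({r}ᶜ : Set B) = J ∪ ({r}ᶜ \ J) := by
    rw [Set.union_sdiff_cancel]
    rintro j hj rfl
    exact hr hj
  rw [e] at hx
  obtain ⟨x₁, h1, x₂, h2, rfl⟩ := Pool.Agent.H54.AF.dec_ap (M := M) (S₁ := J) (S₂ := {r}ᶜ \ J) (fun i hi j hj => hJ i hi j hj.2 hj.1) hx
  have h3 : κ (F.fa x₂) ∈ ap (Dm n) ({t}ᶜ : Set (Fin (n + 2))) := by
    refine ap_mono ?_ (d.up h2)
    rintro s ⟨-, hs⟩ rfl
    exact hs.2 ht
  have h4 : κ (F.fa x₁) ∈ ap (Dm n) ({t}ᶜ : Set (Fin (n + 2))) := by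
    rw [_root_.map_mul, _root_.map_mul] at h
    exact (Subgroup.mul_mem_cancel_right _ h3).1 h
  have h6 : F.fa x₁ ∈ ap (Dm n) (I.pi ⁻¹' J) := by
    refine ap_mono ?_ (F.mem_ap h1)
    intro s hs
    rw [Set.mem_preimage, d.fav.1] at hs
    exact hs
  have h5 := dn I F d.fav.2 J hf h1 ht (hk _ h6 (d.fi x₁) h4)
  refine mul_mem (ap_mono ?_ h5) (ap_mono ?_ h2)
  · exact fun j hj => hj.2
  · rintro j hj rfl
    exact hj.2 ht

/-- the part does not contain the last node -/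
theorem Dt.hk1 (d : Dt M n v I F Θ κ ι) {J : Set B} (hJ : v n ∉ J) {t : Fin (n + 2)} (y : Art (Dm n)) (hy : y ∈ ap (Dm n) (I.pi ⁻¹' J))
    (h : κ y ∈ ap (Dm n) ({t}ᶜ : Set (Fin (n + 2)))) : y ∈ ap (Dm n) ({t}ᶜ : Set (Fin (n + 2))) := by
  have e : κ y = (MonoidHom.id _) y := by
    refine map_congr' κ (MonoidHom.id _) ?_ hy
    intro s hs
    have h1 : s.1 < n := by
      by_contra h2
      rw [Set.mem_preimage, d.ipi, min_eq_right (by omega)] at hs
      exact hJ hs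
    have h2 := d.kg h1.le
    rw [wD_eq] at h2
    exact h2
  rw [e] at h
  exact h

/-- the nodes after `v i` -/
theorem Dt.hk2 (d : Dt M n v I F Θ κ ι) {i : ℕ} {t : Fin (n + 2)} (hit : i < t.1) (htn : t.1 < n) (y : Art (Dm n))
    (hy : y ∈ ap (Dm n) {s : Fin (n + 2) | i < s.1}) (hi : ι y = y) (h : κ y ∈ ap (Dm n) ({t}ᶜ : Set (Fin (n + 2)))) :
    y ∈ ap (Dm n) ({t}ᶜ : Set (Fin (n + 2))) := by
  have hn := d.bd.three
  have hDS := (ds_d hn).mono (show n - 1 - i ≤ n - 1 by omega)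
  have hRp := d.rp.mono (show n - 1 - i ≤ n - 1 by omega)
  have hgen : ∀ s : Fin (n + 2), i < s.1 → gen (Dm n) s ∈ Hh (gen (Dm n) (wD n n)) (gen (Dm n) (wD n (n + 1)))
      (fun i => gen (Dm n) (wD n (n - 1 - i))) (n - 1 - i) := by
    intro s hs
    have hs2 := s.2
    by_cases h1 : s.1 = n
    · exact Subgroup.subset_closure (Or.inl (Or.inl (congrArg _ (eqw h1))))
    · by_cases h2 : s.1 = n + 1
      · exact Subgroup.subset_closure (Or.inl (Or.inr (congrArg _ (eqw h2))))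
      · refine Subgroup.subset_closure (Or.inr ⟨n - 1 - s.1, ?_, ?_⟩)
        · show n - 1 - s.1 < n - 1 - i
          omega
        · show gen (Dm n) (wD n (n - 1 - (n - 1 - s.1))) = gen (Dm n) s
          rw [show n - 1 - (n - 1 - s.1) = s.1 by omega, wD_eq]
  have h1 : y ∈ Hh (gen (Dm n) (wD n n)) (gen (Dm n) (wD n (n + 1))) (fun i => gen (Dm n) (wD n (n - 1 - i))) (n - 1 - i) :=
    ap_le (fun s hs => hgen s hs) hy
  have e0 : {s : Fin (n + 2) | i < s.1} = I.pi ⁻¹' {b | ∃ j, i < j ∧ j ≤ n ∧ v j = b} := by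
    ext s
    have hs2 := s.2
    rw [Set.mem_preimage, d.ipi]
    constructor
    · intro hs
      have hs' : i < s.1 := hs
      exact ⟨min s.1 n, by omega, by omega, rfl⟩
    · rintro ⟨j, hj, hjn, e⟩
      have := d.bd.inj j hjn (min s.1 n) (by omega) e
      show i < s.1
      omega
  have h2 : κ y ∈ ap (Dm n) ({s : Fin (n + 2) | i < s.1 ∧ s.1 ≤ n} ∩ {t}ᶜ) := by
    rw [← ap_inter]
    refine ⟨?_, h⟩
    rw [e0] at hy
    refine ap_mono ?_ (d.km hy)
    rintro s ⟨hs, hs'⟩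
    refine ⟨?_, hs⟩
    have h3 : s ∈ {s : Fin (n + 2) | i < s.1} := by
      rw [e0]
      exact hs'
    exact h3
  have h3 : κ y ∈ Hl (gen (Dm n) (wD n n)) (gen (Dm n) (wD n (n + 1))) (fun i => gen (Dm n) (wD n (n - 1 - i))) (n - 1 - i)
      (n - 1 - t.1) := by
    refine ap_le ?_ h2
    rintro s ⟨⟨hs, hs'⟩, hst⟩
    by_cases h1 : s.1 = n
    · exact Subgroup.subset_closure (Or.inl (Or.inl (congrArg _ (eqw h1))))
    · have hst' : s.1 ≠ t.1 := fun e => hst (Fin.ext e)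
      refine Subgroup.subset_closure (Or.inr ⟨n - 1 - s.1, ⟨?_, ?_⟩, ?_⟩)
      · omega
      · omega
      · show gen (Dm n) (wD n (n - 1 - (n - 1 - s.1))) = gen (Dm n) s
        rw [show n - 1 - (n - 1 - s.1) = s.1 by omega, wD_eq]
  have h4 := dsw hDS hRp d.i1 d.i2 (fun k hk => d.i3 _ (by omega)) h1 hi (show n - 1 - t.1 < n - 1 - i by omega) h3
  have h5 : Hl (gen (Dm n) (wD n n)) (gen (Dm n) (wD n (n + 1))) (fun i => gen (Dm n) (wD n (n - 1 - i))) (n - 1 - i)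
      (n - 1 - t.1) ≤ ap (Dm n) ({t}ᶜ : Set (Fin (n + 2))) := by
    unfold Hl
    rw [Subgroup.closure_le]
    rintro _ ((rfl | rfl) | ⟨k, ⟨hk, hk'⟩, rfl⟩)
    · refine gen_mem_ap fun e => ?_
      have := congrArg Fin.val e
      rw [wD_val (by omega)] at this
      omega
    · refine gen_mem_ap fun e => ?_
      have := congrArg Fin.val e
      rw [wD_val (by omega)] at this
      omega
    · refine gen_mem_ap fun e => ?_
      have := congrArg Fin.val e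
      rw [wD_val (by omega)] at this
      omega
  exact h5 h4

/-- the last node -/
theorem Dt.hk3 (d : Dt M n v I F Θ κ ι) (y : Art (Dm n)) (hy : y ∈ ap (Dm n) (I.pi ⁻¹' {v n})) (hi : ι y = y)
    (h : κ y ∈ ap (Dm n) ({wD n n}ᶜ : Set (Fin (n + 2)))) : y ∈ ap (Dm n) ({wD n n}ᶜ : Set (Fin (n + 2))) := by
  have hn := d.bd.three
  have hpi : ∀ s : Fin (n + 2), I.pi s ∈ ({v n} : Set B) → s.1 = n ∨ s.1 = n + 1 := by
    intro s hs
    have hs2 := s.2
    rw [d.ipi] at hs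
    have := d.bd.inj _ (by omega) _ le_rfl hs
    omega
  have h1 : κ y = 1 := by
    have h2 : κ y ∈ ap (Dm n) ({s : Fin (n + 2) | s.1 ≤ n ∧ I.pi s ∈ ({v n} : Set B)} ∩ {wD n n}ᶜ) := by
      rw [← ap_inter]
      exact ⟨d.km hy, h⟩
    have e : ({s : Fin (n + 2) | s.1 ≤ n ∧ I.pi s ∈ ({v n} : Set B)} ∩ {wD n n}ᶜ) = ∅ := by
      rw [Set.eq_empty_iff_forall_notMem]
      rintro s ⟨⟨hs, hs'⟩, hs''⟩
      refine hs'' (Fin.ext ?_)
      rw [wD_val (by omega)]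
      have := hpi s hs'
      omega
    rw [e] at h2
    unfold ap at h2
    rwa [Set.image_empty, Subgroup.closure_empty, Subgroup.mem_bot] at h2
  have h2 : y ∈ Hh (gen (Dm n) (wD n n)) (gen (Dm n) (wD n (n + 1))) (fun i => gen (Dm n) (wD n (n - 1 - i))) 0 := by
    refine ap_le ?_ hy
    intro s hs
    rcases hpi s hs with h3 | h3
    · exact Subgroup.subset_closure (Or.inl (Or.inl (congrArg _ (eqw h3))))
    · exact Subgroup.subset_closure (Or.inl (Or.inr (congrArg _ (eqw h3))))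
  have h3 := dsw' ((ds_d hn).mono (Nat.zero_le _)) (d.rp.mono (Nat.zero_le _)) d.i1 d.i2 (fun k hk => absurd hk (by omega)) h2 hi h1
  rw [h3]
  exact one_mem _

/-- girth in the finite type `D_(n+1)` -/
theorem gs_dm (hn : 3 ≤ n) {i j : ℕ} (hij : i < j) (hj : j ≤ n) (he : (j = i + 1 ∧ 1 ≤ i) ∨ (i = 0 ∧ j = 2)) :
    GS (Dm n) ({wD n (n + 1)}ᶜ : Set (Fin (n + 2))) (wD n i) (wD n j) := by
  have h1 := fd_lo n n hn le_rfl
  have e : {s : Fin (n + 2) | s.1 ≤ n} = ({wD n (n + 1)}ᶜ : Set (Fin (n + 2))) := by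
    ext s
    have hs := s.2
    constructor
    · rintro hs' rfl
      have h2 : (wD n (n + 1)).1 ≤ n := hs'
      rw [wD_val (by omega)] at h2
      omega
    · intro hs'
      show s.1 ≤ n
      by_contra h2
      exact hs' (Fin.ext (by rw [wD_val (by omega)]; omega))
  rw [e] at h1
  have hi' : wD n i ∈ ({wD n (n + 1)}ᶜ : Set (Fin (n + 2))) := wD_ne (by omega) (by omega) (by omega)
  have hj' : wD n j ∈ ({wD n (n + 1)}ᶜ : Set (Fin (n + 2))) := wD_ne (by omega) (by omega) (by omega)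
  have h3 : 3 ≤ resM (Dm n) ({wD n (n + 1)}ᶜ : Set (Fin (n + 2))) ⟨wD n i, hi'⟩ ⟨wD n j, hj'⟩ := by
    show 3 ≤ Dm n (wD n i) (wD n j)
    rw [dm_lab hij (by omega), if_pos]
    unfold Ed
    omega
  have h4 := gs_fin (resM (Dm n) ({wD n (n + 1)}ᶜ : Set (Fin (n + 2)))) h3
  have h5 := (gs_res ({wD n (n + 1)}ᶜ : Set (Fin (n + 2))) Set.univ ⟨wD n i, hi'⟩ ⟨wD n j, hj'⟩).1 h4
  rwa [Set.image_univ, Subtype.range_coe] at h5

/-- girth of an edge from the edge above -/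
theorem Dt.gs (d : Dt M n v I F Θ κ ι) {i j : ℕ} (hij : i < j) (hj : j ≤ n) (he : (j = i + 1 ∧ 1 ≤ i) ∨ (i = 0 ∧ j = 2))
    (d1 : ∀ x ∈ ap M ({v i}ᶜ : Set B), κ (F.fa x) ∈ ap (Dm n) ({wD n j}ᶜ : Set (Fin (n + 2))) → x ∈ ap M ({v j}ᶜ : Set B))
    (d2 : ∀ x ∈ ap M ({v j}ᶜ : Set B), κ (F.fa x) ∈ ap (Dm n) ({wD n i}ᶜ : Set (Fin (n + 2))) → x ∈ ap M ({v i}ᶜ : Set B)) :
    GS M Set.univ (v i) (v j) := by
  have hn := d.bd.three
  have hup : ∀ {k : ℕ}, k ≤ n → ∀ {g : Art M}, g ∈ ap M ({v k}ᶜ : Set B) →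
      κ (F.fa g) ∈ ap (Dm n) (({wD n (n + 1)}ᶜ : Set (Fin (n + 2))) \ {wD n k}) := by
    intro k hk g hg
    refine ap_mono ?_ (d.up hg)
    rintro s ⟨hs, hs'⟩
    refine ⟨?_, ?_⟩
    · rintro rfl
      rw [wD_val (by omega)] at hs
      omega
    · rintro rfl
      refine hs' ?_
      rw [Set.mem_singleton_iff, d.ipi, wD_val (by omega), min_eq_left hk]
  intro x hx x' hx' y hy y' hy' he'
  rw [univ_diff] at hx hx' hy hy'
  have e1 : ({v i}ᶜ ∩ {v j}ᶜ : Set B) = Set.univ \ {v i, v j} := by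
    ext j
    simp only [Set.mem_inter_iff, Set.mem_compl_iff, Set.mem_singleton_iff, Set.mem_sdiff, Set.mem_univ, Set.mem_insert_iff, true_and,
      not_or]
  have e2 : ({wD n j}ᶜ : Set (Fin (n + 2))) ⊇ ({wD n (n + 1)}ᶜ : Set (Fin (n + 2))) \ {wD n i, wD n j} := by
    rintro k ⟨-, hk⟩ rfl
    exact hk (Or.inr rfl)
  have e3 : ({wD n i}ᶜ : Set (Fin (n + 2))) ⊇ ({wD n (n + 1)}ᶜ : Set (Fin (n + 2))) \ {wD n i, wD n j} := by
    rintro k ⟨-, hk⟩ rfl
    exact hk (Or.inl rfl)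
  have h1 := gs_dm hn hij hj he (κ (F.fa x)) (hup (by omega) hx) (κ (F.fa x')) (hup (by omega) hx')
    (κ (F.fa y)) (hup (by omega) hy) (κ (F.fa y')) (hup (by omega) hy') (by
      rw [← _root_.map_mul, ← _root_.map_mul, ← _root_.map_mul, ← _root_.map_mul, ← _root_.map_mul, ← _root_.map_mul, he',
        _root_.map_one, _root_.map_one])
  rw [← e1, ← ap_inter]
  rcases h1 with h1 | h1
  · exact Or.inl ⟨hx, d1 x hx (ap_mono e2 h1)⟩
  · exact Or.inr ⟨d2 y hy (ap_mono e3 h1), hy⟩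

/-- the nodes after `v i` -/
theorem Dt.pre (d : Dt M n v I F Θ κ ι) (i : ℕ) : I.pi ⁻¹' {b | ∃ j, i < j ∧ j ≤ n ∧ v j = b} = {s : Fin (n + 2) | i < s.1 ∧ i < n} := by
  ext s
  have hs2 := s.2
  rw [Set.mem_preimage, d.ipi]
  constructor
  · rintro ⟨j, hj, hjn, e⟩
    have := d.bd.inj j hjn (min s.1 n) (by omega) e
    exact ⟨by omega, by omega⟩
  · rintro ⟨hs, hi⟩
    exact ⟨min s.1 n, by omega, by omega, rfl⟩

theorem Dt.pre' (d : Dt M n v I F Θ κ ι) {i : ℕ} (hi : i < n) : I.pi ⁻¹' {b | ∃ j ≤ i, v j = b} = {s : Fin (n + 2) | s.1 ≤ i} := by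
  ext s
  have hs2 := s.2
  rw [Set.mem_preimage, d.ipi]
  constructor
  · rintro ⟨j, hj, e⟩
    have := d.bd.inj j (by omega) (min s.1 n) (by omega) e
    show s.1 ≤ i
    omega
  · intro hs
    have hs' : s.1 ≤ i := hs
    exact ⟨min s.1 n, by omega, rfl⟩

theorem Dt.piw (d : Dt M n v I F Θ κ ι) {i : ℕ} (hi : i ≤ n) : I.pi (wD n i) = v i := by
  rw [d.ipi, wD_val (by omega), min_eq_left hi]

/-- the nodes before `v (i + 1)` -/
theorem Dt.d2 (d : Dt M n v I F Θ κ ι) {i : ℕ} (h1 : 1 ≤ i) (hi : i < n) {x : Art M} (hx : x ∈ ap M ({v (i + 1)}ᶜ : Set B))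
    (h : κ (F.fa x) ∈ ap (Dm n) ({wD n i}ᶜ : Set (Fin (n + 2)))) : x ∈ ap M ({v i}ᶜ : Set B) := by
  have hn := d.bd.three
  have hin : v (i + 1) ∉ {b | ∃ j ≤ i, v j = b} := by
    rintro ⟨j, hj, e⟩
    have := d.bd.inj j (by omega) (i + 1) (by omega) e
    omega
  have hvn : v n ∉ {b | ∃ j ≤ i, v j = b} := by
    rintro ⟨j, hj, e⟩
    have := d.bd.inj j (by omega) n (by omega) e
    omega
  have h2 := d.dq (r := v (i + 1)) (J := {b | ∃ j ≤ i, v j = b}) ?_ hin ?_ hx (t := wD n i) ?_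
    (fun y hy _ hy' => d.hk1 hvn y hy hy') h
  · rwa [d.piw hi.le] at h2
  · rintro _ ⟨j, hj, rfl⟩ b hb hbr
    obtain ⟨k, hk, rfl⟩ := d.bd.surj b
    have hki : i < k := by
      by_contra h3
      exact hb ⟨k, by omega, rfl⟩
    have hki' : k ≠ i + 1 := fun e => hbr (by rw [e])
    rw [d.bd.lab j k (by omega) hk, if_neg (by omega)]
  · rw [d.pre' hi]
    exact fd_lo n i hn hi.le
  · rw [d.piw hi.le]
    exact ⟨i, le_rfl, rfl⟩

/-- girth of the edges -/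
theorem gs_bd (h : Bd M n v) {i j : ℕ} (hij : i < j) (hj : j ≤ n) (he : (j = i + 1 ∧ 1 ≤ i) ∨ (i = 0 ∧ j = 2)) :
    GS M Set.univ (v i) (v j) := by
  -- the edge `(0, 2)`
  have key : ∀ v : ℕ → B, Bd M n v → GS M Set.univ (v 0) (v 2) := by
    intro v h
    obtain ⟨I, F, Θ, κ, ι, d⟩ := exists_dt h
    have hn := h.three
    refine d.gs (by omega) (by omega) (Or.inr ⟨rfl, rfl⟩) ?_ ?_
    · intro x hx hx'
      have h2 := d.dq (r := v 0) (J := {b | ∃ j, 0 < j ∧ j ≤ n ∧ v j = b}) ?_ ?_ ?_ hx (t := wD n 2) ?_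
        (fun y hy hi hy' => d.hk2 (i := 0) (by rw [wD_val (by omega)]; omega) (by rw [wD_val (by omega)]; omega) y ?_ hi hy') hx'
      · rwa [d.piw (by omega)] at h2
      · rintro _ ⟨j, hj, hjn, rfl⟩ b hb hbr
        obtain ⟨k, hk, rfl⟩ := h.surj b
        exfalso
        refine hb ⟨k, ?_, hk, rfl⟩
        rcases Nat.eq_zero_or_pos k with e | h3
        · exact absurd (by rw [e]) hbr
        · exact h3
      · rintro ⟨j, hj, hjn, e⟩
        exact absurd (h.inj j hjn 0 (by omega) e) (by omega)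
      · rw [d.pre]
        have e : {s : Fin (n + 2) | 0 < s.1 ∧ 0 < n} = {s : Fin (n + 2) | 0 < s.1} := by
          ext s
          simp only [Set.mem_ofPred_eq]
          omega
        rw [e]
        exact fd_up n 0 hn (by omega)
      · rw [d.piw (by omega)]
        exact ⟨2, by omega, by omega, rfl⟩
      · rw [d.pre] at hy
        exact ap_mono (fun s hs => hs.1) hy
    · intro x hx hx'
      have h2 := d.dq (r := v 2) (J := {b | ∃ j ≤ 0, v j = b}) ?_ ?_ ?_ hx (t := wD n 0) ?_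
        (fun y hy _ hy' => d.hk1 ?_ y hy hy') hx'
      · rwa [d.piw (by omega)] at h2
      · rintro _ ⟨j, hj, rfl⟩ b hb hbr
        obtain ⟨k, hk, rfl⟩ := h.surj b
        obtain rfl : j = 0 := by omega
        have hk0 : k ≠ 0 := fun e => hb ⟨0, le_rfl, by rw [e]⟩
        have hk2 : k ≠ 2 := fun e => hbr (by rw [e])
        rw [h.lab 0 k (by omega) hk, if_neg (by omega)]
      · rintro ⟨j, hj, e⟩
        exact absurd (h.inj j (by omega) 2 (by omega) e) (by omega)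
      · rw [d.pre' (by omega)]
        exact fd_lo n 0 hn (by omega)
      · rw [d.piw (by omega)]
        exact ⟨0, le_rfl, rfl⟩
      · rintro ⟨j, hj, e⟩
        exact absurd (h.inj j (by omega) n (by omega) e) (by omega)
  have hn := h.three
  rcases he with ⟨rfl, hi1⟩ | ⟨rfl, rfl⟩
  swap
  · exact key v h
  rcases Nat.eq_or_lt_of_le hi1 with e1 | hi2
  · have h2 := key _ h.sw
    have e0 : (if (0 : ℕ) = 0 then v 1 else if (0 : ℕ) = 1 then v 0 else v 0) = v 1 := if_pos rfl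
    have e2 : (if (2 : ℕ) = 0 then v 1 else if (2 : ℕ) = 1 then v 0 else v 2) = v 2 := by
      rw [if_neg (by norm_num), if_neg (by norm_num)]
    rw [e0, e2] at h2
    rw [← e1]
    exact h2
  obtain ⟨I, F, Θ, κ, ι, d⟩ := exists_dt h
  refine d.gs (by omega) hj (Or.inl ⟨rfl, hi1⟩) ?_ (fun x hx hx' => d.d2 hi1 (by omega) hx hx')
  intro x hx hx'
  have hJ : ∀ a ∈ {b | ∃ j, i < j ∧ j ≤ n ∧ v j = b}, ∀ b, b ∉ {b | ∃ j, i < j ∧ j ≤ n ∧ v j = b} → b ≠ v i → M a b = 2 := by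
    rintro _ ⟨j, hj, hjn, rfl⟩ b hb hbr
    obtain ⟨k, hk, rfl⟩ := h.surj b
    have hki : k ≤ i := by
      by_contra h3
      exact hb ⟨k, by omega, hk, rfl⟩
    have hki' : k ≠ i := fun e => hbr (by rw [e])
    rw [M.symmetric, h.lab k j (by omega) hjn, if_neg (by omega)]
  have hr : v i ∉ {b | ∃ j, i < j ∧ j ≤ n ∧ v j = b} := by
    rintro ⟨j, hj, hjn, e⟩
    exact absurd (h.inj j hjn i (by omega) e) (by omega)
  have hf : Finite (resM (Dm n) (I.pi ⁻¹' {b | ∃ j, i < j ∧ j ≤ n ∧ v j = b})).Group := by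
    rw [d.pre]
    have e : {s : Fin (n + 2) | i < s.1 ∧ i < n} = {s : Fin (n + 2) | i < s.1} := by
      ext s
      simp only [Set.mem_ofPred_eq]
      omega
    rw [e]
    exact fd_up n i hn (by omega)
  have ht : I.pi (wD n (i + 1)) ∈ {b | ∃ j, i < j ∧ j ≤ n ∧ v j = b} := by
    rw [d.piw hj]
    exact ⟨i + 1, by omega, hj, rfl⟩
  have h2 := d.dq (r := v i) hJ hr hf hx (t := wD n (i + 1)) ht ?_ hx'
  · rwa [d.piw hj] at h2
  · intro y hy hi hy'
    rcases Nat.eq_or_lt_of_le hj with e | hlt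
    · have e2 : {b | ∃ j, i < j ∧ j ≤ n ∧ v j = b} = {v n} := by
        ext b
        constructor
        · rintro ⟨j, hj, hjn, rfl⟩
          rw [show j = n by omega]
          rfl
        · rintro rfl
          exact ⟨n, by omega, le_rfl, rfl⟩
      rw [e2] at hy
      rw [e] at hy' ⊢
      exact d.hk3 y hy hi hy'
    · rw [d.pre] at hy
      exact d.hk2 (i := i) (by rw [wD_val (by omega)]; omega) (by rw [wD_val (by omega)]; omega) y (ap_mono (fun s hs => hs.1) hy) hi hy'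

end Pool.Agent.H75.BT
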