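import Pool.Agent.H75.BT.Wd

/-!
# [H75 BT EV] The six-cycle lemma in the free group (60 min)

`W' = Wl m`, `b = a_m`, `r = a_(m+1) b⁻¹`, so `V m : b ↦ r b`, `r ↦ r` (`vV_self`, `vV_succ`), and `(V m ^ k) b = r ^ k b` for `k : ℤ` (induction, `Int.induction_on` or `zpow`), `(V m ^ k) a_j = a_j` for `j < m`.
Affine action: `N = (W ⧸ W') → ℤ` (all functions). For `g : W` let `D g : N`, `D g x = (if x = ↑g then 1 else 0) - (if x = ↑(1 : W) then 1 else 0)` (cosets `QuotientGroup.mk`, `Classical`), and `(g • f) x = f (g⁻¹ • x)` (left action of `W` on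
`W ⧸ W'`, `MulAction.Quotient`, `smul` on functions written out). `D (g h) = D g + g • D h`.
`A g d : Equiv.Perm N`, `f ↦ g • f + d`. `Ψ : W →* Equiv.Perm N := FreeGroup.lift` with `Ψ a_j = A a_j 0` for `j ≤ m` (any value for `j > m + 1`) and `Ψ a_(m+1) = A b (D b)`. Then `Ψ r = A 1 (D b)`, `Ψ (r ^ k b) = A b (k • D b)`.
Claim: `Ψ ((V m ^ k) u) = A u (k • D u)` for `u ∈ Wl (m + 1)`: `Subgroup.closure_induction` (generators `a_j`, `j < m`: `D a_j = 0` because `↑a_j = ↑1`, `a_j ∈ W'`; `b`; products: `A g (k D g) * A h (k D h) = A (g h) (k D g + g • k D h)`; inverses).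
(It may be easier to prove the claim for the values only: `Ψ ((V m ^ k) u) f = u • f + k • D u` for all `f`.)
Evaluate `Ψ (he)` at `f = 0`: `k • D u₀ + u₀ • (l • D u₁) + 0 = 0` (the third factor has exponent `0`: `Ψ u₂ 0 = u₂ • 0 + 0 • D u₂ = 0`). Let `A = ↑1`, `B = ↑u₀`, `C = ↑(u₀ u₁)` (cosets): `k (δ_B - δ_A) + l (δ_C - δ_B) = 0`.
If `A ≠ B`: the value at `A` is `-k + l [A = C] = 0`: if `A ≠ C` then `k = 0`; if `A = C` then `l = k`: contradiction. So `A = B`: `u₀ ∈ W'` (`QuotientGroup.eq`).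
-/

set_option autoImplicit false

namespace Pool.Agent.H75.BT

open FreeGroup

open Classical in
/-- the cocycle -/
private noncomputable def dd (m : ℕ) (g : W) (x : W ⧸ Wl m) : ℤ :=
  (if x = (g : W ⧸ Wl m) then 1 else 0) - (if x = ((1 : W) : W ⧸ Wl m) then 1 else 0)

private theorem smul_coe (m : ℕ) (g h : W) : g • (h : W ⧸ Wl m) = ((g * h : W) : W ⧸ Wl m) := rfl

private theorem inv_smul_eq (m : ℕ) (g h : W) (x : W ⧸ Wl m) :
    g⁻¹ • x = (h : W ⧸ Wl m) ↔ x = ((g * h : W) : W ⧸ Wl m) := by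
  rw [inv_smul_eq_iff, smul_coe]

private theorem dd_mul (m : ℕ) (g h : W) (x : W ⧸ Wl m) : dd m (g * h) x = dd m g x + dd m h (g⁻¹ • x) := by
  have e1 := inv_smul_eq m g h x
  have e2 := inv_smul_eq m g 1 x
  rw [mul_one] at e2
  unfold dd
  by_cases h1 : x = ((g * h : W) : W ⧸ Wl m) <;> by_cases h2 : x = (g : W ⧸ Wl m)
  · rw [if_pos h1, if_pos h2, if_pos (e1.2 h1), if_pos (e2.2 h2)]
    ring
  · rw [if_pos h1, if_neg h2, if_pos (e1.2 h1), if_neg (fun h => h2 (e2.1 h))]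
    ring
  · rw [if_neg h1, if_pos h2, if_neg (fun h => h1 (e1.1 h)), if_pos (e2.2 h2)]
    ring
  · rw [if_neg h1, if_neg h2, if_neg (fun h => h1 (e1.1 h)), if_neg (fun h => h2 (e2.1 h))]
    ring

private theorem dd_one (m : ℕ) (x : W ⧸ Wl m) : dd m 1 x = 0 := by
  unfold dd
  ring

private theorem dd_mem {m : ℕ} {g : W} (h : g ∈ Wl m) (x : W ⧸ Wl m) : dd m g x = 0 := by
  have h1 : (g : W ⧸ Wl m) = ((1 : W) : W ⧸ Wl m) := by
    rw [QuotientGroup.eq, mul_one]
    exact inv_mem h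
  unfold dd
  rw [h1]
  ring

/-- affine maps -/
private noncomputable def pm (m : ℕ) (g : W) (d : W ⧸ Wl m → ℤ) : Equiv.Perm (W ⧸ Wl m → ℤ) where
  toFun f := fun x => f (g⁻¹ • x) + d x
  invFun f := fun x => f (g • x) - d (g • x)
  left_inv f := by
    funext x
    simp only [inv_smul_smul]
    ring
  right_inv f := by
    funext x
    simp only [smul_inv_smul]
    ring

private theorem pm_apply (m : ℕ) (g : W) (d : W ⧸ Wl m → ℤ) (f : W ⧸ Wl m → ℤ) (x : W ⧸ Wl m) :
    pm m g d f x = f (g⁻¹ • x) + d x := rfl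

private theorem pm_symm (m : ℕ) (g : W) (d : W ⧸ Wl m → ℤ) (f : W ⧸ Wl m → ℤ) (x : W ⧸ Wl m) :
    (pm m g d)⁻¹ f x = f (g • x) - d (g • x) := rfl

/-- the action -/
private noncomputable def psi (m : ℕ) : W →* Equiv.Perm (W ⧸ Wl m → ℤ) :=
  FreeGroup.lift fun j => if j = m + 1 then pm m (of m) (dd m (of m)) else pm m (of j) 0

private theorem psi_of {m j : ℕ} (h : j ≠ m + 1) : psi m (of j) = pm m (of j) 0 := by
  unfold psi
  rw [FreeGroup.lift_apply_of, if_neg h]

private theorem psi_succ (m : ℕ) : psi m (of (m + 1)) = pm m (of m) (dd m (of m)) := by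
  unfold psi
  rw [FreeGroup.lift_apply_of, if_pos rfl]

/-- the fixed element `r` -/
private noncomputable def rr (m : ℕ) : W := of (m + 1) * (of m)⁻¹

private theorem v_rr (m : ℕ) (k : ℤ) : (vV m ^ k) (rr m) = rr m := by
  have h1 : vV m ∈ MulAction.stabilizer (MulAut W) (rr m) := by
    rw [MulAction.mem_stabilizer_iff, MulAut.smul_def]
    unfold rr
    rw [_root_.map_mul, _root_.map_inv, vV_self, vV_succ]
    group
  exact MulAction.mem_stabilizer_iff.1 (Subgroup.zpow_mem _ h1 k)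

private theorem v_lt {m j : ℕ} (h : j < m) (k : ℤ) : (vV m ^ k) (of j) = of j := by
  have h1 : vV m ∈ MulAction.stabilizer (MulAut W) (of j : W) := by
    rw [MulAction.mem_stabilizer_iff, MulAut.smul_def]
    exact vV_ne (by omega) (by omega)
  exact MulAction.mem_stabilizer_iff.1 (Subgroup.zpow_mem _ h1 k)

private theorem v_b (m : ℕ) (k : ℤ) : (vV m ^ k) (of m) = rr m ^ k * of m := by
  have hb : vV m (of m) = rr m * of m := by
    rw [vV_self]
    unfold rr
    group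
  have hb' : (vV m)⁻¹ (of m) = (rr m)⁻¹ * of m := by
    have h1 : vV m ((rr m)⁻¹ * of m) = of m := by
      have h2 := v_rr m 1
      rw [zpow_one] at h2
      rw [_root_.map_mul, _root_.map_inv, h2, hb, inv_mul_cancel_left]
    conv_lhs => rw [← h1]
    rw [MulAut.inv_apply_self]
  induction k using Int.induction_on with
  | zero => rw [zpow_zero, zpow_zero, one_mul, MulAut.one_apply]
  | succ k ih =>
    rw [zpow_add_one, MulAut.mul_apply, hb, _root_.map_mul, v_rr, ih, ← mul_assoc, zpow_add_one]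
    congr 1
    exact (Commute.refl (rr m)).zpow_right _
  | pred k ih =>
    rw [zpow_sub_one, MulAut.mul_apply, hb', _root_.map_mul, _root_.map_inv, v_rr, ih, ← mul_assoc, zpow_sub_one]
    congr 1
    exact (Commute.refl (rr m)).inv_left.zpow_right _

private theorem psi_rr (m : ℕ) (f : W ⧸ Wl m → ℤ) (x : W ⧸ Wl m) :
    psi m (rr m) f x = f x + dd m (of m) x := by
  unfold rr
  rw [_root_.map_mul, _root_.map_inv, psi_succ, psi_of (by omega), Equiv.Perm.mul_apply, pm_apply, pm_symm, smul_inv_smul]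
  simp

private theorem psi_rr_zpow (m : ℕ) (k : ℤ) (f : W ⧸ Wl m → ℤ) (x : W ⧸ Wl m) :
    psi m (rr m ^ k) f x = f x + k * dd m (of m) x := by
  induction k using Int.induction_on generalizing f with
  | zero => simp
  | succ k ih =>
    rw [zpow_add_one, _root_.map_mul, Equiv.Perm.mul_apply, ih, psi_rr]
    ring
  | pred k ih =>
    rw [zpow_sub_one, _root_.map_mul, Equiv.Perm.mul_apply, ih]
    have h1 := psi_rr m (psi m (rr m)⁻¹ f) x
    rw [← Equiv.Perm.mul_apply, ← _root_.map_mul, mul_inv_cancel, _root_.map_one, Equiv.Perm.one_apply] at h1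
    linarith

private theorem claim (m : ℕ) (k : ℤ) {u : W} (hu : u ∈ Wl (m + 1)) : ∀ (f : W ⧸ Wl m → ℤ) (x : W ⧸ Wl m),
    psi m ((vV m ^ k) u) f x = f (u⁻¹ • x) + k * dd m u x := by
  unfold Wl at hu
  induction hu using Subgroup.closure_induction with
  | mem u hu =>
    obtain ⟨j, hj, rfl⟩ := hu
    intro f x
    have hj' : j < m + 1 := hj
    rcases Nat.lt_or_ge j m with h1 | h1
    · rw [v_lt h1, psi_of (by omega), pm_apply, dd_mem (of_mem h1), mul_zero]
      rfl
    · obtain rfl : j = m := by omega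
      rw [v_b, _root_.map_mul, Equiv.Perm.mul_apply, psi_rr_zpow, psi_of (by omega), pm_apply]
      simp
  | one =>
    intro f x
    rw [_root_.map_one, _root_.map_one, Equiv.Perm.one_apply, inv_one, one_smul, dd_one, mul_zero, add_zero]
  | mul g h _ _ ihg ihh =>
    intro f x
    rw [_root_.map_mul, _root_.map_mul, Equiv.Perm.mul_apply, ihg, ihh, dd_mul, mul_inv_rev, mul_smul]
    ring
  | inv g _ ih =>
    intro f x
    have h1 := ih (psi m ((vV m ^ k) g⁻¹) f) (g • x)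
    rw [← Equiv.Perm.mul_apply, ← _root_.map_mul, ← _root_.map_mul, mul_inv_cancel, _root_.map_one, _root_.map_one,
      Equiv.Perm.one_apply, inv_smul_smul] at h1
    have h2 := dd_mul m g g⁻¹ (g • x)
    rw [mul_inv_cancel, dd_one, inv_smul_smul] at h2
    rw [inv_inv]
    have h3 : dd m g⁻¹ x = - dd m g (g • x) := by linarith
    rw [h3]
    linarith

theorem ev {m : ℕ} {u₀ u₁ u₂ : W} (h0 : u₀ ∈ Wl (m + 1)) (h1 : u₁ ∈ Wl (m + 1)) (h2 : u₂ ∈ Wl (m + 1)) {k l : ℤ} (hk : k ≠ 0)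
    (hkl : k ≠ l) (he : (vV m ^ k) u₀ * (vV m ^ l) u₁ * u₂ = 1) : u₀ ∈ Wl m := by
  by_contra hne
  have hx : ∀ x, l * dd m u₁ (u₀⁻¹ • x) + k * dd m u₀ x = 0 := by
    intro x
    have e1 : psi m ((vV m ^ k) u₀ * (vV m ^ l) u₁ * u₂) 0 x = (0 : W ⧸ Wl m → ℤ) x := by
      rw [he, _root_.map_one, Equiv.Perm.one_apply]
    have e2 : psi m u₂ 0 = 0 := by
      funext y
      have h3 := claim m 0 h2 0 y
      rw [zpow_zero, MulAut.one_apply, zero_mul, add_zero] at h3
      exact h3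
    rw [_root_.map_mul, _root_.map_mul, Equiv.Perm.mul_apply, Equiv.Perm.mul_apply, e2, claim m k h0, claim m l h1] at e1
    simp only [Pi.zero_apply, zero_add] at e1
    exact e1
  have h3 := hx ((1 : W) : W ⧸ Wl m)
  have hne1 : ((1 : W) : W ⧸ Wl m) ≠ (u₀ : W ⧸ Wl m) := by
    intro h4
    rw [QuotientGroup.eq, inv_one, one_mul] at h4
    exact hne h4
  have h4 : dd m u₀ ((1 : W) : W ⧸ Wl m) = -1 := by
    unfold dd
    rw [if_neg hne1, if_pos rfl]
    ring
  have h5 : dd m u₁ (u₀⁻¹ • ((1 : W) : W ⧸ Wl m)) = 0 ∨ dd m u₁ (u₀⁻¹ • ((1 : W) : W ⧸ Wl m)) = 1 := by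
    have h6 : u₀⁻¹ • ((1 : W) : W ⧸ Wl m) ≠ ((1 : W) : W ⧸ Wl m) := by
      rw [Ne, inv_smul_eq, mul_one]
      exact hne1
    unfold dd
    rw [if_neg h6]
    split_ifs
    · right
      ring
    · left
      ring
  rw [h4] at h3
  rcases h5 with h5 | h5
  · rw [h5] at h3
    apply hk
    linarith
  · rw [h5] at h3
    apply hkl
    linarith

end Pool.Agent.H75.BT
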