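import Pool.Agent.H75.BT.Co
import Pool.Agent.H75.BT.Di

/-!
# [H75 BT HM] The homomorphisms (60 min)

`exists_rb`: `hom_of` twice. `Θ`: `f 0 = inl (of 0)⁻¹ * inr T`, `f 1 = inr T`, `f (i + 2) = inr (V i)` for `i + 2 < n`, `f n = inr (V (n - 2) ^ 2)`. The relations: `inr` is a homomorphism, so all relations not containing `f 0` are relations in `Aut W`:
`tv`, `tv'`, `vv`, `vv'`; label `4`: `x = V (n - 3)`, `y = V (n - 2)`: `x y² x y² = y² x y² x` from `x y x = y x y` (`x y² x y² = x y (y x y) y = x y x y x y`, `y² x y² x = y (y x y) y x = y x y x y x`, and `(x y x)(y x y) = (y x y)(x y x)`). With `f 0`: it commutes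
with `f 1` (`inr T` fixes `a_0`), with `f (i + 2)`, `i ≥ 1` and with `f n` if `n ≥ 4` (`V i`, `V (n - 2)` fix `a_0` and commute with `T`; for `n = 3`, `f 3 = inr (V 1 ^ 2)`, the same), and `f 0 f 2 f 0 = f 2 f 0 f 2`, `f 2 = inr (V 0)` (`2 < n`): both sides are
`(a_0⁻¹ · (T V_0)(a_0)⁻¹, T V_0 T)` and `(V_0(a_0)⁻¹, V_0 T V_0)` (`SemidirectProduct.ext`, `mul_left`, `mul_right`): `a_0⁻¹ (T a_1)⁻¹ = a_0⁻¹ (a_1 a_0⁻¹)⁻¹ = a_1⁻¹`.
`κ`: `f 0 = gen (v 1)`, `f i = gen (v i)` otherwise; relations: `gen_rel`, and for `(0, j)` the label is the label of `(1, j)` for `j ≥ 2` (`h.lab`), `(0, 1)`: both sides `gen (v 1)`'s.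
`exists_rd`: `hom_of` with `v = wD n` and `n + 1` (`wD_eq`, `wD_val`). `Θ`: `f n = inr T`, `f (n + 1) = inl (of 0)⁻¹ * inr T`, `f j = inr (V (n - 1 - j))` for `1 ≤ j ≤ n - 1`, `f 0 = inr (V (n - 2))`. Label of `(0, 1)` is `2`: `f 0 = f 1`. `κ`: `f (n + 1) = gen (wD n n)`.
`ι`: exchanges `n` and `n + 1` (the labels are symmetric).
-/

set_option autoImplicit false

namespace Pool.Agent.H75.BT

open FreeGroup Pool.H8.CDW Pool.Agent.H52.PAG Pool.Agent.H75.INF Pool.Agent.H54.TF Pool.Agent.H54.CT Pool.Agent.H2.UF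

variable {B : Type} {M : CoxeterMatrix B} {n : ℕ} {v : ℕ → B}

private theorem alt_cm {G : Type*} [Group G] {x y : G} (h : x * y = y * x) : alt x y 2 = alt y x 2 := by
  simpa [alt] using h

private theorem alt_br {G : Type*} [Group G] {x y : G} (h : x * y * x = y * x * y) :
    alt x y 3 = alt y x 3 := by
  simpa [alt, mul_assoc] using h

private theorem alt_sq {G : Type*} [Group G] {x y : G} (h : x * y * x = y * x * y) :
    alt x (y ^ 2) 4 = alt (y ^ 2) x 4 := by
  have h1 : x * y ^ 2 * x * y ^ 2 = y ^ 2 * x * y ^ 2 * x := by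
    rw [pow_two]
    calc x * (y * y) * x * (y * y) = x * y * (y * x * y) * y := by simp only [mul_assoc]
      _ = x * y * (x * y * x) * y := by rw [h]
      _ = (x * y * x) * (y * x * y) := by simp only [mul_assoc]
      _ = (y * x * y) * (x * y * x) := by rw [h]
      _ = y * (x * y * x) * y * x := by simp only [mul_assoc]
      _ = y * (y * x * y) * y * x := by rw [h]
      _ = (y * y) * x * (y * y) * x := by simp only [mul_assoc]
  simpa [alt, mul_assoc] using h1

private theorem alt_inr {x y : MulAut W} {m : ℕ} (h : alt x y m = alt y x m) :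
    alt (SemidirectProduct.inr x : X) (SemidirectProduct.inr y) m =
      alt (SemidirectProduct.inr y : X) (SemidirectProduct.inr x) m := by
  rw [← map_alt, ← map_alt, h]

private noncomputable def qq : X := SemidirectProduct.inl (of 0)⁻¹ * SemidirectProduct.inr tT

private theorem qq_cm {y : MulAut W} (h0 : y (of 0) = of 0) (h : tT * y = y * tT) :
    qq * (SemidirectProduct.inr y : X) = (SemidirectProduct.inr y : X) * qq := by
  unfold qq
  refine SemidirectProduct.ext ?_ ?_
  · simp [SemidirectProduct.mul_left, h0]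
  · simpa [SemidirectProduct.mul_right] using h

private theorem qq_br :
    qq * (SemidirectProduct.inr (vV 0) : X) * qq =
      (SemidirectProduct.inr (vV 0) : X) * qq * (SemidirectProduct.inr (vV 0) : X) := by
  have a0 := vV_self 0
  have h3 := tT_succ 0
  rw [zero_add] at a0 h3
  unfold qq
  refine SemidirectProduct.ext ?_ ?_
  · simp [SemidirectProduct.mul_left, a0, h3]
  · simpa [SemidirectProduct.mul_right] using tv

private theorem vv_z (i : ℕ) : vV (i + 1) (of 0) = of 0 := vV_ne (by omega) (by omega)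

private theorem cm_sq {G : Type*} [Group G] {x y : G} (h : x * y = y * x) : x * y ^ 2 = y ^ 2 * x := by
  rw [pow_two, ← mul_assoc, h, mul_assoc, h, mul_assoc]

theorem exists_rb (h : Bd M n v) : ∃ (Θ : Art M →* X) (κ : Art M →* Art M),
    Rp (gen M (v 1)) (gen M (v 0)) (fun i => gen M (v (i + 2))) (n - 2) Θ κ ∧
    Θ (gen M (v n)) = SemidirectProduct.inr (vV (n - 2) ^ 2) ∧ κ (gen M (v n)) = gen M (v n) := by
  have h3 := h.three
  have hinj := h.inj
  have hsurj := h.surj
  obtain ⟨F, hF⟩ : ∃ F : ℕ → X, ∀ i, F i = if i = 0 then qq else if i = 1 then SemidirectProduct.inr tT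
      else if i = n then SemidirectProduct.inr (vV (n - 2) ^ 2) else SemidirectProduct.inr (vV (i - 2)) :=
    ⟨_, fun _ => rfl⟩
  have F0 : F 0 = qq := by rw [hF, if_pos rfl]
  have F1 : F 1 = SemidirectProduct.inr tT := by rw [hF, if_neg (by omega), if_pos rfl]
  have Fn : F n = SemidirectProduct.inr (vV (n - 2) ^ 2) := by
    rw [hF, if_neg (by omega), if_neg (by omega), if_pos rfl]
  have Fi : ∀ i, i + 2 < n → F (i + 2) = SemidirectProduct.inr (vV i) := by
    intro i hi
    rw [hF, if_neg (by omega), if_neg (by omega), if_neg (by omega)]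
    rfl
  obtain ⟨k, rfl⟩ : ∃ k, n = k + 3 := ⟨n - 3, by omega⟩
  have e1 : k + 3 - 2 = k + 1 := by omega
  rw [e1] at Fn
  obtain ⟨Θ, hΘ⟩ := hom_of hinj hsurj F (by
    intro i j hij hj
    rw [h.lab i j hij hj]
    rcases i with _ | _ | i
    · rw [F0]
      rcases j with _ | _ | _ | j
      · omega
      · rw [if_neg (by omega), zero_add, F1]
        exact alt_cm (qq_cm tT_zero rfl)
      · rw [if_pos (by omega), if_neg (by omega)]
        have e2 := Fi 0 (by omega)
        rw [show (0 + 1 + 1 : ℕ) = 0 + 2 from rfl, e2]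
        exact alt_br qq_br
      · rw [if_neg (by omega)]
        by_cases hjn : j = k
        · subst hjn
          rw [Fn]
          refine alt_cm (qq_cm ?_ (cm_sq (tv' j)))
          rw [pow_two, MulAut.mul_apply, vv_z, vv_z]
        · have e2 := Fi (j + 1) (by omega)
          rw [show j + 1 + 1 + 1 = j + 1 + 2 from rfl, e2]
          exact alt_cm (qq_cm (vv_z j) (tv' j))
    · rw [zero_add, F1]
      rcases j with _ | _ | _ | j
      · omega
      · omega
      · rw [if_pos (by omega), if_neg (by omega)]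
        have e2 := Fi 0 (by omega)
        rw [show (0 + 1 + 1 : ℕ) = 0 + 2 from rfl, e2]
        exact alt_inr (alt_br tv)
      · rw [if_neg (by omega)]
        by_cases hjn : j = k
        · subst hjn
          rw [Fn]
          exact alt_inr (alt_cm (cm_sq (tv' j)))
        · have e2 := Fi (j + 1) (by omega)
          rw [show j + 1 + 1 + 1 = j + 1 + 2 from rfl, e2]
          exact alt_inr (alt_cm (tv' j))
    · obtain ⟨b, rfl⟩ : ∃ b, j = b + 2 := ⟨j - 2, by omega⟩
      rw [show i + 1 + 1 = i + 2 from rfl, Fi i (by omega)]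
      by_cases hb : b = k + 1
      · subst hb
        rw [show k + 1 + 2 = k + 3 from rfl, Fn]
        by_cases hik : i = k
        · subst hik
          rw [if_pos (by omega), if_pos rfl]
          exact alt_inr (alt_sq (vv i))
        · rw [if_neg (by omega)]
          exact alt_inr (alt_cm (cm_sq (vv' (by omega))))
      · rw [Fi b (by omega)]
        by_cases hib : b = i + 1
        · subst hib
          rw [if_pos (by omega), if_neg (by omega)]
          exact alt_inr (alt_br (vv i))
        · rw [if_neg (by omega)]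
          exact alt_inr (alt_cm (vv' (by omega))))
  obtain ⟨κ, hκ⟩ := hom_of hinj hsurj (fun i => if i = 0 then gen M (v 1) else gen M (v i)) (by
    intro i j hij hj
    have hj0 : j ≠ 0 := by omega
    simp only [if_neg hj0]
    by_cases hi : i = 0
    · subst hi
      rw [if_pos rfl]
      by_cases hj1 : j = 1
      · subst hj1
        rfl
      · have e2 : M (v 0) (v j) = M (v 1) (v j) := by
          rw [h.lab 0 j hij hj, h.lab 1 j (by omega) hj]
          congr 1
          apply propext
          omega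
        rw [e2]
        exact gen_rel (h.ne_zero _ _).1
    · rw [if_neg hi]
      exact gen_rel (h.ne_zero _ _).1)
  refine ⟨Θ, κ, ⟨?_, ?_, ?_, ?_, ?_, ?_⟩, ?_, ?_⟩
  · rw [hΘ 1 (by omega), F1]
  · rw [hΘ 0 (by omega), F0]
    rfl
  · intro i hi
    show Θ (gen M (v (i + 2))) = _
    rw [hΘ (i + 2) (by omega), Fi i (by omega)]
  · rw [hκ 1 (by omega), if_neg (by omega)]
  · rw [hκ 0 (by omega), if_pos rfl]
  · intro i hi
    show κ (gen M (v (i + 2))) = gen M (v (i + 2))
    rw [hκ (i + 2) (by omega), if_neg (by omega)]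
  · rw [hΘ (k + 3) le_rfl, Fn, e1]
  · rw [hκ (k + 3) le_rfl, if_neg (by omega)]

theorem exists_rd (hn : 3 ≤ n) : ∃ (Θ : Art (Dm n) →* X) (κ ι : Art (Dm n) →* Art (Dm n)),
    Rp (gen (Dm n) (wD n n)) (gen (Dm n) (wD n (n + 1))) (fun i => gen (Dm n) (wD n (n - 1 - i))) (n - 1) Θ κ ∧
    κ (gen (Dm n) (wD n 0)) = gen (Dm n) (wD n 0) ∧ ι (gen (Dm n) (wD n n)) = gen (Dm n) (wD n (n + 1)) ∧
    ι (gen (Dm n) (wD n (n + 1))) = gen (Dm n) (wD n n) ∧ ∀ i < n, ι (gen (Dm n) (wD n i)) = gen (Dm n) (wD n i) := by
  have hinj : ∀ i ≤ n + 1, ∀ j ≤ n + 1, wD n i = wD n j → i = j := by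
    intro i hi j hj hij
    by_contra hne
    exact wD_ne hi hj hne hij
  have hsurj : ∀ b : Fin (n + 2), ∃ i ≤ n + 1, wD n i = b := fun b =>
    ⟨b.1, by have := b.2; omega, wD_eq b⟩
  obtain ⟨F, hF⟩ : ∃ F : ℕ → X, ∀ i, F i = if i = 0 then SemidirectProduct.inr (vV (n - 2)) else
      if i = n + 1 then qq else if i = n then SemidirectProduct.inr tT
      else SemidirectProduct.inr (vV (n - 1 - i)) :=
    ⟨_, fun _ => rfl⟩
  have F0 : F 0 = SemidirectProduct.inr (vV (n - 2)) := by rw [hF, if_pos rfl]
  have Fm : F (n + 1) = qq := by rw [hF, if_neg (by omega), if_pos rfl]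
  have Fn : F n = SemidirectProduct.inr tT := by
    rw [hF, if_neg (by omega), if_neg (by omega), if_pos rfl]
  have Fi : ∀ i a, 1 ≤ i → i + a + 1 = n → F i = SemidirectProduct.inr (vV a) := by
    intro i a hi ha
    rw [hF, if_neg (by omega), if_neg (by omega), if_neg (by omega)]
    have e1 : n - 1 - i = a := by omega
    rw [e1]
  obtain ⟨Θ, hΘ⟩ := hom_of (M := Dm n) hinj hsurj F (by
    intro i j hij hj
    rw [dm_lab hij hj]
    unfold Ed
    by_cases hj1 : j = n + 1
    · subst hj1
      rw [Fm]
      by_cases hin : i = n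
      · subst hin
        rw [if_neg (by omega), Fn]
        exact (alt_cm (qq_cm tT_zero rfl)).symm
      · by_cases hi0 : i = 0
        · subst hi0
          rw [if_neg (by omega), F0]
          obtain ⟨a, ha⟩ : ∃ a, n - 2 = a + 1 := ⟨n - 3, by omega⟩
          rw [ha]
          exact (alt_cm (qq_cm (vv_z a) (tv' a))).symm
        · by_cases hi1 : i + 1 = n
          · rw [if_pos (by omega), Fi i 0 (by omega) (by omega)]
            exact (alt_br qq_br).symm
          · obtain ⟨a, ha⟩ : ∃ a, i + (a + 1) + 1 = n := ⟨n - 2 - i, by omega⟩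
            rw [if_neg (by omega), Fi i (a + 1) (by omega) ha]
            exact (alt_cm (qq_cm (vv_z a) (tv' a))).symm
    · by_cases hjn : j = n
      · subst hjn
        rw [Fn]
        by_cases hi0 : i = 0
        · subst hi0
          rw [if_neg (by omega), F0]
          obtain ⟨a, ha⟩ : ∃ a, j - 2 = a + 1 := ⟨j - 3, by omega⟩
          rw [ha]
          exact alt_inr (alt_cm (tv' a).symm)
        · by_cases hi1 : i + 1 = j
          · rw [if_pos (by omega), Fi i 0 (by omega) (by omega)]
            exact alt_inr (alt_br tv.symm)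
          · obtain ⟨a, ha⟩ : ∃ a, i + (a + 1) + 1 = j := ⟨j - 2 - i, by omega⟩
            rw [if_neg (by omega), Fi i (a + 1) (by omega) ha]
            exact alt_inr (alt_cm (tv' a).symm)
      · obtain ⟨b, hb⟩ : ∃ b, j + b + 1 = n := ⟨n - 1 - j, by omega⟩
        rw [Fi j b (by omega) hb]
        by_cases hi0 : i = 0
        · subst hi0
          rw [F0]
          by_cases hj2 : j = 1
          · have e2 : n - 2 = b := by omega
            rw [e2]
          · by_cases hj3 : j = 2
            · rw [if_pos (by omega)]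
              have e2 : n - 2 = b + 1 := by omega
              rw [e2]
              exact alt_inr (alt_br (vv b).symm)
            · rw [if_neg (by omega)]
              exact alt_inr (alt_cm (vv' (by omega)).symm)
        · obtain ⟨a, ha⟩ : ∃ a, i + a + 1 = n := ⟨n - 1 - i, by omega⟩
          rw [Fi i a (by omega) ha]
          by_cases hij1 : i + 1 = j
          · rw [if_pos (by omega)]
            have e2 : a = b + 1 := by omega
            rw [e2]
            exact alt_inr (alt_br (vv b).symm)
          · rw [if_neg (by omega)]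
            exact alt_inr (alt_cm (vv' (by omega)).symm))
  obtain ⟨κ, hκ⟩ := hom_of (M := Dm n) hinj hsurj
    (fun i => if i = n + 1 then gen (Dm n) (wD n n) else gen (Dm n) (wD n i)) (by
    intro i j hij hj
    have hi1 : i ≠ n + 1 := by omega
    simp only [if_neg hi1]
    by_cases hj1 : j = n + 1
    · subst hj1
      rw [if_pos rfl]
      by_cases hin : i = n
      · subst hin
        rfl
      · have e2 : Dm n (wD n i) (wD n (n + 1)) = Dm n (wD n i) (wD n n) := by
          rw [dm_lab hij hj, dm_lab (by omega) (by omega)]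
          have e3 : Ed n i (n + 1) ↔ Ed n i n := by
            unfold Ed
            omega
          simp only [e3]
        rw [e2]
        exact gen_rel (dm_ne n _ _)
    · rw [if_neg hj1]
      exact gen_rel (dm_ne n _ _))
  obtain ⟨ι, hι⟩ := hom_of (M := Dm n) hinj hsurj
    (fun i => if i = n + 1 then gen (Dm n) (wD n n) else if i = n then gen (Dm n) (wD n (n + 1)) else
      gen (Dm n) (wD n i)) (by
    intro i j hij hj
    have hi1 : i ≠ n + 1 := by omega
    simp only [if_neg hi1]
    by_cases hj1 : j = n + 1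
    · subst hj1
      rw [if_pos rfl]
      by_cases hin : i = n
      · subst hin
        rw [if_pos rfl]
        exact (gen_rel (dm_ne i _ _)).symm
      · rw [if_neg hin]
        have e2 : Dm n (wD n i) (wD n (n + 1)) = Dm n (wD n i) (wD n n) := by
          rw [dm_lab hij hj, dm_lab (by omega) (by omega)]
          have e3 : Ed n i (n + 1) ↔ Ed n i n := by
            unfold Ed
            omega
          simp only [e3]
        rw [e2]
        exact gen_rel (dm_ne n _ _)
    · rw [if_neg hj1]
      have hin : i ≠ n := by omega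
      rw [if_neg hin]
      by_cases hjn : j = n
      · subst hjn
        rw [if_pos rfl]
        have e2 : Dm j (wD j i) (wD j j) = Dm j (wD j i) (wD j (j + 1)) := by
          rw [dm_lab hij hj, dm_lab (by omega) (by omega)]
          have e3 : Ed j i (j + 1) ↔ Ed j i j := by
            unfold Ed
            omega
          simp only [e3]
        rw [e2]
        exact gen_rel (dm_ne j _ _)
      · rw [if_neg hjn]
        exact gen_rel (dm_ne n _ _))
  refine ⟨Θ, κ, ι, ⟨?_, ?_, ?_, ?_, ?_, ?_⟩, ?_, ?_, ?_, ?_⟩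
  · rw [hΘ n (by omega), Fn]
  · rw [hΘ (n + 1) le_rfl, Fm]
    rfl
  · intro i hi
    show Θ (gen (Dm n) (wD n (n - 1 - i))) = _
    rw [hΘ (n - 1 - i) (by omega), Fi (n - 1 - i) i (by omega) (by omega)]
  · rw [hκ n (by omega), if_neg (by omega)]
  · rw [hκ (n + 1) le_rfl, if_pos rfl]
  · intro i hi
    show κ (gen (Dm n) (wD n (n - 1 - i))) = gen (Dm n) (wD n (n - 1 - i))
    rw [hκ (n - 1 - i) (by omega), if_neg (by omega)]
  · rw [hκ 0 (by omega), if_neg (by omega)]
  · rw [hι n (by omega), if_neg (by omega), if_pos rfl]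
  · rw [hι (n + 1) le_rfl, if_pos rfl]
  · intro i hi
    rw [hι i (by omega), if_neg (by omega), if_neg (by omega)]

end Pool.Agent.H75.BT
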