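import Pool.Agent.H75.BT.Sx
import Pool.Agent.H54.AF.TreeF

/-!
# [H75 BT MN] POLY for the diagrams `B~_n` (45 min)

`forest_bd`: as `forest_pd` (`H54/CT/Fr.lean`) or `star_forest` (`H54/CT/St.lean`): an edge is `(v i, v (i + 1))`, `i ≥ 1`, or `(v 0, v 2)` (`edge_bd`). Edge `(v i, v (i + 1))`, `i ≥ 2`: removing it, from `v i` one only reaches `v k`, `k ≤ i`, from `v (i + 1)` only `v k`,
`k ≥ i + 1`; edge `(v 0, v 2)`: from `v 0` nothing is reached, from `v 2` only `v k` with `k ≥ 1`; edge `(v 1, v 2)`: from `v 1` nothing, from `v 2` only `v 0` and `v k`, `k ≥ 2`. Uniformly: let `A = {i}` or `{0, …, i}` be the side of the first end;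
a step from `A` to its complement is the removed edge.
`pbd`: `polF_tree` with `gs_bd` (both directions: `gs_symm`) and `six_bd` (`Gir.symm`, see `H54/CT/Gp.lean`, `ppth_of`): label `4` (`Bd.ne_zero`: labels `≤ 4`) only for `{v (n - 1), v n}`.
`bd_of_brn`: as `pd_of_pth` in `H54/CT/Cd.lean`.
-/

set_option autoImplicit false

namespace Pool.Agent.H75.BT

open Pool.H8.CDW Pool.Agent.H52.PAG Pool.Agent.H75.INF Pool.Agent.H54.TF Pool.Agent.H54.CT Pool.Agent.H2.UF Pool.Agent.H34.TG Pool.Agent.H54.BS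
  Pool.Agent.H54.AF

/-- a path with at least three nodes and labels `3, …, 3, 4` together with a leaf (label `3`) at its second node (the affine type `B`) -/
def Brn {B : Type} (M : CoxeterMatrix B) : Prop := ∃ n : ℕ, 3 ≤ n ∧ ∃ e : B ≃ Fin (n + 1), ∀ i j, (e i : ℕ) < e j →
  M i j = if ((e j : ℕ) = e i + 1 ∧ 1 ≤ (e i : ℕ)) ∨ ((e i : ℕ) = 0 ∧ (e j : ℕ) = 2) then (if (e j : ℕ) = n then 4 else 3) else 2

variable {B : Type} {M : CoxeterMatrix B} {n : ℕ} {v : ℕ → B}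

/-- the edges of the diagram -/
private def Eb (i j : ℕ) : Prop := (j = i + 1 ∧ 1 ≤ i) ∨ (i = 0 ∧ j = 2)

/-- the values of `M` -/
private theorem bd_val (h : Bd M n v) {i j : ℕ} (hi : i ≤ n) (hj : j ≤ n) :
    (M (v i) (v j) = 1 ∧ i = j) ∨ ((M (v i) (v j) = 3 ∨ M (v i) (v j) = 4) ∧ (Eb i j ∨ Eb j i)) ∨
      (M (v i) (v j) = 2 ∧ i ≠ j) := by
  rcases lt_trichotomy i j with h1 | h1 | h1
  · have h2 := h.lab i j h1 hj
    by_cases h3 : (j = i + 1 ∧ 1 ≤ i) ∨ (i = 0 ∧ j = 2)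
    · rw [if_pos h3] at h2
      refine Or.inr (Or.inl ⟨?_, Or.inl h3⟩)
      rw [h2]
      split_ifs
      · exact Or.inr rfl
      · exact Or.inl rfl
    · rw [if_neg h3] at h2
      exact Or.inr (Or.inr ⟨h2, by omega⟩)
  · subst h1
    exact Or.inl ⟨M.diagonal _, rfl⟩
  · have h2 := h.lab j i h1 hi
    rw [M.symmetric] at h2
    by_cases h3 : (i = j + 1 ∧ 1 ≤ j) ∨ (j = 0 ∧ i = 2)
    · rw [if_pos h3] at h2
      refine Or.inr (Or.inl ⟨?_, Or.inr h3⟩)
      rw [h2]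
      split_ifs
      · exact Or.inr rfl
      · exact Or.inl rfl
    · rw [if_neg h3] at h2
      exact Or.inr (Or.inr ⟨h2, by omega⟩)

private theorem stay (h : Bd M n v) {A : Set ℕ} {i j : ℕ}
    (hA : ∀ k l, k ∈ A → l ∉ A → (Eb k l ∨ Eb l k) → k = i ∧ l = j) {x y : B} (hx : ∃ k ≤ n, k ∈ A ∧ x = v k)
    (hp : Relation.ReflTransGen (fun x y => 3 ≤ M x y ∧ ¬ (x = v i ∧ y = v j) ∧ ¬ (x = v j ∧ y = v i)) x y) :
    ∃ k ≤ n, k ∈ A ∧ y = v k := by
  induction hp with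
  | refl => exact hx
  | @tail y z _ h2 ih =>
    obtain ⟨k, hk, hkA, rfl⟩ := ih
    obtain ⟨l, hl, rfl⟩ := h.surj z
    obtain ⟨h3, h4, -⟩ := h2
    by_cases hlA : l ∈ A
    · exact ⟨l, hl, hlA, rfl⟩
    · exfalso
      rcases bd_val h hk hl with h5 | h5 | h5
      · omega
      · obtain ⟨rfl, rfl⟩ := hA k l hkA hlA h5.2
        exact h4 ⟨rfl, rfl⟩
      · omega

private theorem side {i j : ℕ} (he : Eb i j) : ∃ A : Set ℕ, i ∈ A ∧ j ∉ A ∧
    ∀ k l, k ∈ A → l ∉ A → (Eb k l ∨ Eb l k) → k = i ∧ l = j := by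
  unfold Eb at he ⊢
  by_cases hi : i ≤ 1
  · refine ⟨{i}, rfl, ?_, ?_⟩
    · intro h
      have h1 : j = i := h
      omega
    · intro k l hk hl h
      have h1 : k = i := hk
      have h2 : l ≠ i := hl
      omega
  · refine ⟨{k | k ≤ i}, le_refl i, ?_, ?_⟩
    · intro h
      have h1 : j ≤ i := h
      omega
    · intro k l hk hl h
      have h1 : k ≤ i := hk
      have h2 : ¬ l ≤ i := hl
      omega

theorem bd_of_brn (h : Brn M) : ∃ (n : ℕ) (v : ℕ → B), Bd M n v := by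
  obtain ⟨n, hn, e, he⟩ := h
  refine ⟨n, fun i => e.symm ⟨min i n, by omega⟩, hn, fun i hi j hj h => ?_, fun b => ?_, fun i j hij hj => ?_⟩
  · have h1 := e.symm.injective h
    rw [Fin.mk.injEq, min_eq_left hi, min_eq_left hj] at h1
    exact h1
  · refine ⟨(e b).1, by have := (e b).2; omega, ?_⟩
    have h1 : (⟨min (e b).1 n, by omega⟩ : Fin (n + 1)) = e b := by
      apply Fin.ext
      show min (e b).1 n = _
      have := (e b).2
      omega
    show e.symm ⟨min (e b).1 n, _⟩ = b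
    rw [h1, e.symm_apply_apply]
  · have h1 := he (e.symm ⟨min i n, by omega⟩) (e.symm ⟨min j n, by omega⟩) (by
      rw [e.apply_symm_apply, e.apply_symm_apply]
      show min i n < min j n
      omega)
    rw [e.apply_symm_apply, e.apply_symm_apply] at h1
    show M (e.symm ⟨min i n, _⟩) (e.symm ⟨min j n, _⟩) = _
    rw [h1]
    show (if (min j n = min i n + 1 ∧ 1 ≤ min i n) ∨ (min i n = 0 ∧ min j n = 2) then (if min j n = n then 4 else 3) else 2) = _
    rw [min_eq_left (show i ≤ n by omega), min_eq_left hj]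

theorem edge_bd (h : Bd M n v) {b c : B} (hbc : 3 ≤ M b c) : ∃ i j, i < j ∧ j ≤ n ∧ ((j = i + 1 ∧ 1 ≤ i) ∨ (i = 0 ∧ j = 2)) ∧
    ((b = v i ∧ c = v j) ∨ (c = v i ∧ b = v j)) := by
  obtain ⟨i, hi, rfl⟩ := h.surj b
  obtain ⟨j, hj, rfl⟩ := h.surj c
  rcases bd_val h hi hj with h5 | ⟨-, h5 | h5⟩ | h5
  · omega
  · have h6 : (j = i + 1 ∧ 1 ≤ i) ∨ (i = 0 ∧ j = 2) := h5
    exact ⟨i, j, by omega, hj, h6, Or.inl ⟨rfl, rfl⟩⟩
  · have h6 : (i = j + 1 ∧ 1 ≤ j) ∨ (j = 0 ∧ i = 2) := h5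
    exact ⟨j, i, by omega, hi, h6, Or.inr ⟨rfl, rfl⟩⟩
  · omega

theorem forest_bd (h : Bd M n v) : Forest M := by
  intro b c hbc hp
  obtain ⟨i, j, hij, hj, he, ⟨rfl, rfl⟩ | ⟨rfl, rfl⟩⟩ := edge_bd h hbc
  · obtain ⟨A, hiA, hjA, hA⟩ := side (i := i) (j := j) he
    obtain ⟨k, hk, hkA, hk2⟩ := stay h hA ⟨i, by omega, hiA, rfl⟩ hp
    rw [h.inj j hj k hk hk2] at hjA
    exact hjA hkA
  · obtain ⟨A, hiA, hjA, hA⟩ := side (i := i) (j := j) he
    obtain ⟨k, hk, hkA, hk2⟩ := stay h (A := Aᶜ) (i := j) (j := i) (fun k l hk hl h5 => (hA l k (by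
      by_contra hcon
      exact hl hcon) hk h5.symm).symm) ⟨j, hj, hjA, rfl⟩ hp
    rw [h.inj i (by omega) k hk hk2] at hiA
    exact hkA hiA

theorem pbd [Finite B] (h : Bd M n v) : PolF M Set.univ := by
  refine polF_tree (fun i j => (h.ne_zero i j).1) (fun i j => (h.ne_zero i j).2.trans (by norm_num)) (forest_bd h) ?_ ?_
  · intro b c hbc
    obtain ⟨i, j, hij, hj, he, ⟨rfl, rfl⟩ | ⟨rfl, rfl⟩⟩ := edge_bd h hbc
    · exact gs_bd h hij hj he
    · exact gs_symm (gs_bd h hij hj he)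
  · intro b c hbc
    have h4 : M b c = 4 := by
      rcases hbc with h1 | h1
      · exact h1
      · have := (h.ne_zero b c).2
        omega
    have h3 := h.three
    have h5 := six_bd h
    obtain ⟨i, j, hij, hj, he, ⟨rfl, rfl⟩ | ⟨rfl, rfl⟩⟩ := edge_bd h (show 3 ≤ M b c by omega)
    · rw [h.lab i j hij hj, if_pos he] at h4
      have h7 : j = n := by
        by_contra hcon
        rw [if_neg hcon] at h4
        omega
      subst h7
      have h8 : i = j - 1 := by omega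
      subst h8
      exact h5
    · rw [M.symmetric, h.lab i j hij hj, if_pos he] at h4
      have h7 : j = n := by
        by_contra hcon
        rw [if_neg hcon] at h4
        omega
      subst h7
      have h8 : i = j - 1 := by omega
      subst h8
      exact h5.symm

/-- POLY for the affine type `B` -/
theorem pbrn (B : Type) (M : CoxeterMatrix B) (h : Brn M) : PolF M Set.univ := by
  obtain ⟨n, v, hv⟩ := bd_of_brn h
  obtain ⟨m, -, e, -⟩ := h
  have : Finite B := Finite.of_equiv _ e.symm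
  exact pbd hv

end Pool.Agent.H75.BT
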