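import Pool.Agent.H75.BT.Dq
import Pool.Agent.H75.BT.Ev
import Pool.Agent.H34.TG.Res

/-!
# [H75 BT SX] The edge with label `4`: no closed paths of length six

`κ : v 0 ↦ v 1`, `Θ ρ = V (n - 2) ^ 2`. The image under `κ` is in the finite type `B_n`, so all `κ (Y r)` are in the parabolic subgroup; then `ev` in the free group.
-/

set_option autoImplicit false

namespace Pool.Agent.H75.BT

open FreeGroup Pool.H8.CDW Pool.Agent.H52.PAG Pool.Agent.H75.INF Pool.Agent.H54.TF Pool.Agent.H54.CT Pool.Agent.H2.UF Pool.Agent.H34.TG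

variable {B : Type} {M : CoxeterMatrix B} {n : ℕ} {v : ℕ → B}

theorem gir_bn [Finite B] (h : Bd M n v) :
    Gir (ap M (({v 0}ᶜ : Set B) \ {v (n - 1)})) (ap M (({v 0}ᶜ : Set B) \ {v n})) 4 := by
  have hn := h.three
  have hf := bfin h
  have hb : v (n - 1) ∈ ({v 0}ᶜ : Set B) := h.ne (by omega) (by omega) (by omega)
  have hc : v n ∈ ({v 0}ᶜ : Set B) := h.ne (by omega) (by omega) (by omega)
  have hne : (⟨v (n - 1), hb⟩ : ({v 0}ᶜ : Set B)) ≠ ⟨v n, hc⟩ := fun e => h.ne (show n - 1 ≤ n by omega) le_rfl (by omega)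
    (congrArg Subtype.val e)
  have h4 : 4 ≤ resM M ({v 0}ᶜ : Set B) ⟨v (n - 1), hb⟩ ⟨v n, hc⟩ := by
    show 4 ≤ M (v (n - 1)) (v n)
    rw [h.lab (n - 1) n (by omega) le_rfl, if_pos (Or.inl ⟨by omega, by omega⟩), if_pos rfl]
  have h5 := gir_res M (no_six (resM M ({v 0}ᶜ : Set B)) hne h4)
  have key : ∀ (b : B) (hb : b ∈ ({v 0}ᶜ : Set B)), Subtype.val '' ({(⟨b, hb⟩ : ({v 0}ᶜ : Set B))}ᶜ : Set ({v 0}ᶜ : Set B)) =
      (({v 0}ᶜ : Set B) \ {b}) := by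
    intro b hb
    ext x
    constructor
    · rintro ⟨y, hy, rfl⟩
      exact ⟨y.2, fun e => hy (Subtype.ext e)⟩
    · rintro ⟨hx, hx'⟩
      exact ⟨⟨x, hx⟩, fun e => hx' (congrArg Subtype.val e), rfl⟩
  rwa [key, key] at h5

theorem zpow_gen {B : Type} {M : CoxeterMatrix B} {b : B} {k : ℤ} (hk : gen M b ^ k = 1) : k = 0 := by
  obtain ⟨φ, hφ⟩ : ∃ φ : Art M →* Multiplicative ℤ, ∀ i, φ (gen M i) = Multiplicative.ofAdd 1 :=
    ⟨lift (fun _ => Multiplicative.ofAdd 1) (fun _ _ _ => rfl), fun i => lift_gen _ _ i⟩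
  have h1 : (Multiplicative.ofAdd (1 : ℤ)) ^ k = 1 := by
    rw [← hφ b, ← map_zpow φ, hk, _root_.map_one φ]
  rw [← ofAdd_zsmul, smul_eq_mul, mul_one] at h1
  exact Multiplicative.ofAdd.injective h1

theorem zpow_mem_ap {B : Type} {M : CoxeterMatrix B} {b : B} {S : Set B} (hb : b ∉ S) {k : ℤ} (hk : gen M b ^ k ∈ ap M S) : k = 0 := by
  have h2 : gen M b ∈ ap M ({b} : Set B) := gen_mem_ap (Set.mem_singleton b)
  have h4 : gen M b ^ k ∈ ap M (({b} : Set B) ∩ S) := by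
    rw [← ap_inter]
    exact ⟨zpow_mem h2 k, hk⟩
  have h5 : (({b} : Set B) ∩ S) = ∅ := by
    rw [Set.eq_empty_iff_forall_notMem]
    rintro x ⟨rfl, hx⟩
    exact hb hx
  rw [h5] at h4
  unfold ap at h4
  rw [Set.image_empty, Subgroup.closure_empty, Subgroup.mem_bot] at h4
  exact zpow_gen h4

/-- the elements of `ap M {v (n - 1)}ᶜ` -/
theorem dec_bd (h : Bd M n v) {x : Art M} (hx : x ∈ ap M ({v (n - 1)}ᶜ : Set B)) :
    ∃ z ∈ ap M ({v (n - 1), v n}ᶜ : Set B), ∃ k : ℤ, x = z * gen M (v n) ^ k := by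
  have hn := h.three
  have e : ({v (n - 1)}ᶜ : Set B) = ({v (n - 1), v n}ᶜ : Set B) ∪ {v n} := by
    ext b
    simp only [Set.mem_compl_iff, Set.mem_singleton_iff, Set.mem_insert_iff, not_or, Set.mem_union]
    constructor
    · intro hb
      by_cases hb' : b = v n
      · exact Or.inr hb'
      · exact Or.inl ⟨hb, hb'⟩
    · rintro (hb | rfl)
      · exact hb.1
      · exact h.ne le_rfl (by omega) (by omega)
  rw [e] at hx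
  obtain ⟨z, hz, y, hy, rfl⟩ := Pool.Agent.H54.AF.dec_ap (M := M) (S₁ := ({v (n - 1), v n}ᶜ : Set B)) (S₂ := {v n}) (by
    rintro i hi _ rfl
    obtain ⟨k, hk, rfl⟩ := h.surj i
    have h1 : k ≠ n - 1 := fun e => hi (Or.inl (by rw [e]))
    have h2 : k ≠ n := fun e => hi (Or.inr (by rw [e]; rfl))
    rw [h.lab k n (by omega) le_rfl, if_neg (by omega)]) hx
  unfold ap at hy
  rw [Set.image_singleton, Subgroup.mem_closure_singleton] at hy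
  obtain ⟨k, rfl⟩ := hy
  exact ⟨z, hz, k, rfl⟩

/-- the last generator commutes with the elements of `ap M {v (n - 1), v n}ᶜ` -/
theorem com_bd (h : Bd M n v) {z : Art M} (hz : z ∈ ap M ({v (n - 1), v n}ᶜ : Set B)) (k : ℤ) :
    Commute z (gen M (v n) ^ k) := by
  have hn := h.three
  refine Pool.Agent.H54.AF.comm_ap (M := M) (S₁ := ({v (n - 1), v n}ᶜ : Set B)) (S₂ := {v n}) ?_ hz
    (zpow_mem (gen_mem_ap (Set.mem_singleton _)) k)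
  rintro i hi _ rfl
  obtain ⟨k, hk, rfl⟩ := h.surj i
  have h1 : k ≠ n - 1 := fun e => hi (Or.inl (by rw [e]))
  have h2 : k ≠ n := fun e => hi (Or.inr (by rw [e]; rfl))
  rw [h.lab k n (by omega) le_rfl, if_neg (by omega)]

/-- the data -/
structure Dk (M : CoxeterMatrix B) (n : ℕ) (v : ℕ → B) (Θ : Art M →* X) (κ : Art M →* Art M) : Prop where
  bd : Bd M n v
  rp : Rp (gen M (v 1)) (gen M (v 0)) (fun i => gen M (v (i + 2))) (n - 2) Θ κ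
  tr : Θ (gen M (v n)) = SemidirectProduct.inr (vV (n - 2) ^ 2)
  kr : κ (gen M (v n)) = gen M (v n)

variable {Θ : Art M →* X} {κ : Art M →* Art M}

theorem Dk.kg (d : Dk M n v Θ κ) {i : ℕ} (h0 : i ≠ 0) (hi : i ≤ n) : κ (gen M (v i)) = gen M (v i) := by
  rcases Nat.eq_or_lt_of_le hi with e | h1
  · rw [e]
    exact d.kr
  · rcases Nat.eq_or_lt_of_le (show 1 ≤ i by omega) with e | h2
    · rw [← e]
      exact d.rp.kp
    · have h3 := d.rp.kc (i - 2) (by omega)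
      have e : i - 2 + 2 = i := by omega
      simp only [e] at h3
      exact h3

/-- the image of `κ` -/
theorem Dk.km (d : Dk M n v Θ κ) {i : ℕ} (h1 : i ≠ 1) (hi : i ≤ n) {x : Art M} (hx : x ∈ ap M ({v i}ᶜ : Set B)) :
    κ x ∈ ap M (({v 0}ᶜ : Set B) \ {v i}) := by
  have hn := d.bd.three
  refine map_mem' κ ?_ hx
  intro b hb
  obtain ⟨k, hk, rfl⟩ := d.bd.surj b
  by_cases h0 : k = 0
  · subst h0
    have h2 : κ (gen M (v 0)) = gen M (v 1) := d.rp.kq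
    rw [h2]
    exact gen_mem_ap ⟨d.bd.ne (by omega) (by omega) (by omega), d.bd.ne (by omega) hi (fun e => h1 e.symm)⟩
  · rw [d.kg h0 hk]
    exact gen_mem_ap ⟨d.bd.ne hk (by omega) h0, hb⟩

/-- `κ` is the identity on `ap M {v 0}ᶜ` -/
theorem Dk.ki (d : Dk M n v Θ κ) {x : Art M} (hx : x ∈ ap M ({v 0}ᶜ : Set B)) : κ x = x := by
  have h1 := map_congr' κ (MonoidHom.id _) (K := ({v 0}ᶜ : Set B)) ?_ hx
  · exact h1
  · intro b hb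
    obtain ⟨k, hk, rfl⟩ := d.bd.surj b
    exact d.kg (fun e => hb (by rw [e]; rfl)) hk

private theorem rot {G : Type*} [Group G] {a b c d e f : G} (h : a * b * c * d * e * f = 1) : c * d * e * f * a * b = 1 := by
  have h1 : c * d * e * f * a * b = (a * b)⁻¹ * (a * b * c * d * e * f) * (a * b) := by group
  rw [h1, h]
  group

/-- the second and third element from the first -/
theorem Dk.one (d : Dk M n v Θ κ) [Finite B] {Y₀ Y₁ Y₂ : Art M} (h0 : Y₀ ∈ ap M ({v n}ᶜ : Set B)) (h1 : Y₁ ∈ ap M ({v n}ᶜ : Set B))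
    (h2 : Y₂ ∈ ap M ({v n}ᶜ : Set B)) {k₀ k₁ k₂ : ℤ} (hk : k₂ ≠ 0)
    (he : gen M (v n) ^ k₀ * Y₀ * gen M (v n) ^ k₁ * Y₁ * gen M (v n) ^ k₂ * Y₂ = 1)
    (hY : κ Y₀ ∈ ap M (({v 0}ᶜ : Set B) \ {v (n - 1)})) :
    κ Y₁ ∈ ap M (({v 0}ᶜ : Set B) \ {v (n - 1)}) ∧ κ Y₂ ∈ ap M (({v 0}ᶜ : Set B) \ {v (n - 1)}) := by
  have hn := d.bd.three
  have hr : ∀ k : ℤ, κ (gen M (v n) ^ k) = gen M (v n) ^ k := fun k => by rw [map_zpow, d.kr]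
  have hrm : ∀ k : ℤ, gen M (v n) ^ k ∈ ap M (({v 0}ᶜ : Set B) \ {v (n - 1)}) := fun k =>
    zpow_mem (gen_mem_ap (show v n ∈ (({v 0}ᶜ : Set B) \ {v (n - 1)}) from
      ⟨d.bd.ne le_rfl (by omega) (by omega), d.bd.ne le_rfl (by omega) (by omega)⟩)) k
  have he1 := congrArg κ he
  simp only [_root_.map_mul, hr, _root_.map_one] at he1
  have m0 := d.km (by omega) le_rfl h0
  have m1 := d.km (by omega) le_rfl h1
  have m2 := d.km (by omega) le_rfl h2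
  have e1 : (({v 0}ᶜ : Set B) \ {v (n - 1)}) ∩ (({v 0}ᶜ : Set B) \ {v n}) ⊆ ({v (n - 1), v n}ᶜ : Set B) := by
    rintro b ⟨⟨-, hb⟩, ⟨-, hb'⟩⟩ (e | e)
    · exact hb e
    · exact hb' e
  have hc := com_bd d.bd (z := κ Y₀) (ap_mono e1 (by rw [← ap_inter]; exact ⟨hY, m0⟩)) k₁
  have he2 : gen M (v n) ^ (k₀ + k₁) * (κ Y₀ * κ Y₁) * gen M (v n) ^ k₂ * κ Y₂ = 1 := by
    rw [← he1, zpow_add]
    have : gen M (v n) ^ k₀ * gen M (v n) ^ k₁ * (κ Y₀ * κ Y₁) = gen M (v n) ^ k₀ * κ Y₀ * gen M (v n) ^ k₁ * κ Y₁ := by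
      calc gen M (v n) ^ k₀ * gen M (v n) ^ k₁ * (κ Y₀ * κ Y₁) = gen M (v n) ^ k₀ * (gen M (v n) ^ k₁ * κ Y₀) * κ Y₁ := by group
        _ = gen M (v n) ^ k₀ * (κ Y₀ * gen M (v n) ^ k₁) * κ Y₁ := by rw [hc.eq]
        _ = _ := by group
    rw [this]
  have hk0 : k₀ + k₁ ≠ 0 := by
    intro e
    rw [e, zpow_zero, one_mul] at he2
    have h3 : gen M (v n) ^ k₂ ∈ ap M ({v n}ᶜ : Set B) := by
      have h4 : gen M (v n) ^ k₂ = (κ Y₀ * κ Y₁)⁻¹ * (κ Y₂)⁻¹ := by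
        have h5 : gen M (v n) ^ k₂ = (κ Y₀ * κ Y₁)⁻¹ * (κ Y₀ * κ Y₁ * gen M (v n) ^ k₂ * κ Y₂) * (κ Y₂)⁻¹ := by group
        rw [h5, he2, mul_one]
      rw [h4]
      have sub : (({v 0}ᶜ : Set B) \ {v n}) ⊆ ({v n}ᶜ : Set B) := fun b hb => hb.2
      exact mul_mem (inv_mem (mul_mem (ap_mono sub m0) (ap_mono sub m1))) (inv_mem (ap_mono sub m2))
    exact hk (zpow_mem_ap (S := ({v n}ᶜ : Set B)) (fun hh => hh rfl) h3)
  have hG := (gir_bn d.bd)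
  have hGS := gs_of_gir (by norm_num) hG
  have h3 := hGS _ (hrm (k₀ + k₁)) _ (hrm k₂) _ (mul_mem m0 m1) _ m2 he2
  have h4 : κ Y₀ * κ Y₁ ∈ ap M (({v 0}ᶜ : Set B) \ {v (n - 1)}) := by
    rcases h3 with h3 | h3
    · exact absurd (zpow_mem_ap (S := (({v 0}ᶜ : Set B) \ {v (n - 1), v n})) (fun hh => hh.2 (Or.inr rfl)) h3) hk0
    · exact ap_mono (show (({v 0}ᶜ : Set B) \ {v (n - 1), v n}) ⊆ (({v 0}ᶜ : Set B) \ {v (n - 1)}) from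
        fun b hb => ⟨hb.1, fun e => hb.2 (Or.inl e)⟩) h3
  have h5 : κ Y₁ ∈ ap M (({v 0}ᶜ : Set B) \ {v (n - 1)}) := (Subgroup.mul_mem_cancel_left _ hY).1 h4
  refine ⟨h5, ?_⟩
  have h6 : κ Y₂ = (gen M (v n) ^ (k₀ + k₁) * (κ Y₀ * κ Y₁) * gen M (v n) ^ k₂)⁻¹ := eq_inv_of_mul_eq_one_right he2
  rw [h6]
  exact inv_mem (mul_mem (mul_mem (hrm _) h4) (hrm _))

/-- all three -/
theorem Dk.all (d : Dk M n v Θ κ) [Finite B] {Y₀ Y₁ Y₂ : Art M} (h0 : Y₀ ∈ ap M ({v n}ᶜ : Set B)) (h1 : Y₁ ∈ ap M ({v n}ᶜ : Set B))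
    (h2 : Y₂ ∈ ap M ({v n}ᶜ : Set B)) {k₀ k₁ k₂ : ℤ} (hk₀ : k₀ ≠ 0) (hk₁ : k₁ ≠ 0) (hk₂ : k₂ ≠ 0)
    (he : gen M (v n) ^ k₀ * Y₀ * gen M (v n) ^ k₁ * Y₁ * gen M (v n) ^ k₂ * Y₂ = 1) :
    κ Y₀ ∈ ap M (({v 0}ᶜ : Set B) \ {v (n - 1)}) ∧ κ Y₁ ∈ ap M (({v 0}ᶜ : Set B) \ {v (n - 1)}) ∧
      κ Y₂ ∈ ap M (({v 0}ᶜ : Set B) \ {v (n - 1)}) := by
  have hn := d.bd.three
  have hr : ∀ k : ℤ, κ (gen M (v n) ^ k) = gen M (v n) ^ k := fun k => by rw [map_zpow, d.kr]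
  have hrm : ∀ k : ℤ, gen M (v n) ^ k ∈ ap M (({v 0}ᶜ : Set B) \ {v (n - 1)}) := fun k =>
    zpow_mem (gen_mem_ap (show v n ∈ (({v 0}ᶜ : Set B) \ {v (n - 1)}) from
      ⟨d.bd.ne le_rfl (by omega) (by omega), d.bd.ne le_rfl (by omega) (by omega)⟩)) k
  have he1 := congrArg κ he
  simp only [_root_.map_mul, hr, _root_.map_one] at he1
  have m0 := d.km (by omega) le_rfl h0
  have m1 := d.km (by omega) le_rfl h1
  have m2 := d.km (by omega) le_rfl h2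
  have nr : ∀ {k : ℤ}, k ≠ 0 → gen M (v n) ^ k ∉ ap M (({v 0}ᶜ : Set B) \ {v n}) := fun hk hh =>
    hk (zpow_mem_ap (S := (({v 0}ᶜ : Set B) \ {v n})) (fun hh => hh.2 rfl) hh)
  by_cases c0 : κ Y₀ ∈ ap M (({v 0}ᶜ : Set B) \ {v (n - 1)})
  · exact ⟨c0, d.one h0 h1 h2 hk₂ he c0⟩
  by_cases c1 : κ Y₁ ∈ ap M (({v 0}ᶜ : Set B) \ {v (n - 1)})
  · obtain ⟨h3, h4⟩ := d.one h1 h2 h0 hk₀ (rot he) c1
    exact ⟨h4, c1, h3⟩
  by_cases c2 : κ Y₂ ∈ ap M (({v 0}ᶜ : Set B) \ {v (n - 1)})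
  · obtain ⟨h3, h4⟩ := d.one h2 h0 h1 hk₁ (rot (rot he)) c2
    exact ⟨h3, h4, c2⟩
  exfalso
  refine gir_bn d.bd (fun r => if r = 0 then gen M (v n) ^ k₀ else if r = 1 then gen M (v n) ^ k₁ else gen M (v n) ^ k₂)
    (fun r => if r = 0 then κ Y₀ else if r = 1 then κ Y₁ else κ Y₂) 3 (by norm_num) (by norm_num) ?_ ?_ ?_
  · intro r hr
    obtain rfl | rfl | rfl : r = 0 ∨ r = 1 ∨ r = 2 := by omega
    · exact ⟨hrm _, nr hk₀⟩
    · exact ⟨hrm _, nr hk₁⟩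
    · exact ⟨hrm _, nr hk₂⟩
  · intro r hr
    obtain rfl | rfl | rfl : r = 0 ∨ r = 1 ∨ r = 2 := by omega
    · exact ⟨m0, c0⟩
    · exact ⟨m1, c1⟩
    · exact ⟨m2, c2⟩
  · show 1 * (gen M (v n) ^ k₀ * κ Y₀) * (gen M (v n) ^ k₁ * κ Y₁) * (gen M (v n) ^ k₂ * κ Y₂) = 1
    refine Eq.trans ?_ he1
    group

/-- elements with trivial image -/
theorem Dk.ker (d : Dk M n v Θ κ) {f₀ f₁ f₂ : Art M} (h0 : f₀ ∈ ap M ({v n}ᶜ : Set B)) (h1 : f₁ ∈ ap M ({v n}ᶜ : Set B))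
    (h2 : f₂ ∈ ap M ({v n}ᶜ : Set B)) (e0 : κ f₀ = 1) (e1 : κ f₁ = 1) (e2 : κ f₂ = 1) {k₀ k₁ k₂ : ℤ} (hk₀ : k₀ ≠ 0)
    (hk₁ : k₁ ≠ 0) (hs : k₀ + k₁ + k₂ = 0)
    (he : gen M (v n) ^ k₀ * f₀ * gen M (v n) ^ k₁ * f₁ * gen M (v n) ^ k₂ * f₂ = 1) : f₀ ∈ ap M ({v (n - 1)}ᶜ : Set B) := by
  have hn := d.bd.three
  have hD := ds_b d.bd
  have hH : ∀ {f : Art M}, f ∈ ap M ({v n}ᶜ : Set B) → f ∈ Hh (gen M (v 1)) (gen M (v 0)) (fun i => gen M (v (i + 2))) (n - 2) := by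
    intro f hf
    refine ap_le ?_ hf
    intro b hb
    obtain ⟨k, hk, rfl⟩ := d.bd.surj b
    have hkn : k ≠ n := fun e => hb (by rw [e]; rfl)
    obtain rfl | rfl | hk2 : k = 0 ∨ k = 1 ∨ 2 ≤ k := by omega
    · exact Subgroup.subset_closure (Or.inl (Or.inr rfl))
    · exact Subgroup.subset_closure (Or.inl (Or.inl rfl))
    · refine Subgroup.subset_closure (Or.inr ⟨k - 2, ?_, ?_⟩)
      · show k - 2 < n - 2
        omega
      · show gen M (v (k - 2 + 2)) = gen M (v k)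
        rw [show k - 2 + 2 = k by omega]
  have key : ∀ {f : Art M}, f ∈ ap M ({v n}ᶜ : Set B) → κ f = 1 → ∃ u ∈ Wl (n - 2 + 1), Θ f = SemidirectProduct.inl u :=
    fun hf e => ⟨_, (back hD d.rp (hH hf)).1, right_one d.rp (hH hf) e⟩
  obtain ⟨u₀, hu₀, t0⟩ := key h0 e0
  obtain ⟨u₁, hu₁, t1⟩ := key h1 e1
  obtain ⟨u₂, hu₂, t2⟩ := key h2 e2
  have hr : ∀ k : ℤ, Θ (gen M (v n) ^ k) = SemidirectProduct.inr (vV (n - 2) ^ (2 * k)) := fun k => by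
    rw [map_zpow, d.tr, ← map_zpow, zpow_mul]
    norm_cast
  have hu : (vV (n - 2) ^ (2 * k₀)) u₀ * (vV (n - 2) ^ (2 * (k₀ + k₁))) u₁ * u₂ = 1 := by
    have h3 := congrArg Θ he
    simp only [_root_.map_mul, hr, t0, t1, t2, _root_.map_one] at h3
    have h4 := congrArg SemidirectProduct.left h3
    simp only [SemidirectProduct.mul_left, SemidirectProduct.left_inr, SemidirectProduct.left_inl, SemidirectProduct.right_inr,
      SemidirectProduct.right_inl, SemidirectProduct.mul_right, SemidirectProduct.one_left, MonoidHom.id_apply, _root_.map_one,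
      one_mul, mul_one] at h4
    rw [← zpow_add, ← zpow_add, show 2 * k₀ + 2 * k₁ + 2 * k₂ = 0 by linarith, zpow_zero, MulAut.one_apply,
      show 2 * k₀ + 2 * k₁ = 2 * (k₀ + k₁) by ring] at h4
    exact h4
  have h3 := ev hu₀ hu₁ hu₂ (by omega) (by omega) hu
  have h4 := c1 hD d.rp (hH h0) e0 (l := n - 3) (by omega) (by
    rw [t0, SemidirectProduct.left_inl, show n - 3 + 1 = n - 2 by omega]
    exact h3)
  have h5 : Hh (gen M (v 1)) (gen M (v 0)) (fun i => gen M (v (i + 2))) (n - 3) ≤ ap M ({v (n - 1)}ᶜ : Set B) := by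
    unfold Hh
    rw [Subgroup.closure_le]
    rintro _ ((rfl | rfl) | ⟨k, hk, rfl⟩)
    · exact gen_mem_ap (d.bd.ne (by omega) (by omega) (by omega))
    · exact gen_mem_ap (d.bd.ne (by omega) (by omega) (by omega))
    · have hk' : k < n - 3 := hk
      exact gen_mem_ap (d.bd.ne (by omega) (by omega) (by omega))
  exact h5 h4

theorem six_bd [Finite B] (h : Bd M n v) : Gir (ap M ({v (n - 1)}ᶜ : Set B)) (ap M ({v n}ᶜ : Set B)) 4 := by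
  have hn := h.three
  obtain ⟨Θ, κ, h1, h2, h3⟩ := exists_rb h
  have d : Dk M n v Θ κ := ⟨h, h1, h2, h3⟩
  intro x y k h0 h4 hx hy
  by_cases h3' : k < 3
  · have h5 := gir_of_gs (gs_bd h (i := n - 1) (j := n) (by omega) le_rfl (Or.inl ⟨by omega, by omega⟩))
    rw [univ_diff, univ_diff] at h5
    exact h5 x y k h0 h3' hx hy
  obtain rfl : k = 3 := by omega
  intro he
  obtain ⟨hx0, hx0'⟩ := hx 0 (by norm_num)
  obtain ⟨hx1, hx1'⟩ := hx 1 (by norm_num)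
  obtain ⟨hx2, hx2'⟩ := hx 2 (by norm_num)
  obtain ⟨hy0, hy0'⟩ := hy 0 (by norm_num)
  obtain ⟨hy1, hy1'⟩ := hy 1 (by norm_num)
  obtain ⟨hy2, hy2'⟩ := hy 2 (by norm_num)
  have he' : x 0 * y 0 * x 1 * y 1 * x 2 * y 2 = 1 := by
    rw [← he]
    show _ = 1 * (x 0 * y 0) * (x 1 * y 1) * (x 2 * y 2)
    group
  obtain ⟨z₀, hz₀, k₀, e₀⟩ := dec_bd h hx0
  obtain ⟨z₁, hz₁, k₁, e₁⟩ := dec_bd h hx1
  obtain ⟨z₂, hz₂, k₂, e₂⟩ := dec_bd h hx2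
  have sub : ({v (n - 1), v n}ᶜ : Set B) ⊆ ({v n}ᶜ : Set B) := fun b hb e => hb (Or.inr e)
  have sub' : ({v (n - 1), v n}ᶜ : Set B) ⊆ ({v (n - 1)}ᶜ : Set B) := fun b hb e => hb (Or.inl e)
  have nz : ∀ {k : ℤ} {z x : Art M}, z ∈ ap M ({v (n - 1), v n}ᶜ : Set B) → x = z * gen M (v n) ^ k →
      x ∉ ap M ({v n}ᶜ : Set B) → k ≠ 0 := by
    rintro k z x hz e hx rfl
    rw [zpow_zero, mul_one] at e
    rw [e] at hx
    exact hx (ap_mono sub hz)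
  have hk₀ := nz hz₀ e₀ hx0'
  have hk₁ := nz hz₁ e₁ hx1'
  have hk₂ := nz hz₂ e₂ hx2'
  -- the elements `Y r`
  obtain ⟨Y₀, hY₀⟩ : ∃ Y, Y = y 0 * z₁ := ⟨_, rfl⟩
  obtain ⟨Y₁, hY₁⟩ : ∃ Y, Y = y 1 * z₂ := ⟨_, rfl⟩
  obtain ⟨Y₂, hY₂⟩ : ∃ Y, Y = y 2 * z₀ := ⟨_, rfl⟩
  have m0 : Y₀ ∈ ap M ({v n}ᶜ : Set B) := by
    rw [hY₀]
    exact mul_mem hy0 (ap_mono sub hz₁)
  have m1 : Y₁ ∈ ap M ({v n}ᶜ : Set B) := by
    rw [hY₁]
    exact mul_mem hy1 (ap_mono sub hz₂)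
  have m2 : Y₂ ∈ ap M ({v n}ᶜ : Set B) := by
    rw [hY₂]
    exact mul_mem hy2 (ap_mono sub hz₀)
  have hE : gen M (v n) ^ k₀ * Y₀ * gen M (v n) ^ k₁ * Y₁ * gen M (v n) ^ k₂ * Y₂ = 1 := by
    rw [e₀, e₁, e₂] at he'
    rw [hY₀, hY₁, hY₂]
    have h5 : gen M (v n) ^ k₀ * (y 0 * z₁) * gen M (v n) ^ k₁ * (y 1 * z₂) * gen M (v n) ^ k₂ * (y 2 * z₀) =
        z₀⁻¹ * (z₀ * gen M (v n) ^ k₀ * y 0 * (z₁ * gen M (v n) ^ k₁) * y 1 * (z₂ * gen M (v n) ^ k₂) * y 2) * z₀ := by group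
    rw [h5, he']
    group
  obtain ⟨c0, c1, c2⟩ := d.all m0 m1 m2 hk₀ hk₁ hk₂ hE
  have mm : ∀ {Y : Art M}, Y ∈ ap M ({v n}ᶜ : Set B) → κ Y ∈ ap M (({v 0}ᶜ : Set B) \ {v (n - 1)}) →
      κ Y ∈ ap M ({v (n - 1), v n}ᶜ : Set B) ∧ κ (κ Y) = κ Y := by
    intro Y hY hY'
    have hh := d.km (by omega) le_rfl hY
    refine ⟨?_, d.ki (ap_mono (fun b hb => hb.1) hh)⟩
    have h5 : κ Y ∈ ap M ((({v 0}ᶜ : Set B) \ {v (n - 1)}) ∩ (({v 0}ᶜ : Set B) \ {v n})) := by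
      rw [← ap_inter]
      exact ⟨hY', hh⟩
    refine ap_mono ?_ h5
    rintro b ⟨⟨-, hb⟩, ⟨-, hb'⟩⟩ (e | e)
    · exact hb e
    · exact hb' e
  obtain ⟨a0, b0⟩ := mm m0 c0
  obtain ⟨a1, b1⟩ := mm m1 c1
  obtain ⟨a2, b2⟩ := mm m2 c2
  obtain ⟨g0, hg0⟩ : ∃ g, g = κ Y₀ := ⟨_, rfl⟩
  obtain ⟨g1, hg1⟩ : ∃ g, g = κ Y₁ := ⟨_, rfl⟩
  obtain ⟨g2, hg2⟩ : ∃ g, g = κ Y₂ := ⟨_, rfl⟩
  rw [← hg0] at a0 b0
  rw [← hg1] at a1 b1
  rw [← hg2] at a2 b2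
  have r0 := fun k : ℤ => (com_bd h a0 k).eq
  have r01 := fun k : ℤ => (com_bd h (mul_mem a0 a1) k).eq
  have hE2 : gen M (v n) ^ k₀ * (Y₀ * g0⁻¹) * gen M (v n) ^ k₁ * (g0 * (Y₁ * g1⁻¹) * g0⁻¹) * gen M (v n) ^ k₂ *
      ((g0 * g1) * (Y₂ * g2⁻¹) * (g0 * g1)⁻¹) * (g0 * g1 * g2) = 1 := by
    rw [← hE]
    calc gen M (v n) ^ k₀ * (Y₀ * g0⁻¹) * gen M (v n) ^ k₁ * (g0 * (Y₁ * g1⁻¹) * g0⁻¹) * gen M (v n) ^ k₂ *
        ((g0 * g1) * (Y₂ * g2⁻¹) * (g0 * g1)⁻¹) * (g0 * g1 * g2)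
        = gen M (v n) ^ k₀ * (Y₀ * g0⁻¹) * (gen M (v n) ^ k₁ * g0) * Y₁ * (g0 * g1)⁻¹ * (gen M (v n) ^ k₂ * (g0 * g1)) * Y₂ := by
          group
      _ = gen M (v n) ^ k₀ * (Y₀ * g0⁻¹) * (g0 * gen M (v n) ^ k₁) * Y₁ * (g0 * g1)⁻¹ * ((g0 * g1) * gen M (v n) ^ k₂) * Y₂ := by
          rw [← r0 k₁, ← r01 k₂]
      _ = _ := by group
  have q0 : κ (Y₀ * g0⁻¹) = 1 := by
    rw [_root_.map_mul, _root_.map_inv, b0, ← hg0, mul_inv_cancel]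
  have q1 : κ (g0 * (Y₁ * g1⁻¹) * g0⁻¹) = 1 := by
    rw [_root_.map_mul, _root_.map_mul, _root_.map_mul, _root_.map_inv, _root_.map_inv, b0, b1, ← hg1, mul_inv_cancel, mul_one,
      mul_inv_cancel]
  have q2 : κ ((g0 * g1) * (Y₂ * g2⁻¹) * (g0 * g1)⁻¹) = 1 := by
    rw [_root_.map_mul, _root_.map_mul, _root_.map_inv, _root_.map_mul, _root_.map_mul, _root_.map_inv, b0, b1, b2, ← hg2,
      mul_inv_cancel, mul_one, mul_inv_cancel]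
  have hr : ∀ k : ℤ, κ (gen M (v n) ^ k) = gen M (v n) ^ k := fun k => by rw [map_zpow, d.kr]
  have hsum : gen M (v n) ^ (k₀ + k₁ + k₂) * (g0 * g1 * g2) = 1 := by
    have h5 := congrArg κ hE2
    rw [_root_.map_mul, _root_.map_mul, _root_.map_mul, _root_.map_mul, _root_.map_mul, _root_.map_mul, q0, q1, q2, hr, hr, hr,
      _root_.map_mul, _root_.map_mul, b0, b1, b2, _root_.map_one, mul_one, mul_one, mul_one, ← zpow_add, ← zpow_add] at h5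
    exact h5
  have hK : k₀ + k₁ + k₂ = 0 := by
    refine zpow_mem_ap (M := M) (b := v n) (S := ({v n}ᶜ : Set B)) (fun hh => hh rfl) ?_
    rw [eq_inv_of_mul_eq_one_left hsum]
    exact inv_mem (ap_mono sub (mul_mem (mul_mem a0 a1) a2))
  have hg : g0 * g1 * g2 = 1 := by
    rw [hK, zpow_zero, one_mul] at hsum
    exact hsum
  rw [hg, mul_one] at hE2
  have s0 := ap_mono sub a0
  have s1 := ap_mono sub a1
  have s2 := ap_mono sub a2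
  have h6 := d.ker (mul_mem m0 (inv_mem s0)) (mul_mem (mul_mem s0 (mul_mem m1 (inv_mem s1))) (inv_mem s0))
    (mul_mem (mul_mem (mul_mem s0 s1) (mul_mem m2 (inv_mem s2))) (inv_mem (mul_mem s0 s1))) q0 q1 q2 hk₀ hk₁ hK hE2
  have h7 : Y₀ ∈ ap M ({v (n - 1)}ᶜ : Set B) := (Subgroup.mul_mem_cancel_right _ (inv_mem (ap_mono sub' a0))).1 h6
  rw [hY₀] at h7
  exact hy0' ((Subgroup.mul_mem_cancel_right _ (ap_mono sub' hz₁)).1 h7)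

end Pool.Agent.H75.BT
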