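import Pool.Agent.H75.BT.Au

/-!
# [H75 BT WD] Words: letters `a_j`, `j < l`; the inversion of the letters; automorphisms that preserve `Wl l` (60 min)

`Wl l = closure (of '' {j | j < l})`. `jj a_j = a_j⁻¹`.
`mem_iff`: `u ∈ Wl l ↔` all letters of `u.toWord` are `< l`. `→`: `Subgroup.closure_induction`: `1`: `toWord_one`; generator `of j`: `toWord_of`; product: `toWord_mul_sublist` (`(x * y).toWord` is a sublist of `x.toWord ++ y.toWord`);
inverse: `toWord_inv`, `invRev`. `←`: `u = mk u.toWord` (`mk_toWord`), induction over the list: `mk (c :: L) = mk [c] * mk L`, `mk [(j, true)] = of j`, `mk [(j, false)] = (of j)⁻¹`.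
`pal`: `L = u.toWord` is reduced (`isReduced_toWord` or the name in Mathlib, look in `Mathlib/GroupTheory/FreeGroup/Reduce.lean` and `H88/DT/Fr.lean`). `jj (mk L) = mk (L.map fun c => (c.1, !c.2))` (induction), so
`(jj u)⁻¹ = mk L.reverse`, `(jj u)⁻¹ * u = mk (L.reverse ++ L)`, and `L.reverse ++ L` is reduced: `IsReduced` is a chain condition `a.1 = b.1 → a.2 = b.2` for neighbours, symmetric, so it holds for `L.reverse`
(`List.isChain_reverse`), and at the junction both letters are the head of `L` (`List.isChain_append`). So the word of `(jj u)⁻¹ * u` is `L.reverse ++ L`; by `mem_iff` all letters of `L` are `< l`, and `u ∈ Wl l`.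
`Pr l α`: `α u ∈ Wl l ↔ u ∈ Wl l`. `pr_t`: `T` and `T⁻¹` map the letters `< l` into `Wl l` (`T⁻¹ a_0 = a_0`, `T⁻¹ a_(j+1) = a_(j+1) a_0`: from `tT_succ` and `MulAut.inv_apply_self`); a homomorphism which maps the generators of a closure into a subgroup
maps the closure into it (`Subgroup.closure_le`, `Subgroup.comap`). `pr_v`, case `i + 1 < l`: the same, `V⁻¹ a_(i+1) = a_i`, `V⁻¹ a_i = a_i a_(i+1)⁻¹ a_i`. Case `l ≤ i`: `V i u = u` for `u ∈ Wl l` (`vV_fix`); if `V i u ∈ Wl l` then `V i (V i u) = V i u`, so `V i u = u`.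
-/

set_option autoImplicit false

namespace Pool.Agent.H75.BT

open FreeGroup

/-- the subgroup generated by the letters `a_j`, `j < l` -/
def Wl (l : ℕ) : Subgroup W := Subgroup.closure (of '' {j | j < l})

theorem wl_mono {l l' : ℕ} (h : l ≤ l') : Wl l ≤ Wl l' :=
  Subgroup.closure_mono (Set.image_mono fun _ hj => lt_of_lt_of_le hj h)

theorem of_mem {j l : ℕ} (h : j < l) : (of j : W) ∈ Wl l := Subgroup.subset_closure ⟨j, h, rfl⟩

theorem wl_zero {u : W} (h : u ∈ Wl 0) : u = 1 := by
  have e : (of '' {j : ℕ | j < 0} : Set W) = ∅ := by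
    rw [Set.image_eq_empty]
    ext j
    simp
  unfold Wl at h
  rwa [e, Subgroup.closure_empty, Subgroup.mem_bot] at h

/-- homomorphisms of `Wl l` -/
theorem wl_le {G : Type*} [Group G] {l : ℕ} (f : W →* G) {P : Subgroup G} (h : ∀ j < l, f (of j) ∈ P) {u : W} (hu : u ∈ Wl l) :
    f u ∈ P := by
  have h1 : Wl l ≤ P.comap f := by
    unfold Wl
    rw [Subgroup.closure_le]
    rintro _ ⟨j, hj, rfl⟩
    exact h j hj
  exact h1 hu

/-- homomorphisms which agree on the letters -/
theorem wl_ext {G : Type*} [Group G] {l : ℕ} {f g : W →* G} (h : ∀ j < l, f (of j) = g (of j)) {u : W} (hu : u ∈ Wl l) : f u = g u := by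
  have h1 : Wl l ≤ f.eqLocus g := by
    unfold Wl
    rw [Subgroup.closure_le]
    rintro _ ⟨j, hj, rfl⟩
    exact h j hj
  exact h1 hu

/-- inversion of the letters -/
def jj : W →* W := FreeGroup.lift fun j => (of j)⁻¹

theorem jj_of (j : ℕ) : jj (of j) = (of j)⁻¹ := lift_apply_of

theorem jj_mem {l : ℕ} {u : W} (h : u ∈ Wl l) : jj u ∈ Wl l := wl_le jj (fun j hj => by rw [jj_of]; exact inv_mem (of_mem hj)) h

private theorem mk_cons' (c : ℕ × Bool) (L : List (ℕ × Bool)) : (FreeGroup.mk (c :: L) : W) = FreeGroup.mk [c] * FreeGroup.mk L := by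
  rw [mul_mk]
  rfl

private theorem mk_false (j : ℕ) : (FreeGroup.mk [(j, false)] : W) = (of j)⁻¹ := rfl

private theorem mk_true (j : ℕ) : (FreeGroup.mk [(j, true)] : W) = of j := rfl

private theorem mk_mem {l : ℕ} : ∀ L : List (ℕ × Bool), (∀ c ∈ L, c.1 < l) → (FreeGroup.mk L : W) ∈ Wl l
  | [], _ => one_mem _
  | c :: L, h => by
    rw [mk_cons']
    refine mul_mem ?_ (mk_mem L fun c' hc' => h c' (List.mem_cons_of_mem _ hc'))
    have h1 := h c List.mem_cons_self
    obtain ⟨j, b⟩ := c
    cases b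
    · rw [mk_false]
      exact inv_mem (of_mem h1)
    · rw [mk_true]
      exact of_mem h1

private theorem mem_iff {l : ℕ} {u : W} : u ∈ Wl l ↔ ∀ c ∈ u.toWord, c.1 < l := by
  constructor
  · intro hu
    unfold Wl at hu
    refine Subgroup.closure_induction (p := fun (u : W) _ => ∀ c ∈ u.toWord, c.1 < l) ?_ ?_ ?_ ?_ hu
    · rintro _ ⟨j, hj, rfl⟩ c hc
      rw [toWord_of, List.mem_singleton] at hc
      rw [hc]
      exact hj
    · intro c hc
      rw [toWord_one] at hc
      exact absurd hc List.not_mem_nil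
    · intro x y _ _ hx hy c hc
      have h1 := (toWord_mul_sublist x y).subset hc
      rw [List.mem_append] at h1
      rcases h1 with h1 | h1
      · exact hx c h1
      · exact hy c h1
    · intro x _ hx c hc
      rw [toWord_inv] at hc
      unfold invRev at hc
      rw [List.mem_reverse, List.mem_map] at hc
      obtain ⟨c', hc', rfl⟩ := hc
      exact hx c' hc'
  · intro h
    have h1 := mk_mem (l := l) u.toWord h
    rwa [mk_toWord] at h1

private theorem jj_mk (L : List (ℕ × Bool)) : jj (FreeGroup.mk L) = FreeGroup.mk (L.map fun c => (c.1, !c.2)) := by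
  induction L with
  | nil => exact _root_.map_one jj
  | cons c L ih =>
    rw [mk_cons', _root_.map_mul, ih, List.map_cons, mk_cons' (c.1, !c.2)]
    congr 1
    obtain ⟨j, b⟩ := c
    cases b
    · show jj (FreeGroup.mk [(j, false)]) = FreeGroup.mk [(j, true)]
      rw [mk_false, mk_true, _root_.map_inv, jj_of, inv_inv]
    · show jj (FreeGroup.mk [(j, true)]) = FreeGroup.mk [(j, false)]
      rw [mk_false, mk_true, jj_of]

/-- the palindrome lemma -/
theorem pal {l : ℕ} {u : W} (h : (jj u)⁻¹ * u ∈ Wl l) : u ∈ Wl l := by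
  obtain ⟨L, hL⟩ : ∃ L, L = u.toWord := ⟨_, rfl⟩
  have hu : u = FreeGroup.mk L := by rw [hL, mk_toWord]
  have hred : FreeGroup.IsReduced L := by rw [hL]; exact isReduced_toWord
  have h1 : (jj u)⁻¹ * u = FreeGroup.mk (L.reverse ++ L) := by
    rw [hu, jj_mk, inv_mk, mul_mk]
    congr 2
    unfold invRev
    rw [List.map_map]
    congr 1
    conv_rhs => rw [← List.map_id L]
    refine List.map_congr_left fun c _ => ?_
    simp
  have h2 : FreeGroup.IsReduced (L.reverse ++ L) := by
    unfold FreeGroup.IsReduced at hred ⊢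
    rw [List.isChain_append]
    refine ⟨?_, hred, ?_⟩
    · rw [List.isChain_reverse]
      refine hred.imp ?_
      intro a b hab h
      exact (hab h.symm).symm
    · intro x hx y hy _
      rw [List.getLast?_reverse] at hx
      rw [Option.mem_def] at hx hy
      rw [hx, Option.some.injEq] at hy
      rw [hy]
  have h3 : ((jj u)⁻¹ * u).toWord = L.reverse ++ L := by
    rw [h1, toWord_mk, h2.reduce_eq]
  rw [mem_iff, h3] at h
  rw [mem_iff, ← hL]
  exact fun c hc => h c (List.mem_append_right _ hc)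

/-- automorphisms which preserve `Wl l` -/
def Pr (l : ℕ) (α : MulAut W) : Prop := ∀ u, α u ∈ Wl l ↔ u ∈ Wl l

theorem pr_one (l : ℕ) : Pr l 1 := fun _ => Iff.rfl

theorem Pr.mul {l : ℕ} {α β : MulAut W} (h : Pr l α) (h' : Pr l β) : Pr l (α * β) := fun u => (h (β u)).trans (h' u)

theorem Pr.inv {l : ℕ} {α : MulAut W} (h : Pr l α) : Pr l α⁻¹ := fun u => by
  rw [← h (α⁻¹ u), MulAut.apply_inv_self]

theorem vV_fix {i l : ℕ} (h : l ≤ i) {u : W} (hu : u ∈ Wl l) : vV i u = u :=
  wl_ext (f := (vV i).toMonoidHom) (g := MonoidHom.id W) (fun j hj => vV_ne (by omega) (by omega)) hu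

theorem pr_t (l : ℕ) : Pr l tT := by
  intro u
  have h0 : tT⁻¹ (of 0) = of 0 := by
    have h1 := MulAut.inv_apply_self W tT (of 0)
    rwa [tT_zero] at h1
  have hs : ∀ j, tT⁻¹ (of (j + 1)) = of (j + 1) * of 0 := by
    intro j
    have h1 := MulAut.inv_apply_self W tT (of (j + 1) * of 0)
    rwa [_root_.map_mul, tT_succ, tT_zero, inv_mul_cancel_right] at h1
  constructor
  · intro hu
    have h1 := wl_le (l := l) (P := Wl l) (tT⁻¹ : MulAut W).toMonoidHom (fun j hj => ?_) hu
    · have h2 : (tT⁻¹ : MulAut W) (tT u) ∈ Wl l := h1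
      rwa [MulAut.inv_apply_self] at h2
    · show (tT⁻¹ : MulAut W) (of j) ∈ Wl l
      rcases j with _ | j
      · rw [h0]
        exact of_mem hj
      · rw [hs]
        exact mul_mem (of_mem hj) (of_mem (by omega))
  · intro hu
    refine wl_le (l := l) (P := Wl l) tT.toMonoidHom (fun j hj => ?_) hu
    show tT (of j) ∈ Wl l
    rcases j with _ | j
    · rw [tT_zero]
      exact of_mem hj
    · rw [tT_succ]
      exact mul_mem (of_mem hj) (inv_mem (of_mem (by omega)))

theorem pr_v {i l : ℕ} (h : i + 1 < l ∨ l ≤ i) : Pr l (vV i) := by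
  intro u
  rcases h with h | h
  · have h1 : (vV i)⁻¹ (of (i + 1)) = of i := by
      have h1 := MulAut.inv_apply_self W (vV i) (of i)
      rwa [vV_self] at h1
    have h0 : (vV i)⁻¹ (of i) = of i * (of (i + 1))⁻¹ * of i := by
      have h1 := MulAut.inv_apply_self W (vV i) (of i * (of (i + 1))⁻¹ * of i)
      have h2 : vV i (of i * (of (i + 1))⁻¹ * of i) = of i := by
        rw [_root_.map_mul, _root_.map_mul, _root_.map_inv, vV_succ, vV_self]
        group
      rwa [h2] at h1
    have hne : ∀ j, j ≠ i → j ≠ i + 1 → (vV i)⁻¹ (of j) = of j := by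
      intro j h2 h3
      have h1 := MulAut.inv_apply_self W (vV i) (of j)
      rwa [vV_ne h2 h3] at h1
    constructor
    · intro hu
      have h2 := wl_le (l := l) (P := Wl l) ((vV i)⁻¹ : MulAut W).toMonoidHom (fun j hj => ?_) hu
      · have h3 : ((vV i)⁻¹ : MulAut W) (vV i u) ∈ Wl l := h2
        rwa [MulAut.inv_apply_self] at h3
      · show ((vV i)⁻¹ : MulAut W) (of j) ∈ Wl l
        by_cases e1 : j = i
        · rw [e1, h0]
          exact mul_mem (mul_mem (of_mem (by omega)) (inv_mem (of_mem h))) (of_mem (by omega))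
        · by_cases e2 : j = i + 1
          · rw [e2, h1]
            exact of_mem (by omega)
          · rw [hne j e1 e2]
            exact of_mem hj
    · intro hu
      refine wl_le (l := l) (P := Wl l) (vV i).toMonoidHom (fun j hj => ?_) hu
      show vV i (of j) ∈ Wl l
      by_cases e1 : j = i
      · rw [e1, vV_self]
        exact of_mem h
      · by_cases e2 : j = i + 1
        · rw [e2, vV_succ]
          exact mul_mem (mul_mem (of_mem h) (inv_mem (of_mem (by omega)))) (of_mem h)
        · rw [vV_ne e1 e2]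
          exact of_mem hj
  · constructor
    · intro hu
      have h1 := vV_fix h hu
      have h2 : vV i u = u := (vV i).injective h1
      rwa [h2] at hu
    · intro hu
      rwa [vV_fix h hu]

end Pool.Agent.H75.BT
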